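import Pool.Agent.H974R2.Cross

/-!
One-arm events.
-/

set_option maxHeartbeats 400000

namespace H974

open Finset

/-- Edges of the box `[-n, n]²`. -/
noncomputable def boxE (n : ℕ) : Finset Edg := RE (-n) n (-n) n

/-- The inner boundary of the box `[-n, n]²`. -/
def onB (n : ℕ) (v : Vtx) : Prop :=
  inR (-n) n (-n) n v ∧ (v.1 = -n ∨ v.1 = n ∨ v.2 = -n ∨ v.2 = n)

/-- The origin is connected to the boundary of the box `[-n, n]²` inside the box. -/
def Arm (n : ℕ) (F : Finset Edg) : Prop :=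
  ∃ v, onB n v ∧ Reach (↑F ∩ ↑(boxE n)) (0, 0) v

/-- The one-arm probability. -/
noncomputable def arm (q : ℝ) (n : ℕ) : ℝ := Pr (fun _ => q) (boxE n) (Arm n)

theorem Arm.mono {n : ℕ} {F G : Finset Edg} (h : F ⊆ G) (hF : Arm n F) : Arm n G := by
  obtain ⟨v, h1, h2⟩ := hF
  exact ⟨v, h1, h2.mono (Set.inter_subset_inter_left _ (by exact_mod_cast h))⟩

theorem Arm_incr (S : Finset Edg) (n : ℕ) : IncrE S (Arm n) := fun _ _ h _ hF => hF.mono h

theorem Arm_local {n : ℕ} {F S : Finset Edg} (hS : boxE n ⊆ S) :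
    Arm n F ↔ Arm n (F ∩ S) := by
  unfold Arm
  rw [coe_inter_eq hS]

theorem arm_nonneg {q : ℝ} (h0 : 0 ≤ q) (h1 : q ≤ 1) (n : ℕ) : 0 ≤ arm q n :=
  Pr_nonneg (okq h0 h1) _ _

theorem arm_le_one {q : ℝ} (h0 : 0 ≤ q) (h1 : q ≤ 1) (n : ℕ) : arm q n ≤ 1 :=
  Pr_le_one (okq h0 h1) _ _

theorem arm_mono_param {p q : ℝ} (h0 : 0 ≤ p) (hpq : p ≤ q) (h1 : q ≤ 1) (n : ℕ) :
    arm p n ≤ arm q n :=
  Pr_mono_param (okq h0 (hpq.trans h1)) (okq (h0.trans hpq) h1) (fun _ => hpq) (Arm_incr _ _)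

theorem pr_Arm (q : ℝ) {n : ℕ} {S : Finset Edg} (hS : boxE n ⊆ S) :
    Pr (fun _ => q) S (Arm n) = arm q n := by
  unfold arm
  apply Pr_local hS
  intro F _
  exact Arm_local (Finset.Subset.refl _)

theorem boxE_mono {n m : ℕ} (h : n ≤ m) : boxE n ⊆ boxE m := by
  unfold boxE
  have h' : (n:ℤ) ≤ m := by exact_mod_cast h
  rintro ⟨x, y, _ | _⟩ h8
  · simp only [mem_RE_false] at h8 ⊢; omega
  · simp only [mem_RE_true] at h8 ⊢; omega

/-- A connection from `v` to the outside of a box around `v`. -/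
theorem arm_bound {q : ℝ} (h0 : 0 ≤ q) (h1 : q ≤ 1) (S : Finset Edg) (v : Vtx) (r : ℕ) :
    Pr (fun _ => q) S (fun F => ∃ u : Vtx, (u.1 ≤ v.1 - r ∨ v.1 + r ≤ u.1 ∨ u.2 ≤ v.2 - r ∨
      v.2 + r ≤ u.2) ∧ Reach (↑F) v u) ≤ arm q r := by
  obtain ⟨a, b⟩ := v
  simp only
  have ok := okq h0 h1
  set B := (trl a b).mp (boxE r) with hB
  have hBeq : B = RE (a - r) (a + r) (b - r) (b + r) := by
    rw [hB]; unfold boxE; rw [trl_RE]; congr 1 <;> ring
  set Q : Finset Edg → Prop := fun F => ∃ w : Vtx, inR (a - r) (a + r) (b - r) (b + r) w ∧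
    (w.1 = a - r ∨ w.1 = a + r ∨ w.2 = b - r ∨ w.2 = b + r) ∧
      Reach (↑F ∩ ↑(RE (a - r) (a + r) (b - r) (b + r))) (a, b) w with hQ
  have s1 : Pr (fun _ => q) S (fun F => ∃ u : Vtx, (u.1 ≤ a - r ∨ a + r ≤ u.1 ∨ u.2 ≤ b - r ∨
      b + r ≤ u.2) ∧ Reach (↑F) (a, b) u) ≤ Pr (fun _ => q) S Q := by
    apply Pr_mono ok
    rintro F _ ⟨u, hu, hr⟩
    exact first_exit (by unfold inR; simp only; omega) hr hu
  have hQi : IncrE (S ∪ B) Q := by
    rintro F G h _ ⟨w, k1, k2, k3⟩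
    exact ⟨w, k1, k2, k3.mono (Set.inter_subset_inter_left _ (by exact_mod_cast h))⟩
  have s2 : Pr (fun _ => q) S Q ≤ Pr (fun _ => q) (S ∪ B) Q :=
    Pr_mono_set ok Finset.subset_union_left hQi
  have s3 : Pr (fun _ => q) (S ∪ B) Q = Pr (fun _ => q) B Q := by
    apply Pr_local Finset.subset_union_right
    intro F _
    simp only [hQ]
    rw [hBeq, coe_inter_eq (Finset.Subset.refl _)]
  have s4 : Pr (fun _ => q) B Q = arm q r := by
    rw [hB, LSym.pr]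
    unfold arm
    apply Pr_congr
    intro F _
    have himg : (trl a b).φ '' ((↑F : Set Edg) ∩ ↑(boxE r))
        = ↑((trl a b).mp F) ∩ ↑(RE (a - r) (a + r) (b - r) (b + r)) := by
      rw [LSym.image_inter, ← hB, hBeq]
    constructor
    · rintro ⟨w, k1, k2, k3⟩
      refine ⟨(w.1 - a, w.2 - b), ?_, ?_⟩
      · unfold onB inR at *
        simp only
        omega
      · rw [← (trl a b).reach_iff, himg, trl_ψ, trl_ψ]
        simpa using k3
    · rintro ⟨⟨w1, w2⟩, k1, k2⟩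
      refine ⟨(w1 + a, w2 + b), ?_, ?_, ?_⟩
      · unfold onB inR at *
        simp only
        omega
      · unfold onB inR at *
        simp only
        omega
      · rw [← (trl a b).reach_iff, himg, trl_ψ] at k2
        simpa using k2
  linarith

theorem arm_anti {q : ℝ} (h0 : 0 ≤ q) (h1 : q ≤ 1) {n m : ℕ} (h : n ≤ m) :
    arm q m ≤ arm q n := by
  rw [← pr_Arm q (boxE_mono h)]
  unfold arm
  apply Pr_mono (okq h0 h1)
  rintro F _ ⟨v, hv, hr⟩
  have h' : (n:ℤ) ≤ m := by exact_mod_cast h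
  obtain ⟨w, k1, k2, k3⟩ := first_exit (G := ↑F ∩ ↑(boxE m)) (a := -n) (b := n) (c := -n) (d := n)
    (u := (0, 0)) (v := v) (by unfold inR; simp) hr (by unfold onB at hv; omega)
  refine ⟨w, ⟨k1, k2⟩, k3.mono ?_⟩
  rintro e ⟨⟨k4, -⟩, k5⟩
  exact ⟨k4, k5⟩

theorem arm_zero (q : ℝ) : arm q 0 = 1 := by
  unfold arm
  apply Pr_true
  intro F _
  exact ⟨(0, 0), by unfold onB inR; simp, Reach.refl _ _⟩

end H974
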