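import Pool.Agent.H974R2.RSW1

/-!
The Russo-Seymour-Welsh theorem at the self-dual point.
-/

set_option maxHeartbeats 400000

namespace H974

open Finset

theorem DAdj_tps {G : Set Edg} {f g : Vtx} (h : DAdj G f g) :
    DAdj (tps.φ '' G) (tps.ψ f) (tps.ψ g) := by
  obtain ⟨⟨x, y, b⟩, he, hcase⟩ := h
  refine ⟨tps.φ (x, y, b), Set.mem_image_of_mem _ he, ?_⟩
  cases b
  · simp only [dsrc_false, dtgt_mk] at hcase
    simp only [tps_φ, Bool.not_false, dsrc_true, dtgt_mk]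
    rcases hcase with ⟨h1, h2⟩ | ⟨h1, h2⟩
    · left; rw [← h1, ← h2]; exact ⟨rfl, rfl⟩
    · right; rw [← h1, ← h2]; exact ⟨rfl, rfl⟩
  · simp only [dsrc_true, dtgt_mk] at hcase
    simp only [tps_φ, Bool.not_true, dsrc_false, dtgt_mk]
    rcases hcase with ⟨h1, h2⟩ | ⟨h1, h2⟩
    · left; rw [← h1, ← h2]; exact ⟨rfl, rfl⟩
    · right; rw [← h1, ← h2]; exact ⟨rfl, rfl⟩

theorem DReach_tps {G : Set Edg} {f g : Vtx} (h : DReach G f g) :
    DReach (tps.φ '' G) (tps.ψ f) (tps.ψ g) := by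
  induction h with
  | refl => exact DReach.refl _ _
  | tail _ hs ih => exact ih.trans (DAdj_tps hs).reach

theorem no_both_TB {a b c d : ℤ} (hab : a ≤ b) {F : Set Edg} {y y' x x' : ℤ}
    (hx' : a ≤ x' ∧ x' ≤ b) (hy : c ≤ y ∧ y < d)
    (h1 : Reach (F ∩ TBE a b c d) (x, c) (x', d))
    (h2 : DReach (Fᶜ ∩ TBE a b c d) (a - 1, y) (b, y')) : False := by
  have k1 := tps.reach h1
  have k2 := DReach_tps h2
  rw [Set.image_inter tps.φ.injective, ← LSym.coe_mp, tps_TBE] at k1 k2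
  rw [Set.image_compl_eq tps.φ.bijective] at k2
  exact no_both (F := tps.φ '' F) hab hx' hy k1 k2

/-- No closed dual left-right crossing of the square. -/
def good (n : ℤ) (F : Finset Edg) : Prop := ∀ y, 0 ≤ y → y < n → ¬ Dual0 n F (n, y)

theorem good_of_TBc {n : ℤ} (hn : 0 < n) {F : Finset Edg} (h : TBc 0 n 0 n F) : good n F := by
  rintro y hy1 hy2 ⟨y', hy', hd⟩
  obtain ⟨x, x', hx, hx', hr⟩ := h
  exact no_both_TB hn.le hx' hy' hr (by simpa using hd)

theorem Dual0_stop {n : ℤ} {F F' : Finset Edg} (h : F ∩ KK n F = F' ∩ KK n F) (f : Vtx) :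
    Dual0 n F f ↔ Dual0 n F' f := by
  have hmem : ∀ e ∈ KK n F, (e ∈ F ↔ e ∈ F') := by
    intro e he
    have := Finset.ext_iff.mp h e
    simp only [Finset.mem_inter, he, and_true] at this
    exact this
  constructor
  · rintro ⟨y, hy, hr⟩
    refine ⟨y, hy, ?_⟩
    have : ∀ g, DReach ((↑F : Set Edg)ᶜ ∩ ↑(TBE 0 n 0 n)) (-1, y) g →
        Dual0 n F g ∧ DReach ((↑F' : Set Edg)ᶜ ∩ ↑(TBE 0 n 0 n)) (-1, y) g := by
      intro g hg
      induction hg with
      | refl => exact ⟨⟨y, hy, DReach.refl _ _⟩, DReach.refl _ _⟩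
      | @tail g g' _ hst ih =>
        obtain ⟨e, ⟨heF, heT⟩, hcase⟩ := hst
        have hD' : Dual0 n F g' := by
          obtain ⟨y', hy', hr'⟩ := ih.1
          exact ⟨y', hy', hr'.trans (DAdj.reach ⟨e, ⟨heF, heT⟩, hcase⟩)⟩
        refine ⟨hD', ih.2.trans (DAdj.reach ⟨e, ⟨?_, heT⟩, hcase⟩)⟩
        intro heF'
        apply heF
        have heK : e ∈ KK n F := by
          rw [mem_KK]
          refine ⟨heT, ?_⟩
          rcases hcase with ⟨h1, h2⟩ | ⟨h1, h2⟩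
          · left; rw [h1]; exact ih.1
          · left; rw [h1]; exact hD'
        exact (hmem e heK).mpr heF'
    exact (this f hr).2
  · rintro ⟨y, hy, hr⟩
    have : ∀ g, DReach ((↑F' : Set Edg)ᶜ ∩ ↑(TBE 0 n 0 n)) (-1, y) g → Dual0 n F g := by
      intro g hg
      induction hg with
      | refl => exact ⟨y, hy, DReach.refl _ _⟩
      | @tail g g' _ hst ih =>
        obtain ⟨e, ⟨heF, heT⟩, hcase⟩ := hst
        have heK : e ∈ KK n F := by
          rw [mem_KK]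
          refine ⟨heT, ?_⟩
          rcases hcase with ⟨h1, h2⟩ | ⟨h1, h2⟩
          · left; rw [h1]; exact ih
          · right; rw [h2]; exact ih
        obtain ⟨y', hy', hr'⟩ := ih
        refine ⟨y', hy', hr'.trans (DAdj.reach ⟨e, ⟨?_, heT⟩, hcase⟩)⟩
        intro h3
        exact heF ((hmem e heK).mp h3)
    exact this f hr

theorem KK_stop {n : ℤ} {F F' : Finset Edg} (h : F ∩ KK n F = F' ∩ KK n F) :
    KK n F' = KK n F := by
  ext e
  rw [mem_KK, mem_KK, Dual0_stop h, Dual0_stop h]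

theorem KK_subset (n : ℤ) (F : Finset Edg) : KK n F ⊆ TBE 0 n 0 n := by
  intro e he
  exact (mem_KK.mp he).1

theorem good_stop {n : ℤ} {F F' : Finset Edg} (h : F ∩ KK n F = F' ∩ KK n F) :
    good n F ↔ good n F' := by
  unfold good
  constructor
  · intro h1 y hy hy' h2
    exact h1 y hy hy' ((Dual0_stop h _).mpr h2)
  · intro h1 y hy hy' h2
    exact h1 y hy hy' ((Dual0_stop h _).mp h2)

theorem first_hit {G : Set Edg} {T : Vtx → Prop} {u v : Vtx} (h : Reach G u v) (hu : ¬ T u)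
    (hv : T v) : ∃ v' w', Reach (G ∩ {e | ¬ T (src e) ∧ ¬ T (tgt e)}) u v' ∧ ¬ T v' ∧
      Adj G v' w' ∧ T w' := by
  have key : ∀ w, Reach G u w → (∃ v' w', Reach (G ∩ {e | ¬ T (src e) ∧ ¬ T (tgt e)}) u v' ∧
      ¬ T v' ∧ Adj G v' w' ∧ T w') ∨
      (¬ T w ∧ Reach (G ∩ {e | ¬ T (src e) ∧ ¬ T (tgt e)}) u w) := by
    intro w hw
    induction hw with
    | refl => exact Or.inr ⟨hu, Reach.refl _ _⟩
    | @tail w w' _ hs ih =>
      rcases ih with ih | ⟨ih1, ih2⟩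
      · exact Or.inl ih
      · by_cases hT : T w'
        · exact Or.inl ⟨w, w', ih2, ih1, hs, hT⟩
        · right
          refine ⟨hT, ih2.trans ?_⟩
          obtain ⟨e, he, hcase⟩ := hs
          refine Adj.reach ⟨e, ⟨he, ?_⟩, hcase⟩
          rcases hcase with ⟨h1, h2⟩ | ⟨h1, h2⟩
          · show ¬ T (src e) ∧ ¬ T (tgt e)
            rw [h1, h2]; exact ⟨ih1, hT⟩
          · show ¬ T (src e) ∧ ¬ T (tgt e)
            rw [h1, h2]; exact ⟨hT, ih1⟩
  rcases key v h with h1 | ⟨h1, -⟩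
  · exact h1
  · exact absurd hv h1

theorem TT_of_mem {n : ℤ} {K : Finset Edg} (hK : K ⊆ TBE 0 n 0 n) {e : Edg} (he : e ∈ K) :
    TT n K (src e) ∧ TT n K (tgt e) := by
  have heT := hK he
  have h1 : fold n (src e) = src e := by
    obtain ⟨x, y, _ | _⟩ := e
    · rw [mem_TBE_false] at heT
      simp only [fold, src_mk, Prod.mk.injEq, true_and]; omega
    · rw [mem_TBE_true] at heT
      simp only [fold, src_mk, Prod.mk.injEq, true_and]; omega
  have h2 : fold n (tgt e) = tgt e := by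
    obtain ⟨x, y, _ | _⟩ := e
    · rw [mem_TBE_false] at heT
      simp only [fold, tgt_false, Prod.mk.injEq, true_and]; omega
    · rw [mem_TBE_true] at heT
      simp only [fold, tgt_true, Prod.mk.injEq, true_and]; omega
  unfold TT
  rw [h1, h2]
  exact ⟨⟨e, he, Or.inl rfl⟩, ⟨e, he, Or.inr rfl⟩⟩

theorem YY_local {n m : ℤ} {K : Finset Edg} (hK : K ⊆ TBE 0 n 0 n) (F : Finset Edg) :
    YY n m K F ↔ YY n m K (F ∩ (RE 0 m 0 (2 * n) \ K)) := by
  constructor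
  · rintro ⟨y, v, w, h1, h2, h3, ⟨e, ⟨he1, he2⟩, hcase⟩, h5⟩
    refine ⟨y, v, w, h1, h2.mono ?_, h3, ⟨e, ⟨?_, he2⟩, hcase⟩, h5⟩
    · rintro e' ⟨⟨k1, k2⟩, k3⟩
      refine ⟨⟨?_, k2⟩, k3⟩
      simp only [Finset.coe_inter, Finset.coe_sdiff, Set.mem_inter_iff, Set.mem_sdiff,
        Finset.mem_coe]
      exact ⟨k1, k2, fun h => k3.1 (TT_of_mem hK h).1⟩
    · simp only [Finset.coe_inter, Finset.coe_sdiff, Set.mem_inter_iff, Set.mem_sdiff,
        Finset.mem_coe]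
      refine ⟨he1, he2, fun h => ?_⟩
      obtain ⟨t1, t2⟩ := TT_of_mem hK h
      rcases hcase with ⟨h6, h7⟩ | ⟨h6, h7⟩
      · rw [h6] at t1; exact h3 t1
      · rw [h7] at t2; exact h3 t2
  · rintro ⟨y, v, w, h1, h2, h3, h4, h5⟩
    have hs : ((F ∩ (RE 0 m 0 (2 * n) \ K) : Finset Edg) : Set Edg) ∩ ↑(RE 0 m 0 (2 * n)) ⊆
        ↑F ∩ ↑(RE 0 m 0 (2 * n)) := by
      apply Set.inter_subset_inter_left
      rw [Finset.coe_inter]
      exact Set.inter_subset_left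
    exact ⟨y, v, w, h1, h2.mono (Set.inter_subset_inter_left _ hs), h3, h4.mono hs, h5⟩

theorem YY_of_LRc {n m : ℤ} (hm : n < m) {K : Finset Edg} (hK : K ⊆ TBE 0 n 0 n)
    (hcol : ∀ y, 0 ≤ y → y ≤ n → WW K (0, y)) {F : Finset Edg} (h : LRc 0 m 0 (2 * n) F) :
    YY n m K F ∨ YY n m K ((rfy (2 * n)).mp F) := by
  obtain ⟨y, y', hy, hy', hr⟩ := h
  have hr' : Reach (↑F ∩ ↑(RE 0 m 0 (2 * n))) (m, y') (0, y) :=
    (hr.symm.mono (Set.inter_subset_inter_right _ (by exact_mod_cast LRE_subset_RE)))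
  have hWx : ∀ u, WW K u → u.1 ≤ n ∧ u.2 ≤ n := by
    rintro u ⟨e, he, heu⟩
    have := hK he
    obtain ⟨x1, y1, _ | _⟩ := e
    · rw [mem_TBE_false] at this
      simp only [src_mk, tgt_false] at heu
      rcases heu with h | h <;> (rw [← h]; simp only; omega)
    · rw [mem_TBE_true] at this
      simp only [src_mk, tgt_true] at heu
      rcases heu with h | h <;> (rw [← h]; simp only; omega)
  have hnT : ¬ TT n K (m, y') := by
    intro h
    have := (hWx _ h).1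
    simp only [fold] at this
    omega
  have hT : TT n K (0, y) := by
    have : fold n (0, y) = (0, min y (2 * n - y)) := rfl
    unfold TT
    rw [this]
    exact hcol _ (by omega) (by omega)
  obtain ⟨v', w', h1, h2, h3, h4⟩ := first_hit hr' hnT hT
  by_cases hw : w'.2 ≤ n
  · left
    have hf : fold n w' = w' := by
      obtain ⟨a, b⟩ := w'
      simp only [fold, Prod.mk.injEq, true_and]
      simp only at hw
      omega
    unfold TT at h4
    rw [hf] at h4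
    exact ⟨y', v', w', hy', h1, h2, h3, h4⟩
  · right
    have hfold : ∀ u : Vtx, fold n ((rfy (2 * n)).ψ u) = fold n u := by
      rintro ⟨a, b⟩
      simp only [fold, rfy_ψ, Prod.mk.injEq, true_and]
      omega
    have hTT : ∀ u : Vtx, TT n K ((rfy (2 * n)).ψ u) ↔ TT n K u := by
      intro u
      unfold TT
      rw [hfold]
    have hsub1 : (rfy (2 * n)).φ '' ((↑F : Set Edg) ∩ ↑(RE 0 m 0 (2 * n))) ⊆
        ↑((rfy (2 * n)).mp F) ∩ ↑(RE 0 m 0 (2 * n)) := by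
      rw [LSym.image_inter, rfy_RE]
      simp
    have hsub2 : (rfy (2 * n)).φ '' ((↑F : Set Edg) ∩ ↑(RE 0 m 0 (2 * n)) ∩
          {e | ¬ TT n K (src e) ∧ ¬ TT n K (tgt e)}) ⊆
        (↑((rfy (2 * n)).mp F) ∩ ↑(RE 0 m 0 (2 * n))) ∩
          {e | ¬ TT n K (src e) ∧ ¬ TT n K (tgt e)} := by
      rintro e ⟨e', ⟨he1, he2⟩, rfl⟩
      refine ⟨hsub1 ⟨e', he1, rfl⟩, ?_⟩
      show ¬ TT n K (src ((rfy (2 * n)).φ e')) ∧ ¬ TT n K (tgt ((rfy (2 * n)).φ e'))
      rcases (rfy (2 * n)).compat e' with ⟨c1, c2⟩ | ⟨c1, c2⟩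
      · rw [c1, c2, hTT, hTT]; exact he2
      · rw [c1, c2, hTT, hTT]; exact ⟨he2.2, he2.1⟩
    refine ⟨2 * n - y', (rfy (2 * n)).ψ v', (rfy (2 * n)).ψ w', by omega,
      ((rfy (2 * n)).reach h1).mono hsub2, ?_, ((rfy (2 * n)).adj h3).mono hsub1, ?_⟩
    · rw [hTT]; exact h2
    · have hf : (rfy (2 * n)).ψ w' = fold n w' := by
        obtain ⟨a, b⟩ := w'
        simp only [fold, rfy_ψ, Prod.mk.injEq, true_and]
        simp only at hw
        omega
      rw [hf]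
      exact h4

theorem KK_col {n : ℤ} (hn : 0 < n) (F : Finset Edg) : ∀ y, 0 ≤ y → y ≤ n → WW (KK n F) (0, y) := by
  intro y hy hyn
  by_cases h : y < n
  · refine ⟨(0, y, false), ?_, Or.inl rfl⟩
    rw [mem_KK]
    refine ⟨by simp only [mem_TBE_false]; omega, Or.inl ?_⟩
    exact ⟨y, ⟨hy, h⟩, by simpa using DReach.refl _ _⟩
  · refine ⟨(0, y - 1, false), ?_, Or.inr (by simp)⟩
    rw [mem_KK]
    refine ⟨by simp only [mem_TBE_false]; omega, Or.inl ?_⟩
    exact ⟨y - 1, by omega, by simpa using DReach.refl _ _⟩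

/-- The event that a top-bottom crossing of the small square is connected to the right side of the
large rectangle. -/
def XR (n m : ℤ) (F : Finset Edg) : Prop :=
  ∃ x x' y, (0 ≤ x ∧ x ≤ n) ∧ (0 ≤ x' ∧ x' ≤ n) ∧ (0 ≤ y ∧ y ≤ 2 * n) ∧
      Reach (↑F ∩ ↑(TBE 0 n 0 n)) (x, 0) (x', n) ∧
      Reach (↑F ∩ ↑(RE 0 m 0 (2 * n))) (m, y) (x, 0)

theorem pr_YY {q : ℝ} (h0 : 0 ≤ q) (h1 : q ≤ 1) {n m : ℤ} (hm : n < m) {K : Finset Edg}
    (hK : K ⊆ TBE 0 n 0 n) (hcol : ∀ y, 0 ≤ y → y ≤ n → WW K (0, y)) :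
    1/2 * hh q m (2 * n) ≤ Pr (fun _ => q) (RE 0 m 0 (2 * n)) (YY n m K) := by
  have e1 : Pr (fun _ => q) (RE 0 m 0 (2 * n)) (LRc 0 m 0 (2 * n)) = hh q m (2 * n) := by
    rw [pr_LRc q LRE_subset_RE]; simp
  have e2 : (rfy (2 * n)).mp (RE 0 m 0 (2 * n)) = RE 0 m 0 (2 * n) := by
    rw [rfy_RE]; simp
  have e3 : Pr (fun _ => q) (RE 0 m 0 (2 * n)) (fun F => YY n m K ((rfy (2 * n)).mp F))
      = Pr (fun _ => q) (RE 0 m 0 (2 * n)) (YY n m K) := by
    rw [← LSym.pr, e2]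
  have e4 : Pr (fun _ => q) (RE 0 m 0 (2 * n)) (LRc 0 m 0 (2 * n)) ≤
      Pr (fun _ => q) (RE 0 m 0 (2 * n)) (fun F => YY n m K F ∨ YY n m K ((rfy (2 * n)).mp F)) :=
    Pr_mono (okq h0 h1) (fun F _ h => YY_of_LRc hm hK hcol h)
  have e5 := Pr_or_le (okq h0 h1) (RE 0 m 0 (2 * n)) (YY n m K)
    (fun F => YY n m K ((rfy (2 * n)).mp F))
  rw [e3] at e5
  rw [e1] at e4
  linarith

theorem pr_XR {q : ℝ} (h0 : 0 ≤ q) (h1 : q ≤ 1) {n m : ℤ} (hn : 0 < n) (hm : n < m) :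
    hh q n n * (1/2 * hh q m (2 * n)) ≤ Pr (fun _ => q) (RE 0 m 0 (2 * n)) (XR n m) := by
  set U := RE 0 m 0 (2 * n) with hU
  set S := TBE 0 n 0 n with hS
  have hSU : S ⊆ U := by
    rintro ⟨x, y, _ | _⟩ h8
    · simp only [hU, hS, mem_RE_false, mem_TBE_false] at h8 ⊢; omega
    · simp only [hU, hS, mem_RE_true, mem_TBE_true] at h8 ⊢; omega
  have ok := okq h0 h1
  -- decomposition
  have s1 : Ex (fun _ => q) U (fun F => ∑ K ∈ S.powerset,
      ind ((KK n F = K ∧ good n F) ∧ YY n m K F)) ≤ Pr (fun _ => q) U (XR n m) := by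
    apply Ex_mono ok
    intro F _
    have hKS : KK n F ∈ S.powerset := Finset.mem_powerset.mpr (KK_subset n F)
    rw [Finset.sum_eq_single_of_mem (KK n F) hKS]
    · apply ind_mono
      rintro ⟨⟨-, hg⟩, hY⟩
      exact claim2 hn hm hg hY
    · intro K _ hne
      apply ind_not_of
      rintro ⟨⟨h, -⟩, -⟩
      exact hne h.symm
  rw [Ex_sum] at s1
  have s2 : ∀ K ∈ S.powerset, Pr (fun _ => q) U (fun F => KK n F = K ∧ good n F) *
      (1/2 * hh q m (2 * n)) ≤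
      Ex (fun _ => q) U (fun F => ind ((KK n F = K ∧ good n F) ∧ YY n m K F)) := by
    intro K hK
    have hKS : K ⊆ S := Finset.mem_powerset.mp hK
    have hind := Pr_indep (p := fun _ : Edg => q) (U := U) (S := K) (T := U \ K)
      (hKS.trans hSU) Finset.sdiff_subset Finset.disjoint_sdiff
      (A := fun F => KK n F = K ∧ good n F) (B := YY n m K) (by
        intro F _
        have hFF : (F ∩ K) ∩ K = F ∩ K := by rw [Finset.inter_assoc, Finset.inter_self]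
        constructor
        · rintro ⟨h2, h3⟩
          have h4 : F ∩ KK n F = (F ∩ K) ∩ KK n F := by rw [h2, hFF]
          exact ⟨by rw [KK_stop h4, h2], (good_stop h4).mp h3⟩
        · rintro ⟨h2, h3⟩
          have h4 : (F ∩ K) ∩ KK n (F ∩ K) = F ∩ KK n (F ∩ K) := by rw [h2, hFF]
          exact ⟨by rw [KK_stop h4, h2], (good_stop h4).mp h3⟩)
        (by intro F _; exact YY_local hKS F)
    have e1 : Ex (fun _ => q) U (fun F => ind ((KK n F = K ∧ good n F) ∧ YY n m K F))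
        = Pr (fun _ => q) U (fun F => KK n F = K ∧ good n F) * Pr (fun _ => q) U (YY n m K) :=
      hind
    rw [e1]
    by_cases hex : ∃ F0, KK n F0 = K
    · obtain ⟨F0, hF0⟩ := hex
      apply mul_le_mul_of_nonneg_left _ (Pr_nonneg ok _ _)
      refine pr_YY h0 h1 hm hKS ?_
      rw [← hF0]
      exact KK_col hn F0
    · have : Pr (fun _ => q) U (fun F => KK n F = K ∧ good n F) = 0 := by
        have h5 : Pr (fun _ => q) U (fun F => KK n F = K ∧ good n F)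
            = Pr (fun _ => q) U (fun _ => False) := by
          apply Pr_congr
          intro F _
          constructor
          · rintro ⟨h6, -⟩; exact hex ⟨F, h6⟩
          · intro h; exact h.elim
        rw [h5]
        unfold Pr
        rw [Ex_congr (g := fun _ => 0) (fun F _ => ind_not_of (fun h => h)), Ex_const]
      rw [this]
      simp
  have s3 : ∑ K ∈ S.powerset, Pr (fun _ => q) U (fun F => KK n F = K ∧ good n F)
      = Pr (fun _ => q) U (good n) := by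
    unfold Pr
    rw [← Ex_sum]
    apply Ex_congr
    intro F _
    have hKS : KK n F ∈ S.powerset := Finset.mem_powerset.mpr (KK_subset n F)
    rw [Finset.sum_eq_single_of_mem (KK n F) hKS]
    · exact ind_congr ⟨fun h => h.2, fun h => ⟨rfl, h⟩⟩
    · intro K _ hne
      apply ind_not_of
      rintro ⟨h, -⟩
      exact hne h.symm
  have s4 : hh q n n ≤ Pr (fun _ => q) U (good n) := by
    have : Pr (fun _ => q) U (TBc 0 n 0 n) = hh q n n := by
      rw [pr_TBc q hSU]; simp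
    rw [← this]
    exact Pr_mono ok (fun F _ h => good_of_TBc hn h)
  have s5 : 0 ≤ 1/2 * hh q m (2 * n) := mul_nonneg (by norm_num) (hh_nonneg h0 h1 _ _)
  calc hh q n n * (1/2 * hh q m (2 * n))
      ≤ Pr (fun _ => q) U (good n) * (1/2 * hh q m (2 * n)) :=
        mul_le_mul_of_nonneg_right s4 s5
    _ = ∑ K ∈ S.powerset, Pr (fun _ => q) U (fun F => KK n F = K ∧ good n F) *
          (1/2 * hh q m (2 * n)) := by rw [← s3, Finset.sum_mul]
    _ ≤ _ := Finset.sum_le_sum s2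
    _ ≤ _ := s1

theorem XR_incr (S : Finset Edg) (n m : ℤ) : IncrE S (XR n m) := by
  rintro F G h _ ⟨x, x', y, h1, h2, h3, h4, h5⟩
  have h' : (↑F : Set Edg) ⊆ ↑G := by exact_mod_cast h
  exact ⟨x, x', y, h1, h2, h3, h4.mono (Set.inter_subset_inter_left _ h'),
    h5.mono (Set.inter_subset_inter_left _ h')⟩

theorem rfx_rfx (k : ℤ) (F : Finset Edg) : (rfx k).mp ((rfx k).mp F) = F := by
  ext ⟨x, y, _ | _⟩
  · simp [LSym.mem_mp]
  · simp only [LSym.mem_mp, rfx_φst]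
    have : k - (k - x - 1) - 1 = x := by ring
    rw [this]

/-- Three-to-two rectangles. -/
theorem hh_32 {n : ℤ} (hn : 0 < n) : (1/128 : ℝ) ≤ hh (1/2) (3 * n) (2 * n) := by
  have h0 : (0:ℝ) ≤ 1/2 := by norm_num
  have h1 : (1/2:ℝ) ≤ 1 := by norm_num
  have ok := okq h0 h1
  set U := RE (-n) (2 * n) 0 (2 * n) with hU
  have sub1 : RE 0 (2 * n) 0 (2 * n) ⊆ U := by
    rintro ⟨x, y, _ | _⟩ h8
    · simp only [hU, mem_RE_false] at h8 ⊢; omega
    · simp only [hU, mem_RE_true] at h8 ⊢; omega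
  have sub2 : RE (-n) n 0 (2 * n) ⊆ U := by
    rintro ⟨x, y, _ | _⟩ h8
    · simp only [hU, mem_RE_false] at h8 ⊢; omega
    · simp only [hU, mem_RE_true] at h8 ⊢; omega
  have sub3 : LRE 0 n 0 n ⊆ U := by
    rintro ⟨x, y, _ | _⟩ h8
    · simp only [hU, mem_RE_false, mem_LRE_false] at h8 ⊢; omega
    · simp only [hU, mem_RE_true, mem_LRE_true] at h8 ⊢; omega
  have sub4 : RE 0 n 0 n ⊆ U := by
    rintro ⟨x, y, _ | _⟩ h8
    · simp only [hU, mem_RE_false] at h8 ⊢; omega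
    · simp only [hU, mem_RE_true] at h8 ⊢; omega
  have hXl : ∀ (S : Finset Edg), RE 0 (2 * n) 0 (2 * n) ⊆ S → ∀ F : Finset Edg,
      (XR n (2 * n) F ↔ XR n (2 * n) (F ∩ RE 0 (2 * n) 0 (2 * n))) := by
    intro S _ F
    unfold XR
    have hT : TBE 0 n 0 n ⊆ RE 0 (2 * n) 0 (2 * n) := by
      rintro ⟨x, y, _ | _⟩ h8
      · simp only [mem_RE_false, mem_TBE_false] at h8 ⊢; omega
      · simp only [mem_RE_true, mem_TBE_true] at h8 ⊢; omega
    rw [coe_inter_eq hT, coe_inter_eq (Finset.Subset.refl _)]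
  have hsq1 := hh_square n hn
  have hsq2 := hh_square (2 * n) (by omega)
  have p1 : (1/8 : ℝ) ≤ Pr (fun _ => (1/2:ℝ)) U (XR n (2 * n)) := by
    have h2 := pr_XR h0 h1 hn (show n < 2 * n by omega)
    have h3 : Pr (fun _ => (1/2:ℝ)) U (XR n (2 * n))
        = Pr (fun _ => (1/2:ℝ)) (RE 0 (2 * n) 0 (2 * n)) (XR n (2 * n)) := by
      apply Pr_local sub1
      intro F _
      exact hXl _ (Finset.Subset.refl _) F
    rw [h3]
    refine le_trans ?_ h2
    nlinarith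
  have p2 : (1/8 : ℝ) ≤ Pr (fun _ => (1/2:ℝ)) U (fun F => XR n (2 * n) ((rfx n).mp F)) := by
    have h2 := pr_XR h0 h1 hn (show n < 2 * n by omega)
    have h3 : Pr (fun _ => (1/2:ℝ)) U (fun F => XR n (2 * n) ((rfx n).mp F))
        = Pr (fun _ => (1/2:ℝ)) (RE (-n) n 0 (2 * n)) (fun F => XR n (2 * n) ((rfx n).mp F)) := by
      apply Pr_local sub2
      intro F _
      show XR n (2 * n) ((rfx n).mp F) ↔ XR n (2 * n) ((rfx n).mp (F ∩ RE (-n) n 0 (2 * n)))
      rw [LSym.mp_inter, rfx_RE]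
      have e1 : n - n = 0 := by ring
      have e2 : n - (-n) = 2 * n := by ring
      rw [e1, e2]
      exact hXl _ (Finset.Subset.refl _) _
    rw [h3, ← LSym.pr, rfx_RE]
    have e1 : n - n = 0 := by ring
    have e2 : n - (-n) = 2 * n := by ring
    rw [e1, e2]
    refine le_trans ?_ h2
    nlinarith
  have p3 : (1/2 : ℝ) ≤ Pr (fun _ => (1/2:ℝ)) U (LRc 0 n 0 n) := by
    rw [pr_LRc _ sub3]; simpa using hsq1
  have inc2 : IncrE U (fun F => XR n (2 * n) ((rfx n).mp F)) := by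
    intro F G h _ hX
    exact XR_incr ((rfx n).mp G) n (2 * n) _ _ ((rfx n).mp_mono h) (Finset.Subset.refl _) hX
  have i1 := Pr_harris ok (XR_incr U n (2 * n)) inc2
  have inc3 : IncrE U (fun F => XR n (2 * n) F ∧ XR n (2 * n) ((rfx n).mp F)) :=
    fun F G h h' hX => ⟨XR_incr U n (2 * n) F G h h' hX.1, inc2 F G h h' hX.2⟩
  have i2 := Pr_harris ok inc3 (LRc_incr U 0 n 0 n)
  have i3 : Pr (fun _ => (1/2:ℝ)) U (fun F => (XR n (2 * n) F ∧ XR n (2 * n) ((rfx n).mp F)) ∧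
      LRc 0 n 0 n F) ≤ Pr (fun _ => (1/2:ℝ)) U (LRc (-n) (2 * n) 0 (2 * n)) := by
    apply Pr_mono ok
    rintro F _ ⟨⟨⟨x, x', y, a1, a2, a3, a4, a5⟩, ⟨x1, x1', y1, b1, b2, b3, b4, b5⟩⟩, ⟨z, z', c1, c2, c3⟩⟩
    have b4' := (rfx n).reach b4
    have b5' := (rfx n).reach b5
    rw [LSym.image_inter, rfx_rfx, rfx_TBE] at b4'
    rw [LSym.image_inter, rfx_rfx, rfx_RE] at b5'
    simp only [rfx_ψ, sub_self, sub_zero] at b4' b5'
    have e2 : n - 2 * n = -n := by ring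
    rw [e2] at b5'
    have m1 := crossings_meet hn hn.le c2 a1 c3 a4
    have m2 := crossings_meet hn hn.le c2 (x := n - x1) (by omega) c3 b4'
    have f1 : (↑F : Set Edg) ∩ ↑(RE 0 n 0 n) ⊆ ↑F ∩ ↑U :=
      Set.inter_subset_inter_right _ (by exact_mod_cast sub4)
    have f2 : (↑F : Set Edg) ∩ ↑(RE 0 (2 * n) 0 (2 * n)) ⊆ ↑F ∩ ↑U :=
      Set.inter_subset_inter_right _ (by exact_mod_cast sub1)
    have f3 : (↑F : Set Edg) ∩ ↑(RE (-n) n 0 (2 * n)) ⊆ ↑F ∩ ↑U :=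
      Set.inter_subset_inter_right _ (by exact_mod_cast sub2)
    have r : Reach (↑F ∩ ↑(RE (-n) (2 * n) 0 (2 * n))) (-n, y1) (2 * n, y) :=
      (b5'.mono f3).trans ((m2.symm.mono f1).trans ((m1.mono f1).trans (a5.symm.mono f2)))
    exact LRc_of_reach (by omega) r rfl rfl
  have i4 : Pr (fun _ => (1/2:ℝ)) U (LRc (-n) (2 * n) 0 (2 * n)) = hh (1/2) (3 * n) (2 * n) := by
    rw [pr_LRc _ LRE_subset_RE]
    congr 1 <;> ring
  rw [i4] at i3
  have hP := mul_le_mul p1 p2 (by norm_num) (by linarith)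
  nlinarith [hP, i1, i2, i3, p3]

/-- Four-to-one rectangles. -/
theorem hh_82 {n : ℤ} (hn : 0 < n) : (1/2:ℝ)^47 ≤ hh (1/2) (8 * n) (2 * n) := by
  have h0 : (0:ℝ) ≤ 1/2 := by norm_num
  have h1 : (1/2:ℝ) ≤ 1 := by norm_num
  have g3 := hh_32 hn
  have gs := hh_square (2 * n) (by omega)
  have g4 := hh_glue h0 h1 (w1 := 3 * n) (w2 := 3 * n) (v := 2 * n) (h := 2 * n) (by omega)
    (by omega) (by omega) (by omega)
  have e4 : 3 * n + 3 * n - 2 * n = 4 * n := by ring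
  rw [e4] at g4
  have g6 := hh_glue h0 h1 (w1 := 4 * n) (w2 := 4 * n) (v := 2 * n) (h := 2 * n) (by omega)
    (by omega) (by omega) (by omega)
  have e6 : 4 * n + 4 * n - 2 * n = 6 * n := by ring
  rw [e6] at g6
  have g8 := hh_glue h0 h1 (w1 := 6 * n) (w2 := 4 * n) (v := 2 * n) (h := 2 * n) (by omega)
    (by omega) (by omega) (by omega)
  have e8 : 6 * n + 4 * n - 2 * n = 8 * n := by ring
  rw [e8] at g8
  set A3 := hh (1/2) (3 * n) (2 * n)
  set A4 := hh (1/2) (4 * n) (2 * n)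
  set A6 := hh (1/2) (6 * n) (2 * n)
  set A8 := hh (1/2) (8 * n) (2 * n)
  set As := hh (1/2) (2 * n) (2 * n)
  have b4 : (1/2:ℝ)^15 ≤ A4 := by
    have : (1/128 : ℝ) * (1/128) * (1/2) ≤ A3 * A3 * As :=
      mul_le_mul (mul_le_mul g3 g3 (by norm_num) (by linarith)) gs (by norm_num)
        (mul_nonneg (by linarith) (by linarith))
    refine le_trans (by norm_num) (this.trans g4)
  have b4' : (0:ℝ) ≤ A4 := le_trans (by positivity) b4
  have b6 : (1/2:ℝ)^31 ≤ A6 := by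
    have : (1/2 : ℝ)^15 * (1/2)^15 * (1/2) ≤ A4 * A4 * As :=
      mul_le_mul (mul_le_mul b4 b4 (by positivity) b4') gs (by norm_num)
        (mul_nonneg b4' b4')
    refine le_trans (by norm_num) (this.trans g6)
  have b6' : (0:ℝ) ≤ A6 := le_trans (by positivity) b6
  have : (1/2 : ℝ)^31 * (1/2)^15 * (1/2) ≤ A6 * A4 * As :=
    mul_le_mul (mul_le_mul b6 b4 (by positivity) b6') gs (by norm_num)
      (mul_nonneg b6' b4')
  refine le_trans (by norm_num) (this.trans g8)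

/-- The Russo-Seymour-Welsh theorem. -/
theorem rsw {n w h : ℤ} (hn : 0 < n) (hw : 0 < w) (hw8 : w ≤ 8 * n) (hh2 : 2 * n ≤ h) :
    (1/2:ℝ)^47 ≤ hh (1/2) w h :=
  (hh_82 hn).trans (hh_mono (by norm_num) (by norm_num) hw hw8 hh2)

end H974
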