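import Pool.Agent.H974R2.StabC

/-!
Lower bound for the two-point function and choice of the scale.
-/

set_option maxHeartbeats 400000

namespace H974

open Finset

/-- The origin is connected to `x`. -/
def TP (x : Vtx) (F : Finset Edg) : Prop := Reach (↑F : Set Edg) (0, 0) x

theorem tp_of_arms {F : Finset Edg} {r : ℕ} (hr : 0 < r) {x1 x2 : ℤ}
    (hx : inR (-r) r (-r) r (x1, x2)) (h1 : Arm (3 * r) F) (h2 : Circ r ((3 * r : ℕ) : ℤ) F)
    (h3 : Arm (4 * r) ((trl (-x1) (-x2)).mp F)) : TP (x1, x2) F := by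
  have hr' : (0:ℤ) < r := by exact_mod_cast hr
  obtain ⟨z, hz⟩ := circ_meet (by positivity) (by push_cast; omega) h2
  obtain ⟨v, hv, hrv⟩ := h1
  have m1 := hz (0, 0) v (by unfold inR; simp) hv.2 hrv
  obtain ⟨u, hu, hru⟩ := h3
  have hru2 : Reach (↑((trl (-x1) (-x2)).mp F) : Set Edg) (0, 0) u := hru.mono Set.inter_subset_left
  have hru3 := (trl (- -x1) (- -x2)).reach hru2
  rw [← LSym.coe_mp, trl_trl, trl_ψ] at hru3
  obtain ⟨u1, u2⟩ := u
  rw [trl_ψ, neg_neg, neg_neg, zero_add, zero_add] at hru3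
  unfold onB inR at hu
  unfold inR at hx
  simp only at hu hx
  push_cast at hu
  obtain ⟨w, k1, k2, k3⟩ := first_exit (a := -((3 * r : ℕ) : ℤ)) (b := ((3 * r : ℕ) : ℤ))
    (c := -((3 * r : ℕ) : ℤ)) (d := ((3 * r : ℕ) : ℤ))
    (by unfold inR; simp only; push_cast; omega) hru3 (by simp only; push_cast; omega)
  have m2 := hz (x1, x2) w (by unfold inR; simp only; omega) k2 k3
  exact (m1.mono Set.inter_subset_left).trans (m2.mono Set.inter_subset_left).symm

theorem pr_shift_arm (q : ℝ) {x1 x2 : ℤ} {n : ℕ} {S : Finset Edg}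
    (hS : RE (x1 - n) (x1 + n) (x2 - n) (x2 + n) ⊆ S) :
    Pr (fun _ => q) S (fun F => Arm n ((trl (-x1) (-x2)).mp F)) = arm q n := by
  rw [← LSym.pr]
  apply pr_Arm
  have h1 : boxE n = (trl (-x1) (-x2)).mp (RE (x1 - n) (x1 + n) (x2 - n) (x2 + n)) := by
    rw [trl_RE]; unfold boxE; congr 1 <;> ring
  rw [h1]
  exact LSym.mp_mono _ hS

/-- Lower bound for the two-point function. -/
theorem two_point {q : ℝ} (h0 : 0 ≤ q) (h1 : q ≤ 1) {r : ℕ} (hr : 0 < r) {x1 x2 : ℤ}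
    (hx : inR (-r) r (-r) r (x1, x2)) {S : Finset Edg} (hS : boxE (5 * r) ⊆ S) :
    arm q (3 * r) * arm q (4 * r) * (hh q ((6 * r : ℕ) : ℤ) ((2 * r : ℕ) : ℤ))^4 ≤
      Pr (fun _ => q) S (TP (x1, x2)) := by
  have ok := okq h0 h1
  have s1 : boxE (3 * r) ⊆ S := (boxE_mono (by omega)).trans hS
  have s2 : RE (x1 - ((4 * r : ℕ) : ℤ)) (x1 + ((4 * r : ℕ) : ℤ)) (x2 - ((4 * r : ℕ) : ℤ))
      (x2 + ((4 * r : ℕ) : ℤ)) ⊆ S := by
    refine Finset.Subset.trans ?_ hS
    unfold boxE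
    unfold inR at hx
    simp only at hx
    apply RE_subset <;> push_cast <;> omega
  have e1 := pr_Arm q s1
  have e2 := pr_shift_arm q s2
  have e3 := pr_Circ h0 h1 (R1 := r) (R2 := ((3 * r : ℕ) : ℤ)) (by positivity)
    (by push_cast; omega) s1
  have d1 : 2 * ((3 * r : ℕ) : ℤ) = ((6 * r : ℕ) : ℤ) := by push_cast; ring
  have d2 : ((3 * r : ℕ) : ℤ) - (r : ℤ) = ((2 * r : ℕ) : ℤ) := by push_cast; ring
  rw [d1, d2] at e3
  have i1 := Pr_harris ok (S := S) (A := Arm (3 * r))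
    (B := fun F => Arm (4 * r) ((trl (-x1) (-x2)).mp F)) (Arm_incr S _)
    (fun F G h _ hF => hF.mono (LSym.mp_mono _ h))
  have i2 := Pr_harris ok (S := S)
    (A := fun F => Arm (3 * r) F ∧ Arm (4 * r) ((trl (-x1) (-x2)).mp F))
    (B := Circ r ((3 * r : ℕ) : ℤ))
    (fun F G h _ hF => ⟨hF.1.mono h, hF.2.mono (LSym.mp_mono _ h)⟩)
    (fun F G h _ hF => hF.mono h)
  rw [e1, e2] at i1
  have hn : 0 ≤ arm q (3 * r) * arm q (4 * r) :=
    mul_nonneg (arm_nonneg h0 h1 _) (arm_nonneg h0 h1 _)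
  have hc : 0 ≤ (hh q ((6 * r : ℕ) : ℤ) ((2 * r : ℕ) : ℤ))^4 :=
    pow_nonneg (hh_nonneg h0 h1 _ _) 4
  refine (mul_le_mul i1 e3 hc (hn.trans i1)).trans (i2.trans ?_)
  apply Pr_mono ok
  rintro F _ ⟨⟨k1, k2⟩, k3⟩
  exact tp_of_arms hr hx k1 k3 k2

attribute [local irreducible] hbr boxE kap rho aK

/-- Two-point function in the near-critical window. -/
theorem two_point_win {p : ℝ} (hp : 1/4 ≤ p) (hp1 : p ≤ 1/2) {K : ℕ} (h : Win p K)
    {x1 x2 : ℤ} (hx : inR (-((2 * rho K : ℕ) : ℤ)) ((2 * rho K : ℕ) : ℤ)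
      (-((2 * rho K : ℕ) : ℤ)) ((2 * rho K : ℕ) : ℤ) (x1, x2)) :
    (aK K / 2)^2 * ((1/2 : ℝ)^48)^4 ≤
      Pr (fun _ => p) (boxE (5 * (2 * rho K))) (TP (x1, x2)) := by
  have hr5 := rho_pos K
  have h0 : 0 ≤ p := by linarith
  have h1 : p ≤ 1 := by linarith
  have t := two_point h0 h1 (r := 2 * rho K) (by omega) hx (Finset.Subset.refl _)
  have a0 := A_down hp hp1 h
  have a1 : aK K / 2 ≤ arm p (3 * (2 * rho K)) := a0.trans (arm_anti h0 h1 (by omega))
  have a2 : aK K / 2 ≤ arm p (4 * (2 * rho K)) := a0.trans (arm_anti h0 h1 (by omega))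
  have a3 := rsw_down hp hp1 h (r := 2 * rho K) (by omega) (by omega)
  have haK := aK_pos K
  refine le_trans ?_ t
  have b1 : (aK K / 2) * (aK K / 2) ≤ arm p (3 * (2 * rho K)) * arm p (4 * (2 * rho K)) :=
    mul_le_mul a1 a2 (by positivity) (arm_nonneg h0 h1 _)
  have b2 := pow_le_pow_left₀ (by positivity) a3 4
  rw [sq]
  exact mul_le_mul b1 b2 (by positivity) (by
    exact mul_nonneg (arm_nonneg h0 h1 _) (arm_nonneg h0 h1 _))

/-- The constant of the window. -/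
noncomputable def CW : ℝ := 2 * 10^7 / kap^4

theorem CW_pos : 0 < CW := by
  have := kap_pos
  unfold CW; positivity

theorem win_iff {p : ℝ} {K : ℕ} :
    Win p K ↔ CW * (((64 * rho K : ℕ) : ℝ) * aK K) * (1/2 - p) ≤ 1 := by
  unfold Win CW
  rw [mul_assoc (2 * 10^7 / kap^4)]

theorem naK_sq (K : ℕ) : ((64 * rho K : ℕ) : ℝ) ≤ 16 * (((64 * rho K : ℕ) : ℝ) * aK K)^2 := by
  have h := arm_half_sq (p := 1/2) le_rfl (by norm_num) (n := 64 * rho K)
    (by have := rho_pos K; omega)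
  have e : arm (1/2) (64 * rho K) = aK K := by unfold aK; rfl
  rw [e] at h
  have hn0 : 0 ≤ ((64 * rho K : ℕ) : ℝ) := Nat.cast_nonneg _
  have h2 := mul_le_mul_of_nonneg_left h hn0
  linarith

theorem exists_not_win {p : ℝ} (hp : p < 1/2) : ∃ K, ¬ Win p K := by
  by_contra hcon
  push Not at hcon
  have hs : 0 < 1/2 - p := by linarith
  have hC := CW_pos
  have hCs : 0 < CW * (1/2 - p) := mul_pos hC hs
  obtain ⟨K, hK⟩ := exists_nat_gt (16 * (1 / (CW * (1/2 - p)))^2)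
  have h1 := win_iff.mp (hcon K)
  have h2 : ((64 * rho K : ℕ) : ℝ) * aK K ≤ 1 / (CW * (1/2 - p)) := by
    rw [le_div_iff₀ hCs]
    linarith
  have h3 := naK_sq K
  have haK := aK_pos K
  have h4 : (((64 * rho K : ℕ) : ℝ) * aK K)^2 ≤ (1 / (CW * (1/2 - p)))^2 :=
    pow_le_pow_left₀ (by positivity) h2 2
  have h5 : (K:ℝ) ≤ ((64 * rho K : ℕ) : ℝ) := by
    have : K ≤ 64 * rho K := by
      unfold rho
      have := Nat.lt_two_pow_self (n := K)
      omega
    exact Nat.cast_le.mpr this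
  linarith

/-- The choice of the scale. -/
theorem scale_exists {p : ℝ} (hp : p < 1/2) : ¬ Win p 0 ∨
    ∃ K, Win p K ∧ 1 < 2 * CW * (((64 * rho K : ℕ) : ℝ) * aK K) * (1/2 - p) := by
  classical
  have hex := exists_not_win hp
  set K0 := Nat.find hex with hK0
  have hspec : ¬ Win p K0 := Nat.find_spec hex
  by_cases h0 : K0 = 0
  · left; rw [h0] at hspec; exact hspec
  · right
    obtain ⟨K, hK⟩ := Nat.exists_eq_succ_of_ne_zero h0
    have hmin : Win p K := by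
      by_contra hcon
      have := Nat.find_min' hex hcon
      omega
    refine ⟨K, hmin, ?_⟩
    rw [hK] at hspec
    rw [win_iff] at hspec
    push Not at hspec
    have e1 : 64 * rho (K + 1) = 2 * (64 * rho K) := by rw [rho_succ]; ring
    have h2 : aK (K + 1) ≤ aK K := by
      unfold aK
      exact arm_anti (by norm_num) (by norm_num) (by omega)
    have hs : 0 < 1/2 - p := by linarith
    have hC := CW_pos
    have e2 : ((64 * rho (K + 1) : ℕ) : ℝ) = 2 * ((64 * rho K : ℕ) : ℝ) := by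
      rw [e1]; push_cast; ring
    have hspec' : 1 < CW * (((64 * rho (K + 1) : ℕ) : ℝ) * aK (K + 1)) * (1/2 - p) := hspec
    rw [e2] at hspec'
    have hn0 : 0 ≤ ((64 * rho K : ℕ) : ℝ) := Nat.cast_nonneg _
    calc 1 < CW * (2 * ((64 * rho K : ℕ) : ℝ) * aK (K + 1)) * (1/2 - p) := hspec'
      _ ≤ CW * (2 * ((64 * rho K : ℕ) : ℝ) * aK K) * (1/2 - p) := by
          apply mul_le_mul_of_nonneg_right _ hs.le
          apply mul_le_mul_of_nonneg_left _ hC.le
          exact mul_le_mul_of_nonneg_left h2 (by positivity)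
      _ = _ := by ring

/-- The vertices of a box. -/
noncomputable def boxV (r : ℕ) : Finset Vtx := Finset.Icc (-(r:ℤ)) r ×ˢ Finset.Icc (-(r:ℤ)) r

theorem card_boxV (r : ℕ) : ((boxV r).card : ℝ) = (2 * (r:ℝ) + 1)^2 := by
  unfold boxV
  rw [Finset.card_product, Int.card_Icc]
  have e : Int.toNat ((r:ℤ) + 1 - -r) = 2 * r + 1 := by omega
  rw [e]
  push_cast
  ring

theorem mem_boxV {r : ℕ} {x : Vtx} (h : x ∈ boxV r) : inR (-r) r (-r) r (x.1, x.2) := by
  unfold boxV at h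
  rw [Finset.mem_product, Finset.mem_Icc, Finset.mem_Icc] at h
  exact h

/-- The susceptibility bound in finite volume. -/
theorem sus_fin {p : ℝ} (hp : 1/4 ≤ p) (hp1 : p < 1/2) : ¬ Win p 0 ∨
    ∃ K, (1/2 : ℝ)^204 / CW^2 / (1/2 - p)^2 ≤
      ∑ x ∈ boxV (2 * rho K), Pr (fun _ => p) (boxE (5 * (2 * rho K))) (TP x) := by
  rcases scale_exists hp1 with h | ⟨K, hK, hlow⟩
  · exact Or.inl h
  · right
    refine ⟨K, ?_⟩
    have hs : 0 < 1/2 - p := by linarith
    have hC := CW_pos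
    have haK := aK_pos K
    have h1 : ∑ _x ∈ boxV (2 * rho K), (aK K / 2)^2 * ((1/2 : ℝ)^48)^4 ≤
        ∑ x ∈ boxV (2 * rho K), Pr (fun _ => p) (boxE (5 * (2 * rho K))) (TP x) :=
      Finset.sum_le_sum (fun x hx => two_point_win hp hp1.le hK (mem_boxV hx))
    refine le_trans ?_ h1
    rw [Finset.sum_const, nsmul_eq_mul, card_boxV, div_div, div_le_iff₀ (by positivity)]
    set N := ((64 * rho K : ℕ) : ℝ) with hN
    have eN : ((2 * rho K : ℕ) : ℝ) = N / 32 := by rw [hN]; push_cast; ring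
    rw [eN]
    have hN0 : 0 ≤ N := Nat.cast_nonneg _
    have h2 : 1 ≤ (2 * CW * (N * aK K) * (1/2 - p))^2 := one_le_pow₀ hlow.le
    have h3 : N^2 / 256 ≤ (2 * (N / 32) + 1)^2 := by nlinarith
    calc (1/2 : ℝ)^204 ≤ (1/2 : ℝ)^204 * (2 * CW * (N * aK K) * (1/2 - p))^2 :=
          le_mul_of_one_le_right (by positivity) h2
      _ = (N^2 / 256) * ((aK K / 2)^2 * ((1/2 : ℝ)^48)^4) * (CW^2 * (1/2 - p)^2) := by ring
      _ ≤ (2 * (N / 32) + 1)^2 * ((aK K / 2)^2 * ((1/2 : ℝ)^48)^4) * (CW^2 * (1/2 - p)^2) := by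
          apply mul_le_mul_of_nonneg_right _ (by positivity)
          exact mul_le_mul_of_nonneg_right h3 (by positivity)

end H974
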