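import Pool.Agent.H974R2.Infinite
import Pool.Agent.H974R2.Sus

/-!
The susceptibility in infinite volume.
-/

set_option maxHeartbeats 400000

namespace H974

open Finset MeasureTheory

/-- The mean cluster size: the expected number of vertices in the open cluster of the origin. -/
noncomputable def sigma (p : unitInterval) : ENNReal :=
  ∫⁻ ω, ((cluster0 ω).encard : ENNReal) ∂(bondLaw p)

theorem sum_ind_le (S : Finset Edg) (B : Finset Vtx) (ω : sqLattice.edgeSet → Bool) :
    ∑ x ∈ B, Set.indicator {ω | TP x (FF S ω)} (fun _ => (1 : ENNReal)) ω ≤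
      ((cluster0 ω).encard : ENNReal) := by
  classical
  have h1 : ∑ x ∈ B, Set.indicator {ω | TP x (FF S ω)} (fun _ => (1 : ENNReal)) ω =
      ((B.filter (fun x => TP x (FF S ω))).card : ENNReal) := by
    rw [Finset.card_filter]
    push_cast
    apply Finset.sum_congr rfl
    intro x _
    rw [Set.indicator_apply]
    rfl
  rw [h1]
  have h2 : (↑(B.filter (fun x => TP x (FF S ω))) : Set Vtx) ⊆ cluster0 ω := by
    intro x hx
    rw [Finset.mem_coe, Finset.mem_filter] at hx
    have h3 : Reach (↑(FF S ω) : Set Edg) (0, 0) x := hx.2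
    rw [FF_coe] at h3
    exact (open_reach ω _ _).mpr (h3.mono Set.inter_subset_left)
  have h4 := Set.encard_le_encard h2
  rw [Set.encard_coe_eq_coe_finsetCard] at h4
  have h5 : (((B.filter (fun x => TP x (FF S ω))).card : ℕ∞) : ENNReal) ≤
      ((cluster0 ω).encard : ENNReal) := ENat.toENNReal_le.mpr h4
  simpa using h5

theorem sigma_ge (p : unitInterval) (S : Finset Edg) (B : Finset Vtx) :
    ENNReal.ofReal (∑ x ∈ B, Pr (fun _ => (p:ℝ)) S (TP x)) ≤ sigma p := by
  have h1 : ENNReal.ofReal (∑ x ∈ B, Pr (fun _ => (p:ℝ)) S (TP x)) =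
      ∫⁻ ω, ∑ x ∈ B, Set.indicator {ω | TP x (FF S ω)} (fun _ => (1 : ENNReal)) ω
        ∂(bondLaw p) := by
    rw [lintegral_finset_sum]
    · rw [ENNReal.ofReal_sum_of_nonneg (fun x _ => Pr_nonneg (okq p.2.1 p.2.2) _ _)]
      apply Finset.sum_congr rfl
      intro x _
      have h2 : ∫⁻ ω, Set.indicator {ω | TP x (FF S ω)} (fun _ => (1 : ENNReal)) ω ∂(bondLaw p) =
          (bondLaw p) {ω | TP x (FF S ω)} := lintegral_indicator_one (meas_event S (TP x))
      rw [h2, ← law_event p S (TP x), measureReal_def, ENNReal.ofReal_toReal (measure_ne_top _ _)]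
    · intro x _
      exact measurable_one.indicator (meas_event S (TP x))
  rw [h1]
  unfold sigma
  exact lintegral_mono (fun ω => sum_ind_le S B ω)

theorem sigma_ge_one (p : unitInterval) : 1 ≤ sigma p := by
  have h := sigma_ge p ∅ {((0, 0) : Vtx)}
  rw [Finset.sum_singleton] at h
  have h2 : Pr (fun _ => (p:ℝ)) ∅ (TP (0, 0)) = 1 := Pr_true _ (fun F _ => Reach.refl _ _)
  rw [h2, ENNReal.ofReal_one] at h
  exact h

/-- The mean cluster size diverges at least quadratically. -/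
theorem sigma_half : ∃ c : ℝ, 0 < c ∧ ∀ p : unitInterval, (p:ℝ) < 1/2 →
    ENNReal.ofReal (c / (1/2 - (p:ℝ))^2) ≤ sigma p := by
  have hC := CW_pos
  have hk := kap_pos
  have hk1 := kap_le
  refine ⟨(1/2 : ℝ)^204 / CW^2, by positivity, fun p hp => ?_⟩
  have hs : 0 < 1/2 - (p:ℝ) := by linarith
  have hp0 : 0 ≤ (p:ℝ) := p.2.1
  have hCW1 : 1 ≤ CW := by
    unfold CW
    rw [le_div_iff₀ (by positivity), one_mul]
    have : kap^4 ≤ 1 := pow_le_one₀ hk.le hk1
    linarith
  have key : ∀ s : ℝ, 0 < s → 1 ≤ 320 * CW * s → ENNReal.ofReal ((1/2 : ℝ)^204 / CW^2 / s^2) ≤ 1 := by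
    intro s hs h
    rw [← ENNReal.ofReal_one]
    apply ENNReal.ofReal_le_ofReal
    rw [div_div, div_le_one (by positivity)]
    have h2 : 1 ≤ (320 * CW * s)^2 := one_le_pow₀ h
    have h3 : (1/2 : ℝ)^204 * 102400 ≤ 1 := by norm_num
    have h4 : 0 ≤ CW^2 * s^2 := by positivity
    calc (1/2 : ℝ)^204 ≤ (1/2 : ℝ)^204 * (320 * CW * s)^2 := le_mul_of_one_le_right (by positivity) h2
      _ = (1/2 : ℝ)^204 * 102400 * (CW^2 * s^2) := by ring
      _ ≤ 1 * (CW^2 * s^2) := mul_le_mul_of_nonneg_right h3 h4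
      _ = _ := one_mul _
  by_cases h4 : 1/4 ≤ (p:ℝ)
  · rcases sus_fin h4 hp with h | ⟨K, hK⟩
    · refine (key _ hs ?_).trans (sigma_ge_one p)
      rw [win_iff] at h
      push Not at h
      have ha : aK 0 ≤ 1 := arm_le_one (by norm_num) (by norm_num) _
      have haK := aK_pos 0
      have hn : ((64 * rho 0 : ℕ) : ℝ) = 320 := by unfold rho; norm_num
      rw [hn] at h
      have h5 : CW * (320 * aK 0) * (1/2 - (p:ℝ)) ≤ CW * (320 * 1) * (1/2 - (p:ℝ)) := by
        apply mul_le_mul_of_nonneg_right _ hs.le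
        apply mul_le_mul_of_nonneg_left _ hC.le
        linarith
      linarith
    · refine le_trans (ENNReal.ofReal_le_ofReal hK) (sigma_ge p _ _)
  · refine (key _ hs ?_).trans (sigma_ge_one p)
    push Not at h4
    nlinarith

theorem sigma_main : ∃ c : ℝ, 0 < c ∧ ∀ p : unitInterval, p < pcrit →
    ENNReal.ofReal (c / ((pcrit:ℝ) - (p:ℝ))^2) ≤ sigma p := by
  obtain ⟨c, hc, h⟩ := sigma_half
  refine ⟨c, hc, fun p hp => ?_⟩
  have hp' : (p : ℝ) < pcrit := hp
  rw [pcrit_eq] at hp' ⊢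
  exact h p hp'

end H974
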