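import Pool.Agent.H974R2.Circ

/-!
At the self-dual point the one-arm probability tends to zero.
-/

set_option maxHeartbeats 400000

namespace H974

open Finset

/-- Harris' inequality for two decreasing events. -/
theorem Pr_harris_dd {p : Edg → ℝ} (hp : Ok p) {S : Finset Edg} {A B : Finset Edg → Prop}
    (hA : IncrE S A) (hB : IncrE S B) :
    (1 - Pr p S A) * (1 - Pr p S B) ≤ Pr p S (fun F => ¬ A F ∧ ¬ B F) := by
  have h := Pr_harris hp hA hB
  have h2 : Pr p S (fun F => ¬ A F ∧ ¬ B F) =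
      1 - Pr p S A - Pr p S B + Pr p S (fun F => A F ∧ B F) := by
    unfold Pr
    rw [← Ex_const p S 1, ← Ex_sub, ← Ex_sub, ← Ex_add]
    apply Ex_congr
    intro F _
    rw [ind_and, ind_and, ind_not, ind_not]
    ring
  rw [h2]
  nlinarith

/-- No crossing of the annulus. -/
def Blk (R1 R2 : ℤ) (F : Finset Edg) : Prop :=
  ¬ (LRc R1 R2 (-R2) R2 F ∨ LRc (-R2) (-R1) (-R2) R2 F) ∧
    ¬ (TBc (-R2) R2 R1 R2 F ∨ TBc (-R2) R2 (-R2) (-R1) F)

theorem not_blk_of_arm {F : Finset Edg} {R1 R2 : ℤ} (h1 : 0 ≤ R1) (h2 : R1 < R2) {v : Vtx}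
    (h : Reach (↑F : Set Edg) (0, 0) v) (hv : v.1 ≤ -R2 ∨ R2 ≤ v.1 ∨ v.2 ≤ -R2 ∨ R2 ≤ v.2) :
    ¬ Blk R1 R2 F := by
  obtain ⟨w, k1, k2, k3⟩ := first_exit (a := -R2) (b := R2) (c := -R2) (d := R2)
    (by unfold inR; simp only; omega) h hv
  rintro ⟨hb1, hb2⟩
  rcases k2 with k2 | k2 | k2 | k2
  · apply hb1
    right
    obtain ⟨y1, y2, m1, m2, m3, -⟩ := sub_LR (a := -R2) (b := -R1) (c := -R2) (d := R2) (by omega)
      (by rintro x y ⟨-, h⟩ _ _; simp only [mem_coe, mem_RE_true] at h; omega)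
      (by rintro x y ⟨-, h⟩ _ _; simp only [mem_coe, mem_RE_false] at h; omega)
      k3.symm k2.le (show -R1 ≤ (0:ℤ) by omega)
    exact ⟨y1, y2, m1, m2, m3.mono (by rintro e ⟨⟨h4, -⟩, h5⟩; exact ⟨h4, h5⟩)⟩
  · apply hb1
    left
    obtain ⟨y1, y2, m1, m2, m3, -⟩ := sub_LR (a := R1) (b := R2) (c := -R2) (d := R2) (by omega)
      (by rintro x y ⟨-, h⟩ _ _; simp only [mem_coe, mem_RE_true] at h; omega)
      (by rintro x y ⟨-, h⟩ _ _; simp only [mem_coe, mem_RE_false] at h; omega)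
      k3 (show (0:ℤ) ≤ R1 by omega) k2.ge
    exact ⟨y1, y2, m1, m2, m3.mono (by rintro e ⟨⟨h4, -⟩, h5⟩; exact ⟨h4, h5⟩)⟩
  · apply hb2
    right
    obtain ⟨y1, y2, m1, m2, m3, -⟩ := sub_TB (a := -R2) (b := R2) (c := -R2) (d := -R1) (by omega)
      (by rintro x y ⟨-, h⟩ _ _; simp only [mem_coe, mem_RE_false] at h; omega)
      (by rintro x y ⟨-, h⟩ _ _; simp only [mem_coe, mem_RE_true] at h; omega)
      k3.symm k2.le (show -R1 ≤ (0:ℤ) by omega)
    exact ⟨y1, y2, m1, m2, m3.mono (by rintro e ⟨⟨h4, -⟩, h5⟩; exact ⟨h4, h5⟩)⟩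
  · apply hb2
    left
    obtain ⟨y1, y2, m1, m2, m3, -⟩ := sub_TB (a := -R2) (b := R2) (c := R1) (d := R2) (by omega)
      (by rintro x y ⟨-, h⟩ _ _; simp only [mem_coe, mem_RE_false] at h; omega)
      (by rintro x y ⟨-, h⟩ _ _; simp only [mem_coe, mem_RE_true] at h; omega)
      k3 (show (0:ℤ) ≤ R1 by omega) k2.ge
    exact ⟨y1, y2, m1, m2, m3.mono (by rintro e ⟨⟨h4, -⟩, h5⟩; exact ⟨h4, h5⟩)⟩

/-- The edges between two boxes. -/
noncomputable def annE (n m : ℕ) : Finset Edg := boxE m \ boxE n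

theorem ann_sub {n m : ℕ} (hnm : n < m) :
    LRE n m (-m) m ⊆ annE n m ∧ LRE (-m) (-n) (-m) m ⊆ annE n m ∧
      TBE (-m) m n m ⊆ annE n m ∧ TBE (-m) m (-m) (-n) ⊆ annE n m := by
  have h : (n:ℤ) < m := by exact_mod_cast hnm
  have h0 : (0:ℤ) ≤ n := by positivity
  unfold annE boxE
  refine ⟨?_, ?_, ?_, ?_⟩
  · rintro ⟨x, y, _ | _⟩ h8
    · simp only [mem_LRE_false, Finset.mem_sdiff, mem_RE_false] at h8 ⊢; omega
    · simp only [mem_LRE_true, Finset.mem_sdiff, mem_RE_true] at h8 ⊢; omega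
  · rintro ⟨x, y, _ | _⟩ h8
    · simp only [mem_LRE_false, Finset.mem_sdiff, mem_RE_false] at h8 ⊢; omega
    · simp only [mem_LRE_true, Finset.mem_sdiff, mem_RE_true] at h8 ⊢; omega
  · rintro ⟨x, y, _ | _⟩ h8
    · simp only [mem_TBE_false, Finset.mem_sdiff, mem_RE_false] at h8 ⊢; omega
    · simp only [mem_TBE_true, Finset.mem_sdiff, mem_RE_true] at h8 ⊢; omega
  · rintro ⟨x, y, _ | _⟩ h8
    · simp only [mem_TBE_false, Finset.mem_sdiff, mem_RE_false] at h8 ⊢; omega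
    · simp only [mem_TBE_true, Finset.mem_sdiff, mem_RE_true] at h8 ⊢; omega

theorem Blk_local {n m : ℕ} (hnm : n < m) {S : Finset Edg} (hS : annE n m ⊆ S)
    (F : Finset Edg) : Blk n m F ↔ Blk n m (F ∩ S) := by
  obtain ⟨h1, h2, h3, h4⟩ := ann_sub hnm
  unfold Blk
  rw [LRc_local (F := F) (h1.trans hS), LRc_local (F := F) (h2.trans hS),
    TBc_local (F := F) (h3.trans hS), TBc_local (F := F) (h4.trans hS)]

theorem pr_Blk {m : ℕ} (hm : 5 ≤ m) {S : Finset Edg} (hS : annE m (3 * m) ⊆ S) :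
    (1/2 : ℝ)^188 ≤ Pr (fun _ => (1/2 : ℝ)) S (Blk m (3 * m : ℕ)) := by
  have hm' : (5:ℤ) ≤ m := by exact_mod_cast hm
  have h0 : (0:ℝ) ≤ 1/2 := by norm_num
  have h1 : (1/2:ℝ) ≤ 1 := by norm_num
  have ok := okq h0 h1
  obtain ⟨s1, s2, s3, s4⟩ := ann_sub (n := m) (m := 3 * m) (by omega)
  set R2 : ℤ := ((3 * m : ℕ) : ℤ) with hR2
  have hR2' : R2 = 3 * m := by rw [hR2]; push_cast; ring
  have e1 := pr_LRc (1/2) (s1.trans hS)
  have e2 := pr_LRc (1/2) (s2.trans hS)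
  have e3 := pr_TBc (1/2) (s3.trans hS)
  have e4 := pr_TBc (1/2) (s4.trans hS)
  have d1 : R2 - m = 2 * m := by omega
  have d2 : R2 - -R2 = 6 * m := by omega
  have d3 : -(m:ℤ) - -R2 = 2 * m := by omega
  rw [d1, d2] at e1
  rw [d3, d2] at e2
  rw [d1, d2] at e3
  rw [d3, d2] at e4
  have hdual := hh_dual (q := 1/2) (w := 2 * m) (h := 6 * m) (by omega) (by omega)
  have hrsw : (1/2:ℝ)^47 ≤ hh (1/2) (6 * m + 1) (2 * m - 1) :=
    rsw (n := m - 1) (by omega) (by omega) (by omega) (by omega)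
  have e5 : (1:ℝ) - 1/2 = 1/2 := by norm_num
  rw [e5] at hdual
  have hval : (1/2:ℝ)^47 ≤ 1 - hh (1/2) (2 * m) (6 * m) := by linarith
  have i1 := Pr_harris_dd ok (LRc_incr S m R2 (-R2) R2) (LRc_incr S (-R2) (-m) (-R2) R2)
  have i2 := Pr_harris_dd ok (TBc_incr S (-R2) R2 m R2) (TBc_incr S (-R2) R2 (-R2) (-m))
  rw [e1, e2] at i1
  rw [e3, e4] at i2
  have c1 : IncrE S (fun F => LRc m R2 (-R2) R2 F ∨ LRc (-R2) (-m) (-R2) R2 F) :=
    fun F G hFG _ hF => hF.imp (LRc.mono hFG) (LRc.mono hFG)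
  have c2 : IncrE S (fun F => TBc (-R2) R2 m R2 F ∨ TBc (-R2) R2 (-R2) (-m) F) :=
    fun F G hFG _ hF => hF.imp (TBc.mono hFG) (TBc.mono hFG)
  have i3 := Pr_harris_dd ok c1 c2
  rw [← Pr_not, ← Pr_not] at i3
  have j1 : Pr (fun _ => (1/2:ℝ)) S (fun F => ¬ (LRc m R2 (-R2) R2 F ∨
      LRc (-R2) (-m) (-R2) R2 F)) = Pr (fun _ => (1/2:ℝ)) S (fun F => ¬ LRc m R2 (-R2) R2 F ∧
      ¬ LRc (-R2) (-m) (-R2) R2 F) := Pr_congr (fun F _ => not_or)
  have j2 : Pr (fun _ => (1/2:ℝ)) S (fun F => ¬ (TBc (-R2) R2 m R2 F ∨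
      TBc (-R2) R2 (-R2) (-m) F)) = Pr (fun _ => (1/2:ℝ)) S (fun F => ¬ TBc (-R2) R2 m R2 F ∧
      ¬ TBc (-R2) R2 (-R2) (-m) F) := Pr_congr (fun F _ => not_or)
  rw [j1, j2] at i3
  set z : ℝ := (1/2:ℝ)^47 with hz
  have hz0 : 0 < z := by rw [hz]; positivity
  have k1 : z * z ≤ (1 - hh (1/2) (2 * m) (6 * m)) * (1 - hh (1/2) (2 * m) (6 * m)) :=
    mul_le_mul hval hval hz0.le (hz0.le.trans hval)
  have k2 : (z * z) * (z * z) ≤ _ := mul_le_mul (k1.trans i1) (k1.trans i2) (by positivity)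
    ((by positivity : 0 ≤ z * z).trans (k1.trans i1))
  calc (1/2:ℝ)^188 = (z * z) * (z * z) := by rw [hz]; norm_num
    _ ≤ _ := k2
    _ ≤ _ := i3

/-- The radii. -/
def RR (k : ℕ) : ℕ := 9 * 3^k

theorem RR_succ (k : ℕ) : RR (k + 1) = 3 * RR k := by unfold RR; ring

theorem RR_ge (k : ℕ) : 9 ≤ RR k := Nat.le_mul_of_pos_right _ (by positivity)

theorem RR_mono {j k : ℕ} (h : j ≤ k) : RR j ≤ RR k := by
  unfold RR
  exact Nat.mul_le_mul_left _ (Nat.pow_le_pow_right (by norm_num) h)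

theorem pr_annuli (K : ℕ) {U : Finset Edg} (hU : boxE (RR K) ⊆ U) :
    Pr (fun _ => (1/2 : ℝ)) U (fun F => ∀ k < K, ¬ Blk (RR k) (RR (k + 1)) F) ≤
      (1 - (1/2 : ℝ)^188)^K := by
  have ok := okq (q := 1/2) (by norm_num) (by norm_num)
  induction K with
  | zero =>
    simp only [pow_zero]
    exact Pr_le_one ok _ _
  | succ K ih =>
    have hlt : RR K < RR (K + 1) := by rw [RR_succ]; have := RR_ge K; omega
    have hU' : boxE (RR K) ⊆ U := (boxE_mono hlt.le).trans hU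
    have i1 := ih hU'
    have hann : annE (RR K) (RR (K + 1)) ⊆ U := Finset.sdiff_subset.trans hU
    have e1 : Pr (fun _ => (1/2 : ℝ)) U (fun F => ∀ k < K + 1, ¬ Blk (RR k) (RR (k + 1)) F) =
        Pr (fun _ => (1/2 : ℝ)) U (fun F => (∀ k < K, ¬ Blk (RR k) (RR (k + 1)) F) ∧
          ¬ Blk (RR K) (RR (K + 1)) F) := by
      apply Pr_congr
      intro F _
      constructor
      · intro h
        exact ⟨fun k hk => h k (by omega), h K (by omega)⟩
      · rintro ⟨h, h'⟩ k hk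
        rcases Nat.lt_or_ge k K with hlt | hge
        · exact h k hlt
        · have : k = K := by omega
          rw [this]; exact h'
    have i2 := Pr_indep (p := fun _ => (1/2:ℝ)) (A := fun F => ∀ k < K, ¬ Blk (RR k) (RR (k + 1)) F)
      (B := fun F => ¬ Blk (RR K) (RR (K + 1)) F) hU' hann (Finset.disjoint_sdiff)
      (fun F _ => forall_congr' fun k => forall_congr' fun hk => not_congr
        (Blk_local (by rw [RR_succ]; have := RR_ge k; omega)
          (Finset.sdiff_subset.trans (boxE_mono (RR_mono (by omega)))) F))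
      (fun F _ => not_congr (Blk_local hlt (Finset.Subset.refl _) F))
    rw [e1, i2, Pr_not, pow_succ]
    have hb : (1/2 : ℝ)^188 ≤ Pr (fun _ => (1/2 : ℝ)) U (Blk (RR K) (RR (K + 1))) := by
      rw [RR_succ] at hann ⊢
      exact pr_Blk (by have := RR_ge K; omega) hann
    apply mul_le_mul i1 (by linarith)
    · have := Pr_le_one ok U (Blk (RR K) (RR (K + 1)))
      linarith
    · apply pow_nonneg
      have : (1/2 : ℝ)^188 ≤ 1 := pow_le_one₀ (by norm_num) (by norm_num)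
      linarith

/-- Decay of the one-arm probability at the self-dual point. -/
theorem arm_decay (K : ℕ) : arm (1/2) (RR K) ≤ (1 - (1/2 : ℝ)^188)^K := by
  refine le_trans ?_ (pr_annuli K (Finset.Subset.refl (boxE (RR K))))
  unfold arm
  apply Pr_mono (okq (by norm_num) (by norm_num))
  rintro F _ ⟨v, hv, hr⟩ k hk
  have hlt : RR k < RR (k + 1) := by rw [RR_succ]; have := RR_ge k; omega
  have hlt' : (RR k : ℤ) < RR (k + 1) := by exact_mod_cast hlt
  have hle : RR (k + 1) ≤ RR K := RR_mono (by omega)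
  have hle' : (RR (k + 1) : ℤ) ≤ RR K := by exact_mod_cast hle
  exact not_blk_of_arm (by positivity) hlt' (hr.mono Set.inter_subset_left)
    (by unfold onB at hv; omega)

end H974
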