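import Pool.Agent.H974R2.Chain

/-!
The uniform lower bound for the one-arm probabilities above the self-dual point.
-/

set_option maxHeartbeats 400000

namespace H974

open Finset

/-- The chain of crossings carries an arm to large scales. -/
theorem arm_of_chain {N : ℕ} (hN : 2 ≤ N) {F : Finset Edg} (J : ℕ) (hA : Arm (2 * N) F)
    (hC : Circ N (2 * N : ℕ) F) (h : ∀ j ≤ J, Step N j F) : Arm (2 * (2^J * N)) F := by
  have hN' : (2:ℤ) ≤ N := by exact_mod_cast hN
  obtain ⟨z, hz⟩ := circ_meet (R1 := (N:ℤ)) (R2 := ((2 * N : ℕ) : ℤ)) (by omega)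
    (by push_cast; omega) hC
  obtain ⟨a, v, hv, hza, hst⟩ := chain_conn hN (F := F) (z := z) hz J h
  obtain ⟨w, hw, hr⟩ := hA
  have hle : N ≤ 2^J * N := Nat.le_mul_of_pos_left _ (by positivity)
  have m1 := hz (0, 0) w (by unfold inR; simp only; omega) hw.2 hr
  have hbox : boxE (2 * N) ⊆ boxE (2 * (2^J * N)) := boxE_mono (by omega)
  have hsub : (↑F : Set Edg) ∩ ↑(boxE (2 * N)) ⊆ ↑F ∩ ↑(boxE (2 * (2^J * N))) :=
    Set.inter_subset_inter_right _ (by exact_mod_cast hbox)
  have m1' : Reach (↑F ∩ ↑(boxE (2 * (2^J * N)))) (0, 0) z := m1.mono hsub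
  set M : ℕ := 2^J * N with hM
  have hav : Reach (↑F ∩ ↑(boxE (2 * M))) a v := by
    by_cases hev : Even J
    · rw [if_pos hev] at hst
      refine hst.2.2.mono (Set.inter_subset_inter_right _ ?_)
      have : RE 0 (2 * (M:ℤ)) 0 ((M:ℤ) - 1) ⊆ boxE (2 * M) := by
        unfold boxE
        push_cast
        exact RE_subset (by omega) (by omega) (by omega) (by omega)
      exact_mod_cast this
    · rw [if_neg hev] at hst
      refine hst.2.2.mono (Set.inter_subset_inter_right _ ?_)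
      have : RE 0 ((M:ℤ) - 1) 0 (2 * (M:ℤ)) ⊆ boxE (2 * M) := by
        unfold boxE
        push_cast
        exact RE_subset (by omega) (by omega) (by omega) (by omega)
      exact_mod_cast this
  refine ⟨v, ?_, m1'.trans (hza.trans hav)⟩
  unfold FarPt inR at hv
  unfold onB inR
  push_cast
  rw [← hM] at hv
  omega

theorem pr_circ_ge {p : ℝ} (h0 : 0 ≤ p) (h1 : p ≤ 1) {N : ℕ} (hN : 2 ≤ N) {S : Finset Edg}
    (hS : boxE (2 * N) ⊆ S) :
    1 - 20 * eps p N ≤ Pr (fun _ => p) S (Circ N (2 * N : ℕ)) := by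
  have hN' : (2:ℤ) ≤ N := by exact_mod_cast hN
  have hlong := long_cross h0 h1 hN
  have hmono : hh p (4 * N) (N - 1) ≤ hh p (4 * N) N := hh_mono h0 h1 (by omega) le_rfl (by omega)
  set R2 : ℤ := ((2 * N : ℕ) : ℤ) with hR2
  have hR2' : R2 = 2 * N := by rw [hR2]; push_cast; ring
  have ok := okq h0 h1
  have hS' : RE (-R2) R2 (-R2) R2 ⊆ S := hS
  have s1 : LRE (-R2) R2 N R2 ⊆ S :=
    LRE_subset_RE.trans ((RE_subset le_rfl le_rfl (by omega) le_rfl).trans hS')
  have s2 : LRE (-R2) R2 (-R2) (-N) ⊆ S :=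
    LRE_subset_RE.trans ((RE_subset le_rfl le_rfl le_rfl (by omega)).trans hS')
  have s3 : TBE N R2 (-R2) R2 ⊆ S :=
    TBE_subset_RE.trans ((RE_subset (by omega) le_rfl le_rfl le_rfl).trans hS')
  have s4 : TBE (-R2) (-N) (-R2) R2 ⊆ S :=
    TBE_subset_RE.trans ((RE_subset le_rfl (by omega) le_rfl le_rfl).trans hS')
  have e1 := pr_LRc p s1
  have e2 := pr_LRc p s2
  have e3 := pr_TBc p s3
  have e4 := pr_TBc p s4
  have d1 : R2 - -R2 = 4 * N := by omega
  have d2 : R2 - N = N := by omega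
  have d3 : -(N:ℤ) - -R2 = N := by omega
  rw [d1, d2] at e1
  rw [d1, d3] at e2
  rw [d1, d2] at e3
  rw [d1, d3] at e4
  have i1 := Pr_and_ge ok S (LRc (-R2) R2 N R2) (LRc (-R2) R2 (-R2) (-N))
  have i2 := Pr_and_ge ok S (TBc N R2 (-R2) R2) (TBc (-R2) (-N) (-R2) R2)
  have i3 := Pr_and_ge ok S (fun F => LRc (-R2) R2 N R2 F ∧ LRc (-R2) R2 (-R2) (-N) F)
    (fun F => TBc N R2 (-R2) R2 F ∧ TBc (-R2) (-N) (-R2) R2 F)
  have i4 : Pr (fun _ => p) S (fun F => (LRc (-R2) R2 N R2 F ∧ LRc (-R2) R2 (-R2) (-N) F) ∧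
      (TBc N R2 (-R2) R2 F ∧ TBc (-R2) (-N) (-R2) R2 F)) = Pr (fun _ => p) S (Circ N R2) := rfl
  linarith

theorem pr_step {p : ℝ} {N j : ℕ} {S : Finset Edg}
    (hS : boxE (2 * (2^j * N)) ⊆ S) :
    Pr (fun _ => p) S (Step N j) = 1 - eps p (2^j * N) := by
  set M : ℕ := 2^j * N with hM
  have hM0 : (0:ℤ) ≤ M := by positivity
  by_cases hev : Even j
  · have : Step N j = LRc 0 (2 * (M:ℤ)) 0 ((M:ℤ) - 1) := by
      funext F
      unfold Step
      rw [if_pos hev]
    rw [this, pr_LRc p]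
    · unfold eps
      rw [sub_zero, sub_zero]; ring
    · refine LRE_subset_RE.trans (Finset.Subset.trans ?_ hS)
      unfold boxE
      push_cast
      exact RE_subset (by omega) (by omega) (by omega) (by omega)
  · have : Step N j = TBc 0 ((M:ℤ) - 1) 0 (2 * (M:ℤ)) := by
      funext F
      unfold Step
      rw [if_neg hev]
    rw [this, pr_TBc p]
    · unfold eps
      rw [sub_zero, sub_zero]; ring
    · refine TBE_subset_RE.trans (Finset.Subset.trans ?_ hS)
      unfold boxE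
      push_cast
      exact RE_subset (by omega) (by omega) (by omega) (by omega)

theorem pr_steps {p : ℝ} (h0 : 0 ≤ p) (h1 : p ≤ 1) {N : ℕ} (hN : 2 ≤ N)
    (he : eps p N ≤ 1/100) (J : ℕ) {S : Finset Edg} (hS : boxE (2 * (2^J * N)) ⊆ S) :
    1 - (1/75) * (1 - (1/4 : ℝ)^(J + 1)) ≤ Pr (fun _ => p) S (fun F => ∀ j ≤ J, Step N j F) := by
  have ok := okq h0 h1
  induction J with
  | zero =>
    have e : Pr (fun _ => p) S (fun F => ∀ j ≤ 0, Step N j F) = Pr (fun _ => p) S (Step N 0) := by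
      apply Pr_congr
      intro F _
      constructor
      · intro h; exact h 0 le_rfl
      · intro h j hj
        have : j = 0 := by omega
        rw [this]; exact h
    rw [e, pr_step hS]
    have := eps_pow h0 h1 hN he 0
    norm_num at this ⊢
    linarith
  | succ J ih =>
    have hle : 2 * (2^J * N) ≤ 2 * (2^(J+1) * N) := by
      rw [pow_succ]
      nlinarith [Nat.zero_le (2^J * N)]
    have hS' : boxE (2 * (2^J * N)) ⊆ S := (boxE_mono hle).trans hS
    have i1 := ih hS'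
    have i2 := Pr_and_ge ok S (fun F => ∀ j ≤ J, Step N j F) (Step N (J + 1))
    have i3 : Pr (fun _ => p) S (fun F => (∀ j ≤ J, Step N j F) ∧ Step N (J + 1) F) =
        Pr (fun _ => p) S (fun F => ∀ j ≤ J + 1, Step N j F) := by
      apply Pr_congr
      intro F _
      constructor
      · rintro ⟨h, h'⟩ j hj
        rcases Nat.lt_or_ge j (J + 1) with hlt | hge
        · exact h j (by omega)
        · have : j = J + 1 := by omega
          rw [this]; exact h'
      · intro h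
        exact ⟨fun j hj => h j (by omega), h _ le_rfl⟩
    rw [pr_step hS, i3] at i2
    have h3 := eps_pow h0 h1 hN he (J + 1)
    rw [pow_succ (1/4:ℝ) (J + 1)] at h3 ⊢
    linarith

/-- If the failure probability is small at some scale, the one-arm probabilities are
comparable beyond this scale. -/
theorem arm_chain {p : ℝ} (h0 : 0 ≤ p) (h1 : p ≤ 1) {N : ℕ} (hN : 2 ≤ N)
    (he : eps p N ≤ 1/100) (m : ℕ) : 1/2 * arm p (2 * N) ≤ arm p m := by
  have ok := okq h0 h1
  have hm : m ≤ 2 * (2^m * N) := by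
    have h2 : m < 2^m := Nat.lt_two_pow_self
    nlinarith [Nat.zero_le (2^m * N)]
  have hle : N ≤ 2^m * N := Nat.le_mul_of_pos_left _ (by positivity)
  set S := boxE (2 * (2^m * N)) with hS
  have hbox : boxE (2 * N) ⊆ S := boxE_mono (by omega)
  have e1 := pr_Arm p hbox
  have e2 := pr_circ_ge h0 h1 hN hbox
  have e3 := pr_steps h0 h1 hN he m (Finset.Subset.refl S)
  have i1 := Pr_and_ge ok S (Circ N (2 * N : ℕ)) (fun F => ∀ j ≤ m, Step N j F)
  have i2 := Pr_harris ok (Arm_incr S (2 * N))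
    (B := fun F => Circ N (2 * N : ℕ) F ∧ ∀ j ≤ m, Step N j F)
    (fun F G h _ hF => ⟨hF.1.mono h, fun j hj => (hF.2 j hj).mono h⟩)
  have i3 : Pr (fun _ => p) S (fun F => Arm (2 * N) F ∧
      (Circ N (2 * N : ℕ) F ∧ ∀ j ≤ m, Step N j F)) ≤ arm p (2 * (2^m * N)) := by
    unfold arm
    apply Pr_mono ok
    rintro F _ ⟨k1, k2, k3⟩
    exact arm_of_chain hN m k1 k2 k3
  rw [e1] at i2
  have h5 : 0 ≤ (1/4:ℝ)^(m+1) := by positivity
  have hpr : 1/2 ≤ Pr (fun _ => p) S (fun F => Circ N (2 * N : ℕ) F ∧ ∀ j ≤ m, Step N j F) := by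
    linarith
  have ha := arm_nonneg h0 h1 (2 * N)
  have hfin := arm_anti h0 h1 hm
  calc 1/2 * arm p (2 * N) = arm p (2 * N) * (1/2) := by ring
    _ ≤ _ := mul_le_mul_of_nonneg_left hpr ha
    _ ≤ _ := i2
    _ ≤ _ := i3
    _ ≤ _ := hfin

/-- Exponential bound for the failure probability. -/
theorem eps_exp {p : ℝ} (hp : 1/2 ≤ p) (hp1 : p ≤ 1) {N : ℕ} (hN : 3 ≤ N) :
    eps p N ≤ 2^47 * Real.exp (-((N:ℝ)^2 * (p - 1/2) / (4 * (SS p N)^2))) := by
  have h0 : 0 ≤ p := by linarith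
  have hN' : (3:ℤ) ≤ N := by exact_mod_cast hN
  have hc : (1/2:ℝ)^47 ≤ hh (1/2) ((2 * N : ℕ) : ℤ) ((N - 1 : ℕ) : ℤ) := by
    apply rsw (n := ((N:ℤ) - 1) / 2)
    · omega
    · push_cast; omega
    · push_cast; omega
    · omega
  have hb := cross_bound hp hp1 (w := 2 * N) (H := N - 1) (by omega) (by positivity) hc
  have e1 : ((2 * N : ℕ) : ℤ) = 2 * (N:ℤ) := by push_cast; ring
  have e2 : ((N - 1 : ℕ) : ℤ) = (N:ℤ) - 1 := by omega
  have e3 : N - 1 + 1 = N := by omega
  have e4 : ((N - 1 : ℕ) : ℝ) + 1 = N := by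
    have : (((N - 1 + 1 : ℕ)) : ℝ) = N := by rw [e3]
    rw [← this]; push_cast; ring
  rw [e1, e2, e3, e4] at hb
  have hS := SS_pos h0 hp1 N
  have hS2 := SS_pos h0 hp1 (2 * N)
  have hd := SS_double h0 hp1 N
  have hNr : (3:ℝ) ≤ N := by exact_mod_cast hN
  unfold eps
  refine hb.trans ?_
  have hc0 : (1:ℝ) / (1/2)^47 = 2^47 := by norm_num
  rw [hc0]
  apply mul_le_mul_of_nonneg_left _ (by positivity)
  apply Real.exp_le_exp.mpr
  apply neg_le_neg
  rw [mul_div_right_comm]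
  apply mul_le_mul_of_nonneg_right _ (by linarith)
  push_cast
  rw [div_le_div_iff₀ (by positivity) (by positivity)]
  have k1 : SS p (2 * N) * SS p N ≤ 2 * SS p N * SS p N :=
    mul_le_mul_of_nonneg_right hd (by linarith)
  have k2 : (0:ℝ) ≤ N := by linarith
  calc (N:ℝ)^2 * (4 * (SS p (2 * N) * SS p N))
      ≤ (N:ℝ)^2 * (4 * (2 * SS p N * SS p N)) := by
        apply mul_le_mul_of_nonneg_left _ (by positivity)
        linarith
    _ = (2 * N) * N * (4 * (SS p N)^2) := by ring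
    _ ≤ (2 * N + 1) * N * (4 * (SS p N)^2) := by
        apply mul_le_mul_of_nonneg_right _ (by positivity)
        nlinarith

theorem eps_small {p : ℝ} (hp : 1/2 ≤ p) (hp1 : p ≤ 1) {N : ℕ} (hN : 3 ≤ N)
    (h : 240 * (SS p N)^2 ≤ (p - 1/2) * (N:ℝ)^2) : eps p N ≤ 1/100 := by
  have h0 : 0 ≤ p := by linarith
  refine (eps_exp hp hp1 hN).trans ?_
  have hS := SS_pos h0 hp1 N
  have h1 : (60:ℝ) ≤ (N:ℝ)^2 * (p - 1/2) / (4 * (SS p N)^2) := by
    rw [le_div_iff₀ (by positivity)]
    nlinarith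
  have h2 : Real.exp (-((N:ℝ)^2 * (p - 1/2) / (4 * (SS p N)^2))) ≤ Real.exp (-60) :=
    Real.exp_le_exp.mpr (by linarith)
  have h3 : (2:ℝ)^60 ≤ Real.exp 60 := by
    have h4 : (2:ℝ) ≤ Real.exp 1 := by
      have := Real.add_one_le_exp (1:ℝ)
      linarith
    calc (2:ℝ)^60 ≤ (Real.exp 1)^60 := pow_le_pow_left₀ (by norm_num) h4 60
      _ = Real.exp 60 := by rw [← Real.exp_nat_mul]; norm_num
  have h5 : Real.exp (-60) ≤ 1 / 2^60 := by
    rw [Real.exp_neg, ← one_div]
    exact one_div_le_one_div_of_le (by positivity) h3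
  calc 2^47 * Real.exp (-((N:ℝ)^2 * (p - 1/2) / (4 * (SS p N)^2)))
      ≤ 2^47 * (1 / 2^60) := mul_le_mul_of_nonneg_left (h2.trans h5) (by positivity)
    _ ≤ 1/100 := by norm_num

/-- If the failure probability is not small, then the one-arm probability is large. -/
theorem arm_big {p : ℝ} (hp : 1/2 ≤ p) (hp1 : p ≤ 1) {N : ℕ} (hN : 0 < N)
    (h : (p - 1/2) * (N:ℝ)^2 < 240 * (SS p N)^2) :
    Real.sqrt (p - 1/2) ≤ 480 / kap * arm p N := by
  have h0 : 0 ≤ p := by linarith
  have hNr : (0:ℝ) < N := by exact_mod_cast hN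
  have hS := SS_pos h0 hp1 N
  have h2 := SS_le hp hp1 hN
  have hk := kap_pos
  have ha := arm_nonneg h0 hp1 N
  have h3 : (SS p N)^2 ≤ (30 / kap * N * arm p N)^2 := pow_le_pow_left₀ (by linarith) h2 2
  have h4 : (p - 1/2) ≤ (480 / kap * arm p N)^2 := by
    have h5 : (p - 1/2) * (N:ℝ)^2 ≤ (480 / kap * arm p N)^2 * (N:ℝ)^2 := by
      calc (p - 1/2) * (N:ℝ)^2 ≤ 240 * (30 / kap * N * arm p N)^2 := by linarith
        _ ≤ 256 * (30 / kap * N * arm p N)^2 := by nlinarith [sq_nonneg (30 / kap * N * arm p N)]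
        _ = (480 / kap * arm p N)^2 * (N:ℝ)^2 := by ring
    exact le_of_mul_le_mul_right h5 (by positivity)
  exact Real.sqrt_le_iff.mpr ⟨by positivity, h4⟩

/-- The main finite-volume estimate. -/
theorem fin_bound : ∃ c : ℝ, 0 < c ∧ ∀ p : ℝ, 1/2 ≤ p → p ≤ 1 → ∀ m : ℕ,
    c * Real.sqrt (p - 1/2) ≤ arm p m := by
  have hk := kap_pos
  have hk1 := kap_le
  refine ⟨kap^2 / 13440, by positivity, ?_⟩
  intro p hp hp1 m
  have h0 : 0 ≤ p := by linarith
  have hs0 : 0 ≤ Real.sqrt (p - 1/2) := Real.sqrt_nonneg _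
  have hk2 : kap^2 ≤ kap := by nlinarith
  by_cases hex : ∃ N : ℕ, 3 ≤ N ∧ 240 * (SS p N)^2 ≤ (p - 1/2) * (N:ℝ)^2
  · classical
    set N := Nat.find hex with hNdef
    obtain ⟨hN3, hN⟩ := Nat.find_spec hex
    have hmin : ∀ M < N, ¬ (3 ≤ M ∧ 240 * (SS p M)^2 ≤ (p - 1/2) * (M:ℝ)^2) :=
      fun M hM => Nat.find_min hex hM
    rw [← hNdef] at hN3 hN
    have he := eps_small hp hp1 hN3 hN
    have hch := arm_chain h0 hp1 (by omega) he m
    by_cases h3 : N = 3
    · rw [h3] at hch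
      have h6 := arm_half_sq hp hp1 (n := 2 * 3) (by norm_num)
      have ha := arm_nonneg h0 hp1 (2 * 3)
      have h7 : 1/10 ≤ arm p (2 * 3) := by
        push_cast at h6
        by_contra hcon
        push Not at hcon
        nlinarith
      have h8 : Real.sqrt (p - 1/2) ≤ 1 := by
        rw [Real.sqrt_le_iff]; constructor <;> linarith
      have h9 : kap^2 / 13440 * Real.sqrt (p - 1/2) ≤ 1/20 := by
        have : kap^2 / 13440 ≤ 1/20 := by
          rw [div_le_iff₀ (by norm_num)]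
          linarith
        calc kap^2 / 13440 * Real.sqrt (p - 1/2) ≤ 1/20 * 1 :=
              mul_le_mul this h8 hs0 (by norm_num)
          _ = 1/20 := by ring
      linarith
    · have hN1 : 3 ≤ N - 1 := by omega
      have hM := hmin (N - 1) (by omega)
      have hlt : (p - 1/2) * ((N - 1 : ℕ) : ℝ)^2 < 240 * (SS p (N - 1))^2 := by
        by_contra hcon
        push Not at hcon
        exact hM ⟨hN1, hcon⟩
      have hb := arm_big hp hp1 (by omega) hlt
      have hr := arm_ratio hp hp1 (r := N - 1) (n := 2 * N) (by omega) (by omega)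
      have hNle : (((2 * N : ℕ)) : ℝ) ≤ 4 * ((N - 1 : ℕ) : ℝ) := by
        have : 2 * N ≤ 4 * (N - 1) := by omega
        exact_mod_cast this
      have hNpos : (0:ℝ) < ((N - 1 : ℕ) : ℝ) := by
        have : 0 < N - 1 := by omega
        exact_mod_cast this
      have ha2 := arm_nonneg h0 hp1 (2 * N)
      have ha1 := arm_nonneg h0 hp1 (N - 1)
      have h4 : (kap * arm p (N - 1))^2 ≤ (14 * arm p (2 * N))^2 := by
        have h5 : (kap * arm p (N - 1))^2 * ((N - 1 : ℕ) : ℝ) ≤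
            (14 * arm p (2 * N))^2 * ((N - 1 : ℕ) : ℝ) := by
          calc (kap * arm p (N - 1))^2 * ((N - 1 : ℕ) : ℝ)
              = kap^2 * ((N - 1 : ℕ) : ℝ) * (arm p (N - 1))^2 := by ring
            _ ≤ 48 * ((2 * N : ℕ) : ℝ) * (arm p (2 * N))^2 := hr
            _ ≤ 48 * (4 * ((N - 1 : ℕ) : ℝ)) * (arm p (2 * N))^2 := by
                apply mul_le_mul_of_nonneg_right _ (sq_nonneg _)
                linarith
            _ ≤ (14 * arm p (2 * N))^2 * ((N - 1 : ℕ) : ℝ) := by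
                nlinarith [mul_nonneg hNpos.le (sq_nonneg (arm p (2 * N)))]
        exact le_of_mul_le_mul_right h5 hNpos
      have h6 : kap * arm p (N - 1) ≤ 14 * arm p (2 * N) :=
        (le_abs_self _).trans (abs_le_of_sq_le_sq h4 (by positivity))
      calc kap^2 / 13440 * Real.sqrt (p - 1/2)
          ≤ kap^2 / 13440 * (480 / kap * arm p (N - 1)) :=
            mul_le_mul_of_nonneg_left hb (by positivity)
        _ = 1/28 * (kap * arm p (N - 1)) := by
            field_simp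
            ring
        _ ≤ 1/28 * (14 * arm p (2 * N)) := mul_le_mul_of_nonneg_left h6 (by norm_num)
        _ = 1/2 * arm p (2 * N) := by ring
        _ ≤ arm p m := hch
  · push Not at hex
    have hb := arm_big hp hp1 (N := max m 3) (by omega) (hex _ (le_max_right _ _))
    have hanti := arm_anti h0 hp1 (le_max_left m 3)
    have ha := arm_nonneg h0 hp1 m
    calc kap^2 / 13440 * Real.sqrt (p - 1/2)
        ≤ kap^2 / 13440 * (480 / kap * arm p (max m 3)) :=
          mul_le_mul_of_nonneg_left hb (by positivity)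
      _ ≤ kap^2 / 13440 * (480 / kap * arm p m) := by
          apply mul_le_mul_of_nonneg_left _ (by positivity)
          exact mul_le_mul_of_nonneg_left hanti (by positivity)
      _ = kap / 28 * arm p m := by
          field_simp
          ring
      _ ≤ 1 * arm p m := mul_le_mul_of_nonneg_right (by linarith) ha
      _ = arm p m := one_mul _

end H974
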