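import Pool.Agent.H974R2.Model
import Pool.Agent.H974R2.FinalFin
import Pool.Agent.H974R2.Block

/-!
Passage from finite boxes to the infinite lattice.
-/

set_option maxHeartbeats 400000

namespace H974

open Finset MeasureTheory

theorem edge_mem (e : Edg) : s(src e, tgt e) ∈ sqLattice.edgeSet := by
  rw [SimpleGraph.mem_edgeSet]
  obtain ⟨x, y, _ | _⟩ := e
  · show |x - x| + |y - (y + 1)| = 1
    simp
  · show |x - (x + 1)| + |y - y| = 1
    simp

/-- The edge of the square lattice encoded by an element of `Edg`. -/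
def toE (e : Edg) : sqLattice.edgeSet := ⟨s(src e, tgt e), edge_mem e⟩

theorem toE_inj : Function.Injective toE := by
  rintro ⟨x, y, b⟩ ⟨x', y', b'⟩ h
  have h1 : s(src (x, y, b), tgt (x, y, b)) = s(src (x', y', b'), tgt (x', y', b')) :=
    congrArg Subtype.val h
  rw [Sym2.eq_iff] at h1
  cases b <;> cases b'
  · simp only [src_mk, tgt_false, Prod.mk.injEq, and_true] at h1 ⊢
    omega
  · simp only [src_mk, tgt_false, tgt_true, Prod.mk.injEq] at h1
    exfalso
    omega
  · simp only [src_mk, tgt_false, tgt_true, Prod.mk.injEq] at h1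
    exfalso
    omega
  · simp only [src_mk, tgt_true, Prod.mk.injEq, and_true] at h1 ⊢
    omega

theorem adj_edge {u v : ℤ × ℤ} (h : sqLattice.Adj u v) :
    ∃ e : Edg, (src e = u ∧ tgt e = v) ∨ (src e = v ∧ tgt e = u) := by
  obtain ⟨x, y⟩ := u
  obtain ⟨x', y'⟩ := v
  have h' : |x - x'| + |y - y'| = 1 := h
  have key : (x' = x + 1 ∧ y' = y) ∨ (x = x' + 1 ∧ y' = y) ∨ (x' = x ∧ y' = y + 1) ∨
      (x' = x ∧ y = y' + 1) := by
    rcases abs_cases (x - x') with ⟨h1, h2⟩ | ⟨h1, h2⟩ <;>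
      rcases abs_cases (y - y') with ⟨h3, h4⟩ | ⟨h3, h4⟩ <;> omega
  rcases key with ⟨h1, h2⟩ | ⟨h1, h2⟩ | ⟨h1, h2⟩ | ⟨h1, h2⟩
  · exact ⟨(x, y, true), Or.inl ⟨rfl, by rw [tgt_true, h1, h2]⟩⟩
  · exact ⟨(x', y', true), Or.inr ⟨rfl, by rw [tgt_true, h1, h2]⟩⟩
  · exact ⟨(x, y, false), Or.inl ⟨rfl, by rw [tgt_false, h1, h2]⟩⟩
  · exact ⟨(x', y', false), Or.inr ⟨rfl, by rw [tgt_false, h1, h2]⟩⟩

/-- The open edges. -/
def opn (ω : sqLattice.edgeSet → Bool) : Set Edg := {e | ω (toE e) = true}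

theorem openGraph_adj (ω : sqLattice.edgeSet → Bool) (u v : ℤ × ℤ) :
    (openGraph ω).Adj u v ↔ Adj (opn ω) u v := by
  unfold openGraph
  rw [SimpleGraph.fromEdgeSet_adj]
  constructor
  · rintro ⟨⟨h, hω⟩, -⟩
    obtain ⟨e, he⟩ := adj_edge ((SimpleGraph.mem_edgeSet _).mp h)
    refine ⟨e, ?_, he⟩
    have : toE e = ⟨s(u, v), h⟩ := by
      apply Subtype.ext
      rcases he with ⟨h1, h2⟩ | ⟨h1, h2⟩
      · simp only [toE, h1, h2]
      · simp only [toE, h1, h2]
        exact Sym2.eq_swap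
    show ω (toE e) = true
    rw [this]; exact hω
  · rintro ⟨e, he, hcase⟩
    have hs : s(u, v) = s(src e, tgt e) := by
      rcases hcase with ⟨h1, h2⟩ | ⟨h1, h2⟩
      · rw [h1, h2]
      · rw [h1, h2]; exact Sym2.eq_swap
    refine ⟨?_, ?_⟩
    · show ∃ h : s(u, v) ∈ sqLattice.edgeSet, ω ⟨s(u, v), h⟩ = true
      rw [hs]
      exact ⟨edge_mem e, he⟩
    · rintro rfl
      exact Adj_irrefl (⟨e, he, hcase⟩ : Adj (opn ω) u u)

theorem open_reach (ω : sqLattice.edgeSet → Bool) (u v : ℤ × ℤ) :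
    (openGraph ω).Reachable u v ↔ Reach (opn ω) u v := by
  rw [SimpleGraph.reachable_iff_reflTransGen]
  have : (openGraph ω).Adj = Adj (opn ω) := by
    funext u v
    exact propext (openGraph_adj ω u v)
  rw [this]
  rfl

/-- The open edges in a finite set. -/
def FF (S : Finset Edg) (ω : sqLattice.edgeSet → Bool) : Finset Edg :=
  S.filter (fun e => ω (toE e) = true)

theorem mem_FF {S : Finset Edg} {ω : sqLattice.edgeSet → Bool} {e : Edg} :
    e ∈ FF S ω ↔ e ∈ S ∧ ω (toE e) = true := by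
  unfold FF; rw [Finset.mem_filter]

theorem FF_coe (S : Finset Edg) (ω : sqLattice.edgeSet → Bool) :
    (↑(FF S ω) : Set Edg) = opn ω ∩ ↑S := by
  ext e
  rw [Finset.mem_coe, mem_FF]
  exact and_comm

theorem FF_eq_pi {S T : Finset Edg} (hT : T ⊆ S) :
    {ω | FF S ω = T} = Set.pi (↑(S.image toE) : Set sqLattice.edgeSet)
      (fun g => {b : Bool | b = true ↔ g ∈ T.image toE}) := by
  ext ω
  rw [Set.mem_pi]
  constructor
  · intro h g hg
    have h' : FF S ω = T := h
    obtain ⟨e, he, rfl⟩ := Finset.mem_image.mp (Finset.mem_coe.mp hg)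
    show ω (toE e) = true ↔ toE e ∈ T.image toE
    rw [toE_inj.mem_finset_image, ← h', mem_FF]
    exact ⟨fun h => ⟨he, h⟩, fun h => h.2⟩
  · intro h
    show FF S ω = T
    ext e
    rw [mem_FF]
    constructor
    · rintro ⟨he, hω⟩
      have h1 := h (toE e) (Finset.mem_coe.mpr (Finset.mem_image_of_mem _ he))
      have h2 : ω (toE e) = true ↔ toE e ∈ T.image toE := h1
      rw [toE_inj.mem_finset_image] at h2
      exact h2.mp hω
    · intro he
      have h1 := h (toE e) (Finset.mem_coe.mpr (Finset.mem_image_of_mem _ (hT he)))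
      have h2 : ω (toE e) = true ↔ toE e ∈ T.image toE := h1
      rw [toE_inj.mem_finset_image] at h2
      exact ⟨hT he, h2.mpr he⟩

theorem meas_FF (S T : Finset Edg) : MeasurableSet {ω | FF S ω = T} := by
  by_cases hT : T ⊆ S
  · rw [FF_eq_pi hT]
    exact MeasurableSet.pi (Finset.countable_toSet _) (fun _ _ => MeasurableSet.of_discrete)
  · have : {ω | FF S ω = T} = ∅ := by
      ext ω
      simp only [Set.mem_empty_iff_false, iff_false]
      intro h
      have h' : FF S ω = T := h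
      exact hT (h' ▸ Finset.filter_subset _ _)
    rw [this]
    exact MeasurableSet.empty

instance (p : unitInterval) : IsProbabilityMeasure (bondLaw p) := by
  unfold bondLaw; infer_instance

theorem law_eq (p : unitInterval) {S T : Finset Edg} (hT : T ⊆ S) :
    (bondLaw p).real {ω | FF S ω = T} =
      (∏ _e ∈ T, (p:ℝ)) * ∏ _e ∈ S \ T, (1 - (p:ℝ)) := by
  classical
  rw [measureReal_def, FF_eq_pi hT]
  unfold bondLaw
  rw [Measure.infinitePi_pi _ (fun _ _ => MeasurableSet.of_discrete), ENNReal.toReal_prod,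
    Finset.prod_image (toE_inj.injOn)]
  have h1 : ∀ e ∈ S, ((ProbabilityTheory.bernoulliMeasure true false p)
      {b : Bool | b = true ↔ toE e ∈ T.image toE}).toReal = if e ∈ T then (p:ℝ) else 1 - (p:ℝ) := by
    intro e _
    by_cases he : e ∈ T
    · rw [if_pos he]
      have hm : toE e ∈ T.image toE := Finset.mem_image_of_mem _ he
      exact ProbabilityTheory.bernoulliMeasure_real_apply_of_mem_of_notMem p
        MeasurableSet.of_discrete (show (true = true ↔ toE e ∈ T.image toE) by simp [hm])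
        (show ¬ (false = true ↔ toE e ∈ T.image toE) by simp [hm])
    · rw [if_neg he]
      have hm : toE e ∉ T.image toE := by
        rw [toE_inj.mem_finset_image]; exact he
      exact ProbabilityTheory.bernoulliMeasure_real_apply_of_notMem_of_mem p
        MeasurableSet.of_discrete (show ¬ (true = true ↔ toE e ∈ T.image toE) by simp [hm])
        (show (false = true ↔ toE e ∈ T.image toE) by simp [hm])
  rw [Finset.prod_congr rfl h1, Finset.prod_ite]
  congr 1
  · apply Finset.prod_congr _ (fun _ _ => rfl)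
    ext e
    simp only [Finset.mem_filter]
    exact ⟨fun h => h.2, fun h => ⟨hT h, h⟩⟩
  · apply Finset.prod_congr _ (fun _ _ => rfl)
    ext e
    simp only [Finset.mem_filter, Finset.mem_sdiff]

theorem event_union (S : Finset Edg) (Q : Finset Edg → Prop) [DecidablePred Q] :
    {ω | Q (FF S ω)} = ⋃ T ∈ S.powerset.filter Q, {ω | FF S ω = T} := by
  ext ω
  simp only [Set.mem_iUnion, Finset.mem_filter, Finset.mem_powerset]
  constructor
  · intro h
    exact ⟨FF S ω, ⟨Finset.filter_subset _ _, h⟩, rfl⟩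
  · rintro ⟨T, ⟨-, hQ⟩, hω⟩
    have hω' : FF S ω = T := hω
    show Q (FF S ω)
    rw [hω']; exact hQ

theorem meas_event (S : Finset Edg) (Q : Finset Edg → Prop) : MeasurableSet {ω | Q (FF S ω)} := by
  classical
  rw [event_union]
  exact Finset.measurableSet_biUnion _ (fun T _ => meas_FF S T)

theorem law_event (p : unitInterval) (S : Finset Edg) (Q : Finset Edg → Prop) :
    (bondLaw p).real {ω | Q (FF S ω)} = Pr (fun _ => (p:ℝ)) S Q := by
  classical
  rw [event_union, measureReal_biUnion_finset]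
  · unfold Pr Ex
    rw [Finset.sum_filter]
    apply Finset.sum_congr rfl
    intro T hT
    show _ = (∏ _e ∈ T, (p:ℝ)) * (∏ _e ∈ S \ T, (1 - (p:ℝ))) * ind (Q T)
    split_ifs with hQ
    · rw [law_eq p (Finset.mem_powerset.mp hT), ind_of hQ, mul_one]
    · rw [ind_not_of hQ, mul_zero]
  · intro T _ T' _ hne
    rw [Function.onFun, Set.disjoint_left]
    intro ω h1 h2
    exact hne ((show FF S ω = T from h1).symm.trans (show FF S ω = T' from h2))
  · intro T _
    exact meas_FF S T

/-- The finite-volume event. -/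
def ArmE (n : ℕ) : Set (sqLattice.edgeSet → Bool) := {ω | Arm n (FF (boxE n) ω)}

theorem armE_iff {n : ℕ} {ω : sqLattice.edgeSet → Bool} :
    ω ∈ ArmE n ↔ ∃ v, onB n v ∧ Reach (opn ω ∩ ↑(boxE n)) (0, 0) v := by
  show Arm n (FF (boxE n) ω) ↔ _
  unfold Arm
  rw [FF_coe, Set.inter_assoc, Set.inter_self]

theorem law_armE (p : unitInterval) (n : ℕ) : (bondLaw p).real (ArmE n) = arm p n :=
  law_event p (boxE n) (Arm n)

theorem armE_anti {n m : ℕ} (h : n ≤ m) : ArmE m ⊆ ArmE n := by
  intro ω hω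
  rw [armE_iff] at hω ⊢
  obtain ⟨v, hv, hr⟩ := hω
  have h' : (n:ℤ) ≤ m := by exact_mod_cast h
  obtain ⟨w, k1, k2, k3⟩ := first_exit (G := opn ω ∩ ↑(boxE m)) (a := -n) (b := n) (c := -n)
    (d := n) (u := (0, 0)) (v := v) (by unfold inR; simp) hr (by unfold onB at hv; omega)
  refine ⟨w, ⟨k1, k2⟩, k3.mono ?_⟩
  rintro e ⟨⟨k4, -⟩, k5⟩
  exact ⟨k4, k5⟩

theorem infinite_iff (ω : sqLattice.edgeSet → Bool) :
    (cluster0 ω).Infinite ↔ ∀ n, ω ∈ ArmE n := by
  constructor
  · intro h n
    rw [armE_iff]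
    have hfin : (Set.Icc (-(n:ℤ)) n ×ˢ Set.Icc (-(n:ℤ)) n).Finite :=
      (Set.finite_Icc _ _).prod (Set.finite_Icc _ _)
    obtain ⟨v, hv, hv'⟩ := h.exists_notMem_finite hfin
    have hr : Reach (opn ω) (0, 0) v := (open_reach ω _ _).mp hv
    obtain ⟨w, k1, k2, k3⟩ := first_exit (a := -n) (b := n) (c := -n) (d := n)
      (by unfold inR; simp) hr (by
        simp only [Set.mem_prod, Set.mem_Icc] at hv'
        omega)
    exact ⟨w, ⟨k1, k2⟩, k3⟩
  · intro h hfin
    have hb : ((fun v : ℤ × ℤ => |v.1| + |v.2|) '' cluster0 ω).Finite := hfin.image _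
    obtain ⟨N, hN⟩ := hb.bddAbove
    obtain ⟨v, hv, hr⟩ := armE_iff.mp (h (N.toNat + 1))
    have hmem : v ∈ cluster0 ω := (open_reach ω _ _).mpr (hr.mono Set.inter_subset_left)
    have h1 : |v.1| + |v.2| ≤ N := hN (Set.mem_image_of_mem _ hmem)
    have h2 := abs_nonneg v.1
    have h3 := abs_nonneg v.2
    have h4 := le_abs_self v.1
    have h5 := le_abs_self v.2
    have h6 := neg_abs_le v.1
    have h7 := neg_abs_le v.2
    unfold onB at hv
    have h8 : N ≤ N.toNat := Int.self_le_toNat N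
    push_cast at hv
    omega

theorem infinite_eq : {ω | (cluster0 ω).Infinite} = ⋂ n, ArmE n := by
  ext ω
  rw [Set.mem_iInter]
  exact infinite_iff ω

theorem theta_le_arm (p : unitInterval) (n : ℕ) : theta p ≤ arm p n := by
  unfold theta
  rw [infinite_eq, ← law_armE]
  exact measureReal_mono (Set.iInter_subset _ n)

theorem le_theta (p : unitInterval) {x : ℝ} (h : ∀ n, x ≤ arm p n) : x ≤ theta p := by
  unfold theta
  rw [infinite_eq]
  have h1 : Filter.Tendsto (fun n => (bondLaw p) (ArmE n)) Filter.atTop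
      (nhds ((bondLaw p) (⋂ n, ArmE n))) := by
    apply tendsto_measure_iInter_atTop
    · intro n
      exact (meas_event (boxE n) (Arm n)).nullMeasurableSet
    · intro n m hnm
      exact armE_anti hnm
    · exact ⟨0, measure_ne_top _ _⟩
  have h2 : Filter.Tendsto (fun n => (bondLaw p).real (ArmE n)) Filter.atTop
      (nhds ((bondLaw p).real (⋂ n, ArmE n))) :=
    (ENNReal.tendsto_toReal (measure_ne_top _ _)).comp h1
  apply ge_of_tendsto' h2
  intro n
  rw [law_armE]
  exact h n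

theorem theta_nonneg (p : unitInterval) : 0 ≤ theta p := measureReal_nonneg

theorem theta_half_le {p : unitInterval} (hp : (p:ℝ) ≤ 1/2) : theta p = 0 := by
  apply le_antisymm _ (theta_nonneg p)
  have h1 : ∀ K : ℕ, theta p ≤ (1 - (1/2 : ℝ)^188)^K := by
    intro K
    calc theta p ≤ arm p (RR K) := theta_le_arm p _
      _ ≤ arm (1/2) (RR K) := arm_mono_param p.2.1 hp (by norm_num) _
      _ ≤ _ := arm_decay K
  have h2 : Filter.Tendsto (fun K : ℕ => (1 - (1/2 : ℝ)^188)^K) Filter.atTop (nhds 0) :=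
    tendsto_pow_atTop_nhds_zero_of_lt_one (by norm_num) (by norm_num)
  exact ge_of_tendsto' h2 h1

/-- The half as a parameter. -/
noncomputable def hlf : unitInterval := ⟨1/2, by norm_num, by norm_num⟩

theorem theta_lower : ∃ c : ℝ, 0 < c ∧ ∀ p : unitInterval, (1/2 : ℝ) ≤ p →
    c * Real.sqrt ((p:ℝ) - 1/2) ≤ theta p := by
  obtain ⟨c, hc, h⟩ := fin_bound
  exact ⟨c, hc, fun p hp => le_theta p (h p hp p.2.2)⟩

theorem pcrit_eq : (pcrit : ℝ) = 1/2 := by
  have h1 : pcrit = hlf := by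
    apply le_antisymm
    · apply sSup_le
      intro p hp
      by_contra hcon
      push Not at hcon
      have hlt : (1/2 : ℝ) < p := hcon
      obtain ⟨c, hc, h⟩ := theta_lower
      have h2 := h p hlt.le
      have h3 : theta p = 0 := hp
      have h4 : 0 < Real.sqrt ((p:ℝ) - 1/2) := Real.sqrt_pos.mpr (by linarith)
      rw [h3] at h2
      have := mul_pos hc h4
      linarith
    · apply le_sSup
      exact theta_half_le (p := hlf) (le_of_eq rfl)
  rw [h1]
  rfl

/-- The exponent bound. -/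
theorem theta_main : ∃ c : ℝ, 0 < c ∧ ∀ p : unitInterval, pcrit ≤ p →
    c * Real.sqrt ((p:ℝ) - pcrit) ≤ theta p := by
  obtain ⟨c, hc, h⟩ := theta_lower
  refine ⟨c, hc, fun p hp => ?_⟩
  have hp' : (pcrit : ℝ) ≤ p := hp
  rw [pcrit_eq] at hp' ⊢
  exact h p hp'

end H974
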