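import Pool.Agent.H974R2.Glue

/-!
Hybrid parameters, the derivative of the one-arm probability, and near-critical stability above
the critical point.
-/

set_option maxHeartbeats 400000

namespace H974

open Finset

/-- Parameter `q` inside the box of radius `m` and `1/2` outside. -/
noncomputable def hbr (q : ℝ) (m : ℕ) (e : Edg) : ℝ := if e ∈ boxE m then q else 1/2

theorem hbr_bd {q a b : ℝ} (ha : a ≤ 1/2) (hb : 1/2 ≤ b) (h1 : a ≤ q) (h2 : q ≤ b) (m : ℕ)
    (e : Edg) : a ≤ hbr q m e ∧ hbr q m e ≤ b := by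
  unfold hbr
  split_ifs
  · exact ⟨h1, h2⟩
  · exact ⟨ha, hb⟩

theorem hbr_ok {q : ℝ} (h0 : 0 ≤ q) (h1 : q ≤ 1) (m : ℕ) : Ok (hbr q m) :=
  fun e => hbr_bd (by norm_num) (by norm_num) h0 h1 m e

theorem hbr_half (m : ℕ) : hbr (1/2) m = fun _ => 1/2 := by
  funext e
  unfold hbr
  split_ifs <;> rfl

theorem armP_hbr {q : ℝ} {m r : ℕ} (h : r ≤ m) : armP (hbr q m) r = arm q r := by
  unfold armP arm
  exact Pr_congr_param (fun e he => if_pos (boxE_mono h he)) _

/-- The derivative of the hybrid one-arm probability. -/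
noncomputable def dA (q : ℝ) (m n : ℕ) : ℝ :=
  ∑ e ∈ boxE m, Pr (hbr q m) ((boxE n).erase e) (PivA n e)

theorem ind_piv (n : ℕ) (e : Edg) (F : Finset Edg) :
    ind (Arm n (insert e F)) - ind (Arm n F) = ind (PivA n e F) := by
  unfold PivA
  by_cases h1 : Arm n F
  · have h2 : Arm n (insert e F) := h1.mono (Finset.subset_insert _ _)
    rw [ind_of h1, ind_of h2, ind_not_of (by tauto)]
    norm_num
  · by_cases h2 : Arm n (insert e F)
    · rw [ind_not_of h1, ind_of h2, ind_of ⟨h2, h1⟩]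
      norm_num
    · rw [ind_not_of h1, ind_not_of h2, ind_not_of (by tauto)]
      norm_num

theorem A_hasDerivAt (q : ℝ) {m n : ℕ} (hmn : m ≤ n) :
    HasDerivAt (fun q => armP (hbr q m) n) (dA q m n) q := by
  have hder : ∀ e : Edg, HasDerivAt (fun q : ℝ => hbr q m e) (if e ∈ boxE m then 1 else 0) q := by
    intro e
    unfold hbr
    split_ifs
    · exact hasDerivAt_id q
    · exact hasDerivAt_const q _
  have h := Ex_hasDerivAt (fun (q : ℝ) (e : Edg) => hbr q m e) (fun e => if e ∈ boxE m then 1 else 0)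
    q hder (boxE n) (fun F => ind (Arm n F))
  have e1 : (∑ e ∈ boxE n, (if e ∈ boxE m then (1:ℝ) else 0) * Ex (hbr q m) ((boxE n).erase e)
      (fun F => ind (Arm n (insert e F)) - ind (Arm n F))) = dA q m n := by
    unfold dA
    have e2 : ∀ e ∈ boxE n, (if e ∈ boxE m then (1:ℝ) else 0) * Ex (hbr q m) ((boxE n).erase e)
        (fun F => ind (Arm n (insert e F)) - ind (Arm n F)) =
        if e ∈ boxE m then Pr (hbr q m) ((boxE n).erase e) (PivA n e) else 0 := by
      intro e _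
      split_ifs
      · rw [one_mul]
        exact Ex_congr (fun F _ => ind_piv n e F)
      · rw [zero_mul]
    rw [Finset.sum_congr rfl e2, ← Finset.sum_filter]
    apply Finset.sum_congr _ (fun _ _ => rfl)
    ext e
    rw [Finset.mem_filter]
    exact ⟨fun h => h.2, fun h => ⟨boxE_mono hmn h, h⟩⟩
  rw [e1] at h
  exact h

theorem piv_le {P : Edg → ℝ} (ok : Ok P) {n : ℕ} {e : Edg} (he : e ∈ boxE n) :
    P e * Pr P ((boxE n).erase e) (PivA n e) ≤ armP P n := by
  have hS : boxE n = insert e ((boxE n).erase e) := (Finset.insert_erase he).symm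
  have h1 : armP P n = P e * Ex P ((boxE n).erase e) (fun F => ind (Arm n (insert e F))) +
      (1 - P e) * Ex P ((boxE n).erase e) (fun F => ind (Arm n F)) := by
    unfold armP Pr
    conv_lhs => rw [hS]
    rw [Ex_insert P (Finset.notMem_erase _ _)]
  have h2 : Pr P ((boxE n).erase e) (PivA n e) ≤
      Ex P ((boxE n).erase e) (fun F => ind (Arm n (insert e F))) :=
    Ex_mono ok (fun F _ => ind_mono (fun h => h.1))
  have h3 : 0 ≤ Ex P ((boxE n).erase e) (fun F => ind (Arm n F)) :=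
    Ex_nonneg ok (fun _ _ => ind_nonneg _)
  have h4 : 0 ≤ 1 - P e := by linarith [(ok e).2]
  have h5 := mul_le_mul_of_nonneg_left h2 (ok e).1
  have h6 := mul_nonneg h4 h3
  linarith

/-- Dyadic scales. -/
def rho (j : ℕ) : ℕ := 5 * 2^j

theorem rho_pos (j : ℕ) : 5 ≤ rho j := by
  unfold rho
  have : 1 ≤ 2^j := Nat.one_le_two_pow
  omega

theorem rho_succ (j : ℕ) : rho (j + 1) = 2 * rho j := by unfold rho; ring

theorem rho_mono {j k : ℕ} (h : j ≤ k) : rho j ≤ rho k := by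
  unfold rho
  exact Nat.mul_le_mul_left _ (Nat.pow_le_pow_right (by norm_num) h)

theorem rho_lt {j k : ℕ} (h : j < k) : 2 * rho j ≤ rho k := by
  rw [← rho_succ]; exact rho_mono h

theorem dyad (f : Edg → ℝ) (K : ℕ) : ∑ e ∈ boxE (16 * rho K), f e =
    ∑ e ∈ boxE 80, f e + ∑ j ∈ Finset.range K,
      ∑ e ∈ boxE (32 * rho j) \ boxE (16 * rho j), f e := by
  induction K with
  | zero => simp [rho]
  | succ K ih =>
    rw [Finset.sum_range_succ, ← add_assoc, ← ih]
    have e1 : 16 * rho (K + 1) = 32 * rho K := by rw [rho_succ]; ring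
    rw [e1, add_comm]
    exact (Finset.sum_sdiff (boxE_mono (by omega))).symm

theorem sum_sqrt_rho (K : ℕ) :
    ∑ j ∈ Finset.range K, Real.sqrt (rho j) ≤ Real.sqrt ((64 * rho K : ℕ) : ℝ) := by
  induction K with
  | zero => simp
  | succ K ih =>
    rw [Finset.sum_range_succ]
    have hx : 0 ≤ Real.sqrt (rho K) := Real.sqrt_nonneg _
    have hx2 : Real.sqrt (rho K) * Real.sqrt (rho K) = rho K :=
      Real.mul_self_sqrt (Nat.cast_nonneg _)
    have h1 : Real.sqrt ((64 * rho K : ℕ) : ℝ) = 8 * Real.sqrt (rho K) := by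
      rw [Real.sqrt_eq_iff_mul_self_eq (Nat.cast_nonneg _) (by positivity)]
      push_cast
      nlinarith
    have h2 : 9 * Real.sqrt (rho K) ≤ Real.sqrt ((64 * rho (K + 1) : ℕ) : ℝ) := by
      apply Real.le_sqrt_of_sq_le
      rw [rho_succ]
      push_cast
      have : (0:ℝ) ≤ rho K := Nat.cast_nonneg _
      nlinarith
    rw [h1] at ih
    linarith

theorem card_boxE (n : ℕ) : (boxE n).card ≤ (2 * n + 1) * ((2 * n + 1) * 2) := by
  unfold boxE
  have hsub : RE (-(n:ℤ)) n (-(n:ℤ)) n ⊆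
      (Finset.Icc (-(n:ℤ)) n ×ˢ (Finset.Icc (-(n:ℤ)) n ×ˢ (Finset.univ : Finset Bool))) := by
    rintro ⟨x, y, _ | _⟩ h
    · rw [mem_RE_false] at h
      simp only [Finset.mem_product, Finset.mem_Icc, Finset.mem_univ, and_true]
      omega
    · rw [mem_RE_true] at h
      simp only [Finset.mem_product, Finset.mem_Icc, Finset.mem_univ, and_true]
      omega
  refine (Finset.card_le_card hsub).trans ?_
  have e : Int.toNat ((n:ℤ) + 1 - -n) = 2 * n + 1 := by omega
  rw [Finset.card_product, Finset.card_product, Int.card_Icc, Finset.card_univ,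
    Fintype.card_bool, e]

theorem card_boxE_le {n M : ℕ} (h : (2 * n + 1) * ((2 * n + 1) * 2) ≤ M) :
    ((boxE n).card : ℝ) ≤ (M : ℝ) := by
  have h2 := (card_boxE n).trans h
  exact_mod_cast h2

theorem card_boxE80 : ((boxE 80).card : ℝ) ≤ 51842 :=
  card_boxE_le (n := 80) (M := 51842) (by norm_num)

/-- The bound on the sum of the pivotal probabilities. -/
theorem piv_sum {P : Edg → ℝ} (hP : ∀ e, 1/4 ≤ P e ∧ P e ≤ 3/4)
    (hside : (∀ e, P e ≤ 1/2) ∨ (∀ e, 1/2 ≤ P e)) {q1 q2 : ℝ} (h1 : ∀ e, P e ≤ q1)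
    (h2 : ∀ e, 1 - P e ≤ q2) (hq1 : q1 ≤ 1) (hq2 : q2 ≤ 1) {K : ℕ} {X Y Z : ℝ}
    (hX0 : 0 ≤ X) (hY0 : 0 ≤ Y) (hZ0 : 0 ≤ Z)
    (hX : ∀ j < K, armP P (11 * rho j) * barmP P (37 * rho j) (64 * rho K) ≤ X)
    (hY : ∀ j < K, Real.sqrt (rho j) * Real.sqrt (arm q1 (rho j) * arm q2 (rho j)) ≤ Y)
    (hZ : ∀ e ∈ boxE 80, Pr P ((boxE (64 * rho K)).erase e) (PivA (64 * rho K) e) ≤ Z) :
    ∑ e ∈ boxE (16 * rho K), Pr P ((boxE (64 * rho K)).erase e) (PivA (64 * rho K) e) ≤
      51842 * Z + 35937 / kap * (X * Y * Real.sqrt ((64 * rho K : ℕ) : ℝ)) := by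
  have hk := kap_pos
  rw [dyad]
  have s1 : ∑ e ∈ boxE 80, Pr P ((boxE (64 * rho K)).erase e) (PivA (64 * rho K) e) ≤
      51842 * Z := by
    calc ∑ e ∈ boxE 80, Pr P ((boxE (64 * rho K)).erase e) (PivA (64 * rho K) e)
        ≤ ∑ _e ∈ boxE 80, Z := Finset.sum_le_sum hZ
      _ = (boxE 80).card * Z := by rw [Finset.sum_const, nsmul_eq_mul]
      _ ≤ 51842 * Z := mul_le_mul_of_nonneg_right card_boxE80 hZ0
  have s2 : ∀ j ∈ Finset.range K, ∑ e ∈ boxE (32 * rho j) \ boxE (16 * rho j),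
      Pr P ((boxE (64 * rho K)).erase e) (PivA (64 * rho K) e) ≤
      35937 / kap * (X * Y * Real.sqrt (rho j)) := by
    intro j hj
    rw [Finset.mem_range] at hj
    have hr := rho_lt hj
    have hr5 := rho_pos j
    have a1 := ann_sum hP hside h1 h2 hq1 hq2 (ρ := rho j) (n := 64 * rho K) hr5 (by omega)
    refine a1.trans ?_
    have hs : 0 ≤ Real.sqrt (rho j) := Real.sqrt_nonneg _
    have hs2 : Real.sqrt (rho j) * Real.sqrt (rho j) = rho j :=
      Real.mul_self_sqrt (Nat.cast_nonneg _)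
    have hW : (rho j : ℝ) * Real.sqrt (arm q1 (rho j) * arm q2 (rho j)) ≤
        Real.sqrt (rho j) * Y := by
      calc (rho j : ℝ) * Real.sqrt (arm q1 (rho j) * arm q2 (rho j))
          = Real.sqrt (rho j) * (Real.sqrt (rho j) *
            Real.sqrt (arm q1 (rho j) * arm q2 (rho j))) := by rw [← mul_assoc, hs2]
        _ ≤ _ := mul_le_mul_of_nonneg_left (hY j hj) hs
    have hW0 : 0 ≤ (rho j : ℝ) * Real.sqrt (arm q1 (rho j) * arm q2 (rho j)) := by positivity
    have hXW := mul_le_mul (hX j hj) hW hW0 hX0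
    have hc : 0 ≤ 35937 / kap := by positivity
    calc 1089 * ((armP P (11 * rho j) * barmP P (37 * rho j) (64 * rho K)) *
          (33 / kap * rho j * Real.sqrt (arm q1 (rho j) * arm q2 (rho j))))
        = 35937 / kap * ((armP P (11 * rho j) * barmP P (37 * rho j) (64 * rho K)) *
          ((rho j : ℝ) * Real.sqrt (arm q1 (rho j) * arm q2 (rho j)))) := by ring
      _ ≤ 35937 / kap * (X * (Real.sqrt (rho j) * Y)) := mul_le_mul_of_nonneg_left hXW hc
      _ = _ := by ring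
  have s3 := Finset.sum_le_sum s2
  have s4 : ∑ j ∈ Finset.range K, 35937 / kap * (X * Y * Real.sqrt (rho j)) ≤
      35937 / kap * (X * Y * Real.sqrt ((64 * rho K : ℕ) : ℝ)) := by
    rw [← Finset.mul_sum, ← Finset.mul_sum]
    apply mul_le_mul_of_nonneg_left _ (by positivity)
    exact mul_le_mul_of_nonneg_left (sum_sqrt_rho K) (mul_nonneg hX0 hY0)
  linarith

theorem sqrt_prod_le {ρ : ℕ} {u v U V : ℝ} (hu : 0 ≤ u) (hv : 0 ≤ v)
    (h1 : Real.sqrt ρ * u ≤ U) (h2 : Real.sqrt ρ * v ≤ V) :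
    Real.sqrt ρ * Real.sqrt (u * v) ≤ Real.sqrt (U * V) := by
  have hs : 0 ≤ Real.sqrt ρ := Real.sqrt_nonneg _
  have hU : 0 ≤ U := (mul_nonneg hs hu).trans h1
  have e : Real.sqrt ρ * Real.sqrt (u * v) = Real.sqrt ((Real.sqrt ρ * u) * (Real.sqrt ρ * v)) := by
    have e1 : (Real.sqrt ρ * u) * (Real.sqrt ρ * v) = (Real.sqrt ρ)^2 * (u * v) := by ring
    rw [e1, Real.sqrt_mul (sq_nonneg _), Real.sqrt_sq hs]
  rw [e]
  exact Real.sqrt_le_sqrt (mul_le_mul h1 h2 (mul_nonneg hs hv) hU)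

/-- The critical one-arm probability at the scale `64 ρ_K`. -/
noncomputable def aK (K : ℕ) : ℝ := arm (1/2) (64 * rho K)

theorem aK_pos (K : ℕ) : 0 < aK K := by
  have h := arm_half_sq (p := 1/2) le_rfl (by norm_num) (n := 64 * rho K)
    (by have := rho_pos K; omega)
  have h0 : 0 ≤ aK K := arm_nonneg (by norm_num) (by norm_num) _
  rcases h0.lt_or_eq with h1 | h1
  · exact h1
  · exfalso
    unfold aK at h1
    rw [← h1] at h
    norm_num at h

theorem naK_ge (K : ℕ) : 4 ≤ ((64 * rho K : ℕ) : ℝ) * aK K := by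
  have h := arm_half_sq (p := 1/2) le_rfl (by norm_num) (n := 64 * rho K)
    (by have := rho_pos K; omega)
  have h0 := (aK_pos K).le
  have hn : (320:ℝ) ≤ ((64 * rho K : ℕ) : ℝ) := by
    have := rho_pos K
    have : 320 ≤ 64 * rho K := by omega
    exact_mod_cast this
  change 1 ≤ 16 * ((64 * rho K : ℕ) : ℝ) * (aK K)^2 at h
  set n := ((64 * rho K : ℕ) : ℝ) with hn'
  by_contra hcon
  push Not at hcon
  have h1 : (n * aK K)^2 < 4^2 := by
    apply pow_lt_pow_left₀ hcon (by positivity) (by norm_num)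
  have h2 : n * 1 ≤ n * (16 * n * (aK K)^2) := mul_le_mul_of_nonneg_left h (by linarith)
  nlinarith

attribute [local irreducible] hbr boxE kap rho aK

theorem A_ge {q : ℝ} (hq : 1/2 ≤ q) (hq1 : q ≤ 1) (m K : ℕ) :
    aK K ≤ armP (hbr q m) (64 * rho K) := by
  have h := armP_mono_param okhalf (hbr_ok (by linarith) hq1 m)
    (fun e => (hbr_bd (a := 1/2) (b := 1) le_rfl (by norm_num) hq hq1 m e).1) (64 * rho K)
  unfold aK
  exact h

theorem dA_up {q : ℝ} (hq : 1/2 ≤ q) (hq1 : q ≤ 3/4) (K : ℕ) :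
    dA q (16 * rho K) (64 * rho K) ≤ 5 * 10^6 / kap^4 * ((64 * rho K : ℕ) : ℝ) *
      (Real.sqrt (aK K) * (armP (hbr q (16 * rho K)) (64 * rho K) *
        Real.sqrt (armP (hbr q (16 * rho K)) (64 * rho K)))) := by
  set P := hbr q (16 * rho K) with hP
  set A := armP P (64 * rho K) with hA
  set n := ((64 * rho K : ℕ) : ℝ) with hn
  have hk := kap_pos
  have hk1 := kap_le
  have hb : ∀ e, 1/2 ≤ P e ∧ P e ≤ q := fun e => hbr_bd le_rfl hq hq le_rfl _ e
  have ok : Ok P := hbr_ok (by linarith) (by linarith) _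
  have hA0 : 0 ≤ A := armP_nonneg ok _
  have haK := aK_pos K
  have hAa : aK K ≤ A := A_ge hq (by linarith) _ _
  have hn0 : 0 ≤ n := Nat.cast_nonneg _
  have hrK := rho_pos K
  have hsn : Real.sqrt n * Real.sqrt n = n := Real.mul_self_sqrt hn0
  have hX : ∀ j < K, armP P (11 * rho j) * barmP P (37 * rho j) (64 * rho K) ≤
      18 / kap^2 * A := by
    intro j hj
    have hr := rho_lt hj
    have hr5 := rho_pos j
    have h := glue_mid ok (fun e => (hb e).1) (ρ := rho j) (n := 64 * rho K) (by omega) (by omega)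
    rw [div_mul_eq_mul_div, le_div_iff₀ (by positivity)]
    linarith
  have hY : ∀ j < K, Real.sqrt (rho j) * Real.sqrt (arm q (rho j) * arm (1/2) (rho j)) ≤
      7 / kap * Real.sqrt n * Real.sqrt (A * aK K) := by
    intro j hj
    have hr := rho_lt hj
    have hr5 := rho_pos j
    have h1 := armP_ratio' ok (fun e => (hb e).1) (r := rho j) (n := 64 * rho K) (by omega)
      (by omega)
    have h2 := armP_ratio' okhalf (fun e => le_rfl) (r := rho j) (n := 64 * rho K) (by omega)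
      (by omega)
    rw [hP, armP_hbr (by omega), ← hP] at h1
    have h3 := sqrt_prod_le (arm_nonneg (by linarith) (by linarith) _)
      (arm_nonneg (by norm_num) (by norm_num) _) h1 h2
    refine h3.trans (le_of_eq ?_)
    have e1 : 7 / kap * Real.sqrt n * A * (7 / kap * Real.sqrt n * aK K) =
        (7 / kap * Real.sqrt n)^2 * (A * aK K) := by ring
    have e0 : armP (fun _ => 1/2) (64 * rho K) = aK K := by unfold aK; rfl
    rw [e0, ← hA, ← hn, e1, Real.sqrt_mul (sq_nonneg _), Real.sqrt_sq (by positivity)]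
  have hZ : ∀ e ∈ boxE 80, Pr P ((boxE (64 * rho K)).erase e) (PivA (64 * rho K) e) ≤ 2 * A := by
    intro e he
    have h := piv_le ok (n := 64 * rho K) (boxE_mono (n := 80) (m := 64 * rho K) (by omega) he)
    have h2 := (hb e).1
    have h3 : 0 ≤ Pr P ((boxE (64 * rho K)).erase e) (PivA (64 * rho K) e) := Pr_nonneg ok _ _
    nlinarith
  have hmain := piv_sum (P := P) (q1 := q) (q2 := 1/2)
    (fun e => ⟨by linarith [(hb e).1], by linarith [(hb e).2]⟩) (Or.inr (fun e => (hb e).1))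
    (fun e => (hb e).2) (fun e => by linarith [(hb e).1]) (by linarith) (by norm_num)
    (K := K) (X := 18 / kap^2 * A) (Y := 7 / kap * Real.sqrt n * Real.sqrt (A * aK K))
    (Z := 2 * A) (by positivity) (by positivity) (by positivity) hX hY hZ
  unfold dA
  rw [← hP]
  refine hmain.trans ?_
  have hsA : Real.sqrt (A * aK K) = Real.sqrt (aK K) * Real.sqrt A := by
    rw [mul_comm, Real.sqrt_mul haK.le]
  have e2 : 35937 / kap * (18 / kap^2 * A * (7 / kap * Real.sqrt n * Real.sqrt (A * aK K)) *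
      Real.sqrt n) = 4528062 / kap^4 * n * (Real.sqrt (aK K) * (A * Real.sqrt A)) := by
    rw [hsA]
    have : 35937 / kap * (18 / kap^2 * A * (7 / kap * Real.sqrt n *
      (Real.sqrt (aK K) * Real.sqrt A)) * Real.sqrt n) =
      35937 / kap * (18 / kap^2) * (7 / kap) * (Real.sqrt n * Real.sqrt n) *
        (Real.sqrt (aK K) * (A * Real.sqrt A)) := by ring
    rw [this, hsn]
    field_simp
    ring
  rw [e2]
  -- the small edges
  have h5 : 4 * A ≤ n * (Real.sqrt (aK K) * (A * Real.sqrt A)) := by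
    have h6 : Real.sqrt (aK K) ≤ Real.sqrt A := Real.sqrt_le_sqrt hAa
    have h7 : aK K ≤ Real.sqrt (aK K) * Real.sqrt A := by
      calc aK K = Real.sqrt (aK K) * Real.sqrt (aK K) := (Real.mul_self_sqrt haK.le).symm
        _ ≤ _ := mul_le_mul_of_nonneg_left h6 (Real.sqrt_nonneg _)
    have h8 := naK_ge K
    have h9 : 4 ≤ n * (Real.sqrt (aK K) * Real.sqrt A) :=
      h8.trans (mul_le_mul_of_nonneg_left h7 hn0)
    calc 4 * A ≤ n * (Real.sqrt (aK K) * Real.sqrt A) * A := mul_le_mul_of_nonneg_right h9 hA0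
      _ = _ := by ring
  have hW0 : 0 ≤ n * (Real.sqrt (aK K) * (A * Real.sqrt A)) := by positivity
  have hk4 : 1 ≤ 1 / kap^4 := by
    rw [le_div_iff₀ (by positivity), one_mul]
    exact pow_le_one₀ hk.le hk1
  have h10 : 51842 * (2 * A) ≤ 471938 / kap^4 * n * (Real.sqrt (aK K) * (A * Real.sqrt A)) := by
    calc 51842 * (2 * A) ≤ 471938 * (1 * (n * (Real.sqrt (aK K) * (A * Real.sqrt A)))) := by
          linarith
      _ ≤ 471938 * (1 / kap^4 * (n * (Real.sqrt (aK K) * (A * Real.sqrt A)))) := by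
          apply mul_le_mul_of_nonneg_left _ (by norm_num)
          exact mul_le_mul_of_nonneg_right hk4 hW0
      _ = _ := by ring
  have e3 : 5 * 10^6 / kap^4 * n * (Real.sqrt (aK K) * (A * Real.sqrt A)) =
      471938 / kap^4 * n * (Real.sqrt (aK K) * (A * Real.sqrt A)) +
      4528062 / kap^4 * n * (Real.sqrt (aK K) * (A * Real.sqrt A)) := by ring
  rw [e3]
  linarith

theorem mono_of_hasDerivAt {f f' : ℝ → ℝ} {a b : ℝ} (hab : a ≤ b)
    (hf : ∀ x, a ≤ x → x ≤ b → HasDerivAt f (f' x) x) (hf' : ∀ x, a ≤ x → x ≤ b → 0 ≤ f' x) :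
    f a ≤ f b := by
  have hm : MonotoneOn f (Set.Icc a b) := by
    apply monotoneOn_of_deriv_nonneg (convex_Icc a b)
    · intro x hx
      exact (hf x hx.1 hx.2).continuousAt.continuousWithinAt
    · intro x hx
      rw [interior_Icc] at hx
      exact (hf x hx.1.le hx.2.le).differentiableAt.differentiableWithinAt
    · intro x hx
      rw [interior_Icc] at hx
      rw [(hf x hx.1.le hx.2.le).deriv]
      exact hf' x hx.1.le hx.2.le
  exact hm ⟨le_rfl, hab⟩ ⟨hab, le_rfl⟩ hab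

/-- Near-critical stability above the critical point. -/
theorem A_up {q : ℝ} (hq : 1/2 ≤ q) (hq1 : q ≤ 3/4) {K : ℕ}
    (hs : 5 * 10^6 / kap^4 * ((64 * rho K : ℕ) : ℝ) * aK K * (q - 1/2) ≤ 1) :
    armP (hbr q (16 * rho K)) (64 * rho K) ≤ 4 * aK K := by
  set n := ((64 * rho K : ℕ) : ℝ) with hn
  set C := 5 * 10^6 / kap^4 * n with hC
  set A : ℝ → ℝ := fun x => armP (hbr x (16 * rho K)) (64 * rho K) with hA
  have hk := kap_pos
  have haK := aK_pos K
  have hn0 : 0 ≤ n := Nat.cast_nonneg _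
  have hC0 : 0 ≤ C := by positivity
  have hApos : ∀ x, 1/2 ≤ x → x ≤ q → 0 < A x := fun x h1 h2 =>
    haK.trans_le (A_ge h1 (by linarith) _ _)
  have hder : ∀ x, 1/2 ≤ x → x ≤ q → HasDerivAt (fun x => (Real.sqrt (A x))⁻¹ +
      C * Real.sqrt (aK K) / 2 * x)
      (-(dA x (16 * rho K) (64 * rho K) / (2 * Real.sqrt (A x))) / (Real.sqrt (A x))^2 +
        C * Real.sqrt (aK K) / 2 * 1) x := by
    intro x h1 h2
    have h3 := A_hasDerivAt x (m := 16 * rho K) (n := 64 * rho K) (by omega)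
    have h4 := (h3.sqrt (hApos x h1 h2).ne').fun_inv (Real.sqrt_pos.mpr (hApos x h1 h2)).ne'
    exact h4.add ((hasDerivAt_id x).const_mul _)
  have hmono := mono_of_hasDerivAt hq hder (by
    intro x h1 h2
    have h3 := dA_up h1 (h2.trans hq1) K
    have h4 := hApos x h1 h2
    have h5 : 0 < Real.sqrt (A x) := Real.sqrt_pos.mpr h4
    have h6 : Real.sqrt (A x) * Real.sqrt (A x) = A x := Real.mul_self_sqrt h4.le
    change dA x (16 * rho K) (64 * rho K) ≤ C * (Real.sqrt (aK K) * (A x * Real.sqrt (A x))) at h3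
    have h7 : dA x (16 * rho K) (64 * rho K) / (2 * Real.sqrt (A x)) / (Real.sqrt (A x))^2 ≤
        C * Real.sqrt (aK K) / 2 := by
      rw [div_div, div_le_iff₀ (by positivity)]
      calc dA x (16 * rho K) (64 * rho K) ≤ C * (Real.sqrt (aK K) * (A x * Real.sqrt (A x))) := h3
        _ = C * (Real.sqrt (aK K) * ((Real.sqrt (A x) * Real.sqrt (A x)) * Real.sqrt (A x))) := by
          rw [h6]
        _ = _ := by ring
    rw [neg_div, mul_one]
    linarith)
  have hA0 : A (1/2) = aK K := by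
    simp only [hA]
    rw [hbr_half]
    unfold aK
    rfl
  rw [hA0] at hmono
  have hAq := hApos q hq le_rfl
  have hsa : 0 < Real.sqrt (aK K) := Real.sqrt_pos.mpr haK
  have hsA : 0 < Real.sqrt (A q) := Real.sqrt_pos.mpr hAq
  have hsa2 : Real.sqrt (aK K) * Real.sqrt (aK K) = aK K := Real.mul_self_sqrt haK.le
  have hsA2 : Real.sqrt (A q) * Real.sqrt (A q) = A q := Real.mul_self_sqrt hAq.le
  have h8 : (Real.sqrt (aK K))⁻¹ - C * Real.sqrt (aK K) / 2 * (q - 1/2) ≤
      (Real.sqrt (A q))⁻¹ := by linarith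
  have h9 : C * Real.sqrt (aK K) / 2 * (q - 1/2) ≤ (Real.sqrt (aK K))⁻¹ / 2 := by
    rw [div_mul_eq_mul_div, div_le_div_iff_of_pos_right (by norm_num), ← one_div,
      le_div_iff₀ hsa]
    calc C * Real.sqrt (aK K) * (q - 1/2) * Real.sqrt (aK K)
        = C * (Real.sqrt (aK K) * Real.sqrt (aK K)) * (q - 1/2) := by ring
      _ = C * aK K * (q - 1/2) := by rw [hsa2]
      _ ≤ 1 := hs
  have h10 : (Real.sqrt (aK K))⁻¹ / 2 ≤ (Real.sqrt (A q))⁻¹ := by linarith
  have h11 : Real.sqrt (A q) ≤ 2 * Real.sqrt (aK K) := by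
    have e : (Real.sqrt (aK K))⁻¹ / 2 = (2 * Real.sqrt (aK K))⁻¹ := by
      rw [mul_inv]; ring
    rw [e] at h10
    exact (inv_le_inv₀ (by positivity) hsA).mp h10
  calc A q = Real.sqrt (A q) * Real.sqrt (A q) := hsA2.symm
    _ ≤ (2 * Real.sqrt (aK K)) * (2 * Real.sqrt (aK K)) :=
      mul_le_mul h11 h11 hsA.le (by positivity)
    _ = 4 * (Real.sqrt (aK K) * Real.sqrt (aK K)) := by ring
    _ = 4 * aK K := by rw [hsa2]

end H974
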