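import Pool.Agent.H974R2.Basic

/-!
The van den Berg-Kesten inequality for increasing events.
-/

namespace H974

open Finset

variable {E : Type*} [DecidableEq E]

/-- Disjoint occurrence of two increasing events. -/
def DisjOcc (A B : Finset E → Prop) (F : Finset E) : Prop :=
  ∃ K L, K ⊆ F ∧ L ⊆ F ∧ Disjoint K L ∧ A K ∧ B L

omit [DecidableEq E] in
theorem DisjOcc.mono {A B A' B' : Finset E → Prop} {F : Finset E}
    (hA : ∀ K, K ⊆ F → A K → A' K) (hB : ∀ L, L ⊆ F → B L → B' L)
    (h : DisjOcc A B F) : DisjOcc A' B' F := by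
  obtain ⟨K, L, h1, h2, h3, h4, h5⟩ := h
  exact ⟨K, L, h1, h2, h3, hA K h1 h4, hB L h2 h5⟩

theorem disjOcc_insert {a : E} {S : Finset E} (ha : a ∉ S) {A B : Finset E → Prop}
    (hA : IncrE (insert a S) A) (hB : IncrE (insert a S) B) {F : Finset E} (hF : F ⊆ S) :
    DisjOcc A B (insert a F) ↔
      DisjOcc (fun G => A (insert a G)) B F ∨ DisjOcc A (fun G => B (insert a G)) F := by
  constructor
  · rintro ⟨K, L, h1, h2, h3, h4, h5⟩
    by_cases hK : a ∈ K
    · left
      have haL : a ∉ L := fun h => Finset.disjoint_left.mp h3 hK h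
      refine ⟨K.erase a, L, ?_, ?_, ?_, ?_, h5⟩
      · intro x hx
        rw [Finset.mem_erase] at hx
        rcases Finset.mem_insert.mp (h1 hx.2) with h | h
        · exact absurd h hx.1
        · exact h
      · intro x hx
        rcases Finset.mem_insert.mp (h2 hx) with h | h
        · exact absurd (h ▸ hx) haL
        · exact h
      · exact Finset.disjoint_of_subset_left (Finset.erase_subset _ _) h3
      · simpa [Finset.insert_erase hK] using h4
    · right
      have hKF : K ⊆ F := by
        intro x hx
        rcases Finset.mem_insert.mp (h1 hx) with h | h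
        · exact absurd (h ▸ hx) hK
        · exact h
      refine ⟨K, L.erase a, hKF, ?_, ?_, h4, ?_⟩
      · intro x hx
        rw [Finset.mem_erase] at hx
        rcases Finset.mem_insert.mp (h2 hx.2) with h | h
        · exact absurd h hx.1
        · exact h
      · exact Finset.disjoint_of_subset_right (Finset.erase_subset _ _) h3
      · show B (insert a (L.erase a))
        refine hB L _ ?_ ?_ h5
        · intro x hx
          rw [Finset.mem_insert, Finset.mem_erase]
          by_cases hxa : x = a
          · left; exact hxa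
          · right; exact ⟨hxa, hx⟩
        · intro x hx
          rw [Finset.mem_insert, Finset.mem_erase] at hx
          rcases hx with hx | hx
          · exact Finset.mem_insert.mpr (Or.inl hx)
          · rcases Finset.mem_insert.mp (h2 hx.2) with h | h
            · exact Finset.mem_insert.mpr (Or.inl h)
            · exact Finset.mem_insert.mpr (Or.inr (hF h))
  · rintro (⟨K, L, h1, h2, h3, h4, h5⟩ | ⟨K, L, h1, h2, h3, h4, h5⟩)
    · refine ⟨insert a K, L, Finset.insert_subset_insert _ h1,
        h2.trans (Finset.subset_insert _ _), ?_, h4, h5⟩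
      rw [Finset.disjoint_insert_left]
      exact ⟨fun h => ha (hF (h2 h)), h3⟩
    · refine ⟨K, insert a L, h1.trans (Finset.subset_insert _ _),
        Finset.insert_subset_insert _ h2, ?_, h4, h5⟩
      rw [Finset.disjoint_insert_right]
      exact ⟨fun h => ha (hF (h1 h)), h3⟩

/-- The van den Berg-Kesten inequality. -/
theorem bk {p : E → ℝ} (hp : Ok p) {S : Finset E} {A B : Finset E → Prop}
    (hA : IncrE S A) (hB : IncrE S B) :
    Pr p S (DisjOcc A B) ≤ Pr p S A * Pr p S B := by
  induction S using Finset.induction_on generalizing A B with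
  | empty =>
    unfold Pr
    rw [Ex_empty, Ex_empty, Ex_empty, ← ind_and]
    apply ind_mono
    rintro ⟨K, L, h1, h2, -, h4, h5⟩
    rw [Finset.subset_empty.mp h1] at h4
    rw [Finset.subset_empty.mp h2] at h5
    exact ⟨h4, h5⟩
  | insert a S ha ih =>
    have hA0 : IncrE S A := fun F G h1 h2 => hA F G h1 (h2.trans (Finset.subset_insert _ _))
    have hB0 : IncrE S B := fun F G h1 h2 => hB F G h1 (h2.trans (Finset.subset_insert _ _))
    have hA1 : IncrE S (fun F => A (insert a F)) := fun F G h1 h2 =>
      hA _ _ (Finset.insert_subset_insert _ h1) (Finset.insert_subset_insert _ h2)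
    have hB1 : IncrE S (fun F => B (insert a F)) := fun F G h1 h2 =>
      hB _ _ (Finset.insert_subset_insert _ h1) (Finset.insert_subset_insert _ h2)
    have hAA : ∀ K, K ⊆ S → A K → A (insert a K) := fun K hK h =>
      hA K _ (Finset.subset_insert _ _) (Finset.insert_subset_insert _ hK) h
    have hBB : ∀ K, K ⊆ S → B K → B (insert a K) := fun K hK h =>
      hB K _ (Finset.subset_insert _ _) (Finset.insert_subset_insert _ hK) h
    have iX := ih hA1 hB0
    have iY := ih hA0 hB1
    have iZ := ih hA0 hB0
    have iV := ih hA1 hB1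
    have e : ∀ (C : Finset E → Prop), Pr p (insert a S) C
        = p a * Pr p S (fun F => C (insert a F)) + (1 - p a) * Pr p S C := by
      intro C
      unfold Pr
      rw [Ex_insert p ha]
    rw [e, e, e]
    have hW : Pr p S (fun F => DisjOcc A B (insert a F))
        = Pr p S (fun F => DisjOcc (fun G => A (insert a G)) B F ∨
            DisjOcc A (fun G => B (insert a G)) F) :=
      Pr_congr (fun F hF => disjOcc_insert ha hA hB hF)
    rw [hW]
    have hW1 : Pr p S (fun F => DisjOcc (fun G => A (insert a G)) B F ∨
            DisjOcc A (fun G => B (insert a G)) F)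
        ≤ Pr p S (DisjOcc (fun G => A (insert a G)) B)
          + Pr p S (DisjOcc A (fun G => B (insert a G))) - Pr p S (DisjOcc A B) := by
      unfold Pr
      rw [← Ex_add, ← Ex_sub]
      apply Ex_mono hp
      intro F hF
      by_cases hz : DisjOcc A B F
      · have h1 : DisjOcc (fun G => A (insert a G)) B F :=
          hz.mono (fun K hK h => hAA K (hK.trans hF) h) (fun _ _ h => h)
        have h2 : DisjOcc A (fun G => B (insert a G)) F :=
          hz.mono (fun _ _ h => h) (fun K hK h => hBB K (hK.trans hF) h)
        rw [ind_of (Or.inl h1), ind_of h1, ind_of h2, ind_of hz]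
        norm_num
      · rw [ind_not_of hz, sub_zero]
        exact ind_or_le _ _
    have hW2 : Pr p S (fun F => DisjOcc (fun G => A (insert a G)) B F ∨
            DisjOcc A (fun G => B (insert a G)) F)
        ≤ Pr p S (DisjOcc (fun G => A (insert a G)) (fun G => B (insert a G))) := by
      apply Pr_mono hp
      rintro F hF (h | h)
      · exact h.mono (fun _ _ h => h) (fun K hK h => hBB K (hK.trans hF) h)
      · exact h.mono (fun K hK h => hAA K (hK.trans hF) h) (fun _ _ h => h)
    have a01 : Pr p S A ≤ Pr p S (fun F => A (insert a F)) := Pr_mono hp hAA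
    have b01 : Pr p S B ≤ Pr p S (fun F => B (insert a F)) := Pr_mono hp hBB
    obtain ⟨q0, q1⟩ := hp a
    set W := Pr p S (fun F => DisjOcc (fun G => A (insert a G)) B F ∨
            DisjOcc A (fun G => B (insert a G)) F)
    set X := Pr p S (DisjOcc (fun G => A (insert a G)) B)
    set Y := Pr p S (DisjOcc A (fun G => B (insert a G)))
    set Z := Pr p S (DisjOcc A B)
    set V := Pr p S (DisjOcc (fun G => A (insert a G)) (fun G => B (insert a G)))
    set a1 := Pr p S (fun F => A (insert a F))
    set a0 := Pr p S A
    set b1 := Pr p S (fun F => B (insert a F))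
    set b0 := Pr p S B
    set q := p a
    have hprod : 0 ≤ (a1 - a0) * (b1 - b0) :=
      mul_nonneg (by linarith) (by linarith)
    rcases le_total q (1/2) with hq | hq
    · have k1 : q * W ≤ q * (X + Y - Z) := mul_le_mul_of_nonneg_left hW1 q0
      have k2 : q * X ≤ q * (a1 * b0) := mul_le_mul_of_nonneg_left iX q0
      have k3 : q * Y ≤ q * (a0 * b1) := mul_le_mul_of_nonneg_left iY q0
      have k4 : (1 - 2 * q) * Z ≤ (1 - 2 * q) * (a0 * b0) :=
        mul_le_mul_of_nonneg_left iZ (by linarith)
      have k5 : 0 ≤ q * q * ((a1 - a0) * (b1 - b0)) := mul_nonneg (mul_nonneg q0 q0) hprod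
      nlinarith [k1, k2, k3, k4, k5]
    · have q1' : 0 ≤ 1 - q := by linarith
      have k1 : (1 - q) * W ≤ (1 - q) * (X + Y - Z) := mul_le_mul_of_nonneg_left hW1 q1'
      have k2 : (1 - q) * X ≤ (1 - q) * (a1 * b0) := mul_le_mul_of_nonneg_left iX q1'
      have k3 : (1 - q) * Y ≤ (1 - q) * (a0 * b1) := mul_le_mul_of_nonneg_left iY q1'
      have k4 : (2 * q - 1) * W ≤ (2 * q - 1) * (a1 * b1) :=
        mul_le_mul_of_nonneg_left (hW2.trans iV) (by linarith)
      have k5 : 0 ≤ (1 - q) * (1 - q) * ((a1 - a0) * (b1 - b0)) :=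
        mul_nonneg (mul_nonneg q1' q1') hprod
      nlinarith [k1, k2, k3, k4, k5]

end H974
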