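import Pool.Agent.H974R2.Arm
import Pool.Agent.H974R2.BK
import Mathlib.Combinatorics.SimpleGraph.Paths

/-!
Splitting an open path into two edge-disjoint connections, and the lower bound for the
box-to-boundary probability at the self-dual point.
-/

set_option maxHeartbeats 400000

namespace H974

open Finset

theorem Adj_irrefl {F : Set Edg} {u : Vtx} : ¬ Adj F u u := by
  rintro ⟨⟨x, y, _ | _⟩, -, h⟩
  · simp only [src_mk, tgt_false] at h
    have h' : ((x, y) : Vtx) = u ∧ ((x, y + 1) : Vtx) = u := by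
      rcases h with h | h
      · exact h
      · exact h
    have h2 := h'.1.trans h'.2.symm
    rw [Prod.mk.injEq] at h2
    omega
  · simp only [src_mk, tgt_true] at h
    have h' : ((x, y) : Vtx) = u ∧ ((x + 1, y) : Vtx) = u := by
      rcases h with h | h
      · exact h
      · exact h
    have h2 := h'.1.trans h'.2.symm
    rw [Prod.mk.injEq] at h2
    omega

/-- The graph of open edges. -/
def gr (G : Set Edg) : SimpleGraph Vtx where
  Adj := Adj G
  symm := ⟨fun _ _ h => h.symm⟩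
  loopless := ⟨fun _ h => Adj_irrefl h⟩

theorem gr_reachable {G : Set Edg} {u v : Vtx} (h : Reach G u v) : (gr G).Reachable u v := by
  induction h with
  | refl => exact SimpleGraph.Reachable.refl _
  | tail _ hs ih => exact ih.trans (SimpleGraph.Adj.reachable hs)

theorem gr_reach {G : Set Edg} {H : Set Edg} {u v : Vtx} (p : (gr G).Walk u v)
    (h : ∀ e ∈ G, s(src e, tgt e) ∈ p.edges → e ∈ H) : Reach H u v := by
  induction p with
  | nil => exact Reach.refl _ _
  | @cons a b c hab p ih =>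
    have h1 : Reach H b c := ih (fun e he hm => h e he (by
      rw [SimpleGraph.Walk.edges_cons]; exact List.mem_cons_of_mem _ hm))
    obtain ⟨e, he, hcase⟩ := hab
    refine (Adj.reach ⟨e, h e he ?_, hcase⟩).trans h1
    rw [SimpleGraph.Walk.edges_cons]
    rcases hcase with ⟨h3, h4⟩ | ⟨h3, h4⟩
    · rw [h3, h4]; exact List.mem_cons_self
    · rw [h3, h4, Sym2.eq_swap]; exact List.mem_cons_self

theorem Adj_fst {G : Set Edg} {u v : Vtx} (h : Adj G u v) : v.1 ≤ u.1 + 1 := by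
  obtain ⟨⟨x, y, _ | _⟩, -, h⟩ := h
  · simp only [src_mk, tgt_false] at h
    rcases h with ⟨h1, h2⟩ | ⟨h1, h2⟩ <;> rw [← h1, ← h2] <;> simp
  · simp only [src_mk, tgt_true] at h
    rcases h with ⟨h1, h2⟩ | ⟨h1, h2⟩ <;> rw [← h1, ← h2] <;> simp only <;> omega

theorem walk_ivt {G : Set Edg} {u v : Vtx} (p : (gr G).Walk u v) {m : ℤ} (hu : u.1 ≤ m)
    (hv : m ≤ v.1) : ∃ w ∈ p.support, w.1 = m := by
  induction p with
  | nil => exact ⟨_, by simp, le_antisymm hu hv⟩
  | @cons a b c hab p ih =>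
    by_cases ha : a.1 = m
    · exact ⟨a, by simp, ha⟩
    · have h1 := Adj_fst hab
      obtain ⟨w, hw, hwm⟩ := ih (by omega) hv
      exact ⟨w, by rw [SimpleGraph.Walk.support_cons]; exact List.mem_cons_of_mem _ hw, hwm⟩

/-- A path from the left of the line `x = m` to its right can be cut at a point of this line into
two edge-disjoint connections. -/
theorem split {F : Finset Edg} {u v : Vtx} {m : ℤ} (h : Reach (↑F : Set Edg) u v) (hu : u.1 ≤ m)
    (hv : m ≤ v.1) : ∃ w : Vtx, w.1 = m ∧ ∃ K L : Finset Edg, K ⊆ F ∧ L ⊆ F ∧ Disjoint K L ∧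
      Reach (↑K : Set Edg) w u ∧ Reach (↑L : Set Edg) w v := by
  classical
  obtain ⟨p, hp⟩ := (gr_reachable h).exists_isPath
  obtain ⟨w, hw, hwm⟩ := walk_ivt p hu hv
  refine ⟨w, hwm, F.filter (fun e => s(src e, tgt e) ∈ (p.takeUntil w hw).edges),
    F.filter (fun e => s(src e, tgt e) ∈ (p.dropUntil w hw).edges), Finset.filter_subset _ _,
    Finset.filter_subset _ _, ?_, ?_, ?_⟩
  · rw [Finset.disjoint_left]
    intro e h1 h2
    rw [Finset.mem_filter] at h1 h2
    exact (hp.isTrail.disjoint_edges_takeUntil_dropUntil hw) h1.2 h2.2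
  · apply Reach.symm
    apply gr_reach (p.takeUntil w hw)
    intro e he hm
    simp only [Finset.coe_filter, Set.mem_setOf_eq]
    exact ⟨by exact_mod_cast he, hm⟩
  · apply gr_reach (p.dropUntil w hw)
    intro e he hm
    simp only [Finset.coe_filter, Set.mem_setOf_eq]
    exact ⟨by exact_mod_cast he, hm⟩

/-- The box `[-r, r]²` is connected to the boundary of `[-n, n]²` inside the latter. -/
def BArm (r n : ℕ) (F : Finset Edg) : Prop :=
  ∃ u v, inR (-r) r (-r) r u ∧ onB n v ∧ Reach (↑F ∩ ↑(boxE n)) u v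

/-- The box-to-boundary probability. -/
noncomputable def barm (q : ℝ) (r n : ℕ) : ℝ := Pr (fun _ => q) (boxE n) (BArm r n)

theorem BArm.mono {r n : ℕ} {F G : Finset Edg} (h : F ⊆ G) (hF : BArm r n F) : BArm r n G := by
  obtain ⟨u, v, h0, h1, h2⟩ := hF
  exact ⟨u, v, h0, h1, h2.mono (Set.inter_subset_inter_left _ (by exact_mod_cast h))⟩

theorem BArm_local {r n : ℕ} {F S : Finset Edg} (hS : boxE n ⊆ S) :
    BArm r n F ↔ BArm r n (F ∩ S) := by
  unfold BArm
  rw [coe_inter_eq hS]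

theorem barm_nonneg {q : ℝ} (h0 : 0 ≤ q) (h1 : q ≤ 1) (r n : ℕ) : 0 ≤ barm q r n :=
  Pr_nonneg (okq h0 h1) _ _

theorem barm_le_one {q : ℝ} (h0 : 0 ≤ q) (h1 : q ≤ 1) (r n : ℕ) : barm q r n ≤ 1 :=
  Pr_le_one (okq h0 h1) _ _

theorem barm_mono_param {p q : ℝ} (h0 : 0 ≤ p) (hpq : p ≤ q) (h1 : q ≤ 1) (r n : ℕ) :
    barm p r n ≤ barm q r n :=
  Pr_mono_param (okq h0 (hpq.trans h1)) (okq (h0.trans hpq) h1) (fun _ => hpq)
    (fun _ _ h _ hF => hF.mono h)

theorem pr_BArm (q : ℝ) {r n : ℕ} {S : Finset Edg} (hS : boxE n ⊆ S) :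
    Pr (fun _ => q) S (BArm r n) = barm q r n := by
  unfold barm
  apply Pr_local hS
  intro F _
  exact BArm_local (Finset.Subset.refl _)

theorem barm_zero (q : ℝ) (n : ℕ) : barm q 0 n = arm q n := by
  unfold barm arm
  apply Pr_congr
  intro F _
  constructor
  · rintro ⟨⟨u1, u2⟩, v, h0, h1, h2⟩
    refine ⟨v, h1, ?_⟩
    have : ((u1, u2) : Vtx) = (0, 0) := by
      unfold inR at h0
      simp only [Nat.cast_zero, neg_zero] at h0
      rw [Prod.mk.injEq]
      omega
    rw [this] at h2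
    exact h2
  · rintro ⟨v, h1, h2⟩
    exact ⟨(0, 0), v, by unfold inR; simp, h1, h2⟩

/-- Probability of a shifted increasing event. -/
theorem Pr_shift_le {q : ℝ} (h0 : 0 ≤ q) (h1 : q ≤ 1) (g : LSym) (S : Finset Edg) {B : Finset Edg}
    {A : Finset Edg → Prop} (hA : ∀ F G, F ⊆ G → A F → A G) (hB : ∀ F, A F ↔ A (F ∩ B)) :
    Pr (fun _ => q) S (fun F => A (g.mp F)) ≤ Pr (fun _ => q) B A := by
  rw [← LSym.pr]
  have s2 : Pr (fun _ => q) (g.mp S) A ≤ Pr (fun _ => q) (g.mp S ∪ B) A :=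
    Pr_mono_set (okq h0 h1) Finset.subset_union_left (fun F G h _ => hA F G h)
  have s3 : Pr (fun _ => q) (g.mp S ∪ B) A = Pr (fun _ => q) B A := by
    apply Pr_local Finset.subset_union_right
    intro F _
    exact hB F
  linarith

theorem Pr_exists_le {p : Edg → ℝ} (hp : Ok p) (S : Finset Edg) {ι : Type*} [DecidableEq ι]
    (J : Finset ι) (A : ι → Finset Edg → Prop) :
    Pr p S (fun F => ∃ j ∈ J, A j F) ≤ ∑ j ∈ J, Pr p S (A j) := by
  induction J using Finset.induction_on with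
  | empty =>
    have : Pr p S (fun F => ∃ j ∈ (∅ : Finset ι), A j F) = 0 := by
      unfold Pr
      rw [Ex_congr (g := fun _ => 0) (fun F _ => ind_not_of (by simp)), Ex_const]
    rw [this]; simp
  | insert a J ha ih =>
    rw [Finset.sum_insert ha]
    refine le_trans ?_ (add_le_add_right ih _)
    refine le_trans (Pr_mono hp ?_) (Pr_or_le hp S _ _)
    rintro F _ ⟨j, hj, hA⟩
    rcases Finset.mem_insert.mp hj with h | h
    · left; rw [← h]; exact hA
    · right; exact ⟨j, h, hA⟩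

theorem BArm_of_reach {K : Finset Edg} {r n : ℕ} {k : ℤ} (hrn : r ≤ n) {w v : Vtx}
    (h : Reach (↑K : Set Edg) w v) (hw1 : w.1 = 0) (hw2 : k - r ≤ w.2 ∧ w.2 ≤ k + r)
    (hv : v.1 ≤ -n ∨ (n:ℤ) ≤ v.1) : BArm r n ((trl 0 (-k)).mp K) := by
  obtain ⟨w1, w2⟩ := w
  obtain ⟨v1, v2⟩ := v
  simp only at hw1 hw2 hv
  subst hw1
  have h1 := (trl 0 (-k)).reach h
  rw [trl_ψ, trl_ψ, ← LSym.coe_mp] at h1
  have hrn' : (r:ℤ) ≤ n := by exact_mod_cast hrn
  obtain ⟨z, k1, k2, k3⟩ := first_exit (a := -n) (b := n) (c := -n) (d := n)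
    (by unfold inR; simp only; omega) h1 (by simp only; omega)
  exact ⟨_, z, by unfold inR; simp only; omega, ⟨k1, k2⟩, k3⟩

theorem card_centres {r n : ℕ} (hrn : r ≤ n) :
    ((Finset.Icc ((-n + r : ℤ) / (2 * r + 1)) ((n + r : ℤ) / (2 * r + 1))).card : ℝ) *
      (2 * r + 1) ≤ 6 * n + 2 := by
  have hrn' : (r:ℤ) ≤ n := by exact_mod_cast hrn
  set d : ℤ := 2 * r + 1 with hd
  have hd0 : 0 < d := by omega
  set a : ℤ := (-n + r : ℤ) / d with ha
  set b : ℤ := (n + r : ℤ) / d with hb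
  have h1 : b * d ≤ n + r := Int.ediv_mul_le _ hd0.ne'
  have h2 : (-n + r : ℤ) < (a + 1) * d := Int.lt_ediv_add_one_mul_self _ hd0
  have h3 : ((Finset.Icc a b).card : ℤ) * d ≤ 6 * n + 2 := by
    rw [Int.card_Icc]
    by_cases hab : 0 ≤ b + 1 - a
    · rw [Int.toNat_of_nonneg hab]
      nlinarith
    · push Not at hab
      rw [Int.toNat_of_nonpos hab.le]
      simp
      positivity
  have h4 : (((Finset.Icc a b).card : ℤ) : ℝ) * ((d : ℤ) : ℝ) ≤ ((6 * n + 2 : ℤ) : ℝ) := by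
    exact_mod_cast h3
  rw [hd] at h4
  push_cast at h4
  exact h4

/-- The BK lower bound. -/
theorem barm_lower {r n : ℕ} (hn : 0 < n) (hrn : r ≤ n) :
    (2 * (r:ℝ) + 1) ≤ 16 * n * (barm (1/2) r n)^2 := by
  have h0 : (0:ℝ) ≤ 1/2 := by norm_num
  have h1 : (1/2:ℝ) ≤ 1 := by norm_num
  have hrn' : (r:ℤ) ≤ n := by exact_mod_cast hrn
  have hn' : (0:ℤ) < n := by exact_mod_cast hn
  set S : Finset Edg := LRE (-n) n (-n) n with hS
  set J : Finset ℤ := Finset.Icc ((-n + r : ℤ) / (2 * r + 1)) ((n + r : ℤ) / (2 * r + 1)) with hJ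
  set A : ℤ → Finset Edg → Prop := fun j F => BArm r n ((trl 0 (-((2 * r + 1) * j))).mp F) with hA
  have e1 : (1/2 : ℝ) ≤ Pr (fun _ => (1/2:ℝ)) S (LRc (-n) n (-n) n) := by
    rw [pr_LRc (1/2) (Finset.Subset.refl _)]
    have e : (n:ℤ) - -n = 2 * n := by ring
    rw [e]
    exact hh_square _ (by omega)
  have e2 : Pr (fun _ => (1/2:ℝ)) S (LRc (-n) n (-n) n) ≤
      Pr (fun _ => (1/2:ℝ)) S (fun F => ∃ j ∈ J, DisjOcc (A j) (A j) F) := by
    apply Pr_mono (okq h0 h1)
    intro F hF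
    rintro ⟨y, y', hy, hy', hr⟩
    have hr' : Reach (↑F : Set Edg) (-(n:ℤ), y) ((n:ℤ), y') := hr.mono Set.inter_subset_left
    obtain ⟨w, hw, K, L, hK, hL, hKL, hrK, hrL⟩ := split (m := 0) hr' (by simp) (by simp)
    have hwin : inR (-n) n (-n) n w := by
      have hin : ∀ w : Vtx, Reach (↑F : Set Edg) (-(n:ℤ), y) w → inR (-n) n (-n) n w := by
        intro w hw
        induction hw with
        | refl => unfold inR; simp only; omega
        | @tail w' w'' _ hstep ih =>
          obtain ⟨⟨x0, y0, _ | _⟩, heF, hcase⟩ := hstep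
          · have hm := hF heF
            rw [hS, mem_LRE_false] at hm
            simp only [src_mk, tgt_false] at hcase
            unfold inR
            rcases hcase with ⟨h3, h4⟩ | ⟨h3, h4⟩
            · rw [← h4]; simp only; omega
            · rw [← h3]; simp only; omega
          · have hm := hF heF
            rw [hS, mem_LRE_true] at hm
            simp only [src_mk, tgt_true] at hcase
            unfold inR
            rcases hcase with ⟨h3, h4⟩ | ⟨h3, h4⟩
            · rw [← h4]; simp only; omega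
            · rw [← h3]; simp only; omega
      exact hin w (hrK.symm.mono (by exact_mod_cast hK))
    obtain ⟨w1, w2⟩ := w
    simp only at hw
    subst hw
    unfold inR at hwin
    simp only at hwin
    have hd0 : (0:ℤ) < 2 * r + 1 := by omega
    refine ⟨(w2 + r) / (2 * r + 1), ?_, K, L, hK, hL, hKL, ?_, ?_⟩
    · rw [hJ, Finset.mem_Icc]
      exact ⟨Int.ediv_le_ediv hd0 (by omega), Int.ediv_le_ediv hd0 (by omega)⟩
    · have k1 := Int.mul_ediv_add_emod (w2 + r) (2 * r + 1)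
      have k2 := Int.emod_nonneg (w2 + r) hd0.ne'
      have k3 := Int.emod_lt_of_pos (w2 + r) hd0
      exact BArm_of_reach hrn hrK rfl (by simp only; omega) (Or.inl le_rfl)
    · have k1 := Int.mul_ediv_add_emod (w2 + r) (2 * r + 1)
      have k2 := Int.emod_nonneg (w2 + r) hd0.ne'
      have k3 := Int.emod_lt_of_pos (w2 + r) hd0
      exact BArm_of_reach hrn hrL rfl (by simp only; omega) (Or.inr le_rfl)
  have e3 := Pr_exists_le (okq h0 h1) S J (fun j => DisjOcc (A j) (A j))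
  have e4 : ∀ j ∈ J, Pr (fun _ => (1/2:ℝ)) S (DisjOcc (A j) (A j)) ≤ (barm (1/2) r n)^2 := by
    intro j _
    have hAm : ∀ F G, F ⊆ G → A j F → A j G := fun F G h hF => hF.mono (LSym.mp_mono _ h)
    have hinc : IncrE S (A j) := fun F G h _ => hAm F G h
    refine (bk (okq h0 h1) hinc hinc).trans ?_
    have k1 : Pr (fun _ => (1/2:ℝ)) S (A j) ≤ barm (1/2) r n :=
      Pr_shift_le h0 h1 _ S (fun F G h hF => hF.mono h)
        (fun F => BArm_local (Finset.Subset.refl _))
    have k2 : 0 ≤ Pr (fun _ => (1/2:ℝ)) S (A j) := Pr_nonneg (okq h0 h1) _ _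
    nlinarith
  have e5 : ∑ j ∈ J, Pr (fun _ => (1/2:ℝ)) S (DisjOcc (A j) (A j)) ≤
      (J.card : ℝ) * (barm (1/2) r n)^2 := by
    rw [← nsmul_eq_mul]
    exact Finset.sum_le_card_nsmul _ _ _ e4
  have e6 := card_centres hrn
  rw [← hJ] at e6
  have e7 : (1/2:ℝ) ≤ (J.card : ℝ) * (barm (1/2) r n)^2 := by linarith
  have hb : 0 ≤ (barm (1/2) r n)^2 := sq_nonneg _
  have hn1 : (1:ℝ) ≤ n := by exact_mod_cast hn
  have hr0 : (0:ℝ) ≤ r := Nat.cast_nonneg r
  calc (2 * (r:ℝ) + 1) = 2 * (1/2) * (2 * r + 1) := by ring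
    _ ≤ 2 * ((J.card : ℝ) * (barm (1/2) r n)^2) * (2 * r + 1) := by
        apply mul_le_mul_of_nonneg_right _ (by positivity)
        linarith
    _ = 2 * (barm (1/2) r n)^2 * ((J.card : ℝ) * (2 * r + 1)) := by ring
    _ ≤ 2 * (barm (1/2) r n)^2 * (6 * n + 2) := by
        apply mul_le_mul_of_nonneg_left e6 (by positivity)
    _ ≤ 16 * n * (barm (1/2) r n)^2 := by nlinarith

end H974
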