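import Pool.Agent.H974R2.Circ

/-!
Supercritical renormalisation: if a crossing probability is close to one at some scale, the
one-arm probabilities at all larger scales are comparable.
-/

set_option maxHeartbeats 400000

namespace H974

open Finset

/-- Failure probability at scale `N`. -/
noncomputable def eps (p : ℝ) (N : ℕ) : ℝ := 1 - hh p (2 * N) (N - 1)

theorem Pr_not_eq {p : Edg → ℝ} (S : Finset Edg) (A : Finset Edg → Prop) :
    Pr p S A = 1 - Pr p S (fun F => ¬ A F) := by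
  rw [Pr_not]; ring

/-- Union bound in the form used below. -/
theorem Pr_and_ge {p : Edg → ℝ} (hp : Ok p) (S : Finset Edg) (A B : Finset Edg → Prop) :
    Pr p S A + Pr p S B - 1 ≤ Pr p S (fun F => A F ∧ B F) := by
  have h1 : Pr p S (fun F => ¬ (A F ∧ B F)) ≤
      Pr p S (fun F => ¬ A F) + Pr p S (fun F => ¬ B F) := by
    refine le_trans (Pr_mono hp ?_) (Pr_or_le hp S _ _)
    intro F _ h
    by_contra hcon
    push Not at hcon
    exact h hcon
  rw [Pr_not, Pr_not, Pr_not] at h1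
  linarith

/-- Crossing a rectangle twice as long costs a factor five. -/
theorem long_cross {p : ℝ} (h0 : 0 ≤ p) (h1 : p ≤ 1) {N : ℕ} (hN : 2 ≤ N) :
    1 - hh p (4 * N) (N - 1) ≤ 5 * eps p N := by
  have hN' : (2:ℤ) ≤ N := by exact_mod_cast hN
  set n : ℤ := (N:ℤ) with hn
  set S := RE 0 (4 * n) 0 (n - 1) with hS
  have sL : ∀ a b, 0 ≤ a → b ≤ 4 * n → LRE a b 0 (n - 1) ⊆ S := fun a b ha hb =>
    LRE_subset_RE.trans (RE_subset ha hb le_rfl le_rfl)
  have sT : ∀ a b, 0 ≤ a → b ≤ 4 * n → TBE a b 0 (n - 1) ⊆ S := fun a b ha hb =>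
    TBE_subset_RE.trans (RE_subset ha hb le_rfl le_rfl)
  have ok := okq h0 h1
  have hE : eps p N = 1 - hh p (2 * n) (n - 1) := rfl
  have e1 : Pr (fun _ => p) S (LRc 0 (2 * n) 0 (n - 1)) = 1 - eps p N := by
    rw [pr_LRc p (sL _ _ le_rfl (by omega)), hE, sub_zero, sub_zero]; ring
  have e2 : Pr (fun _ => p) S (LRc n (3 * n) 0 (n - 1)) = 1 - eps p N := by
    rw [pr_LRc p (sL _ _ (by omega) (by omega)), hE]
    have : 3 * n - n = 2 * n := by ring
    rw [this, sub_zero]; ring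
  have e3 : Pr (fun _ => p) S (LRc (2 * n) (4 * n) 0 (n - 1)) = 1 - eps p N := by
    rw [pr_LRc p (sL _ _ (by omega) (by omega)), hE]
    have : 4 * n - 2 * n = 2 * n := by ring
    rw [this, sub_zero]; ring
  have hTB : hh p (2 * n) (n - 1) ≤ hh p (n - 1) n :=
    hh_mono h0 h1 (by omega) (by omega) (by omega)
  have e4 : 1 - eps p N ≤ Pr (fun _ => p) S (TBc n (2 * n) 0 (n - 1)) := by
    rw [pr_TBc p (sT _ _ (by omega) (by omega)), hE]
    have : 2 * n - n = n := by ring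
    rw [this, sub_zero]; linarith
  have e5 : 1 - eps p N ≤ Pr (fun _ => p) S (TBc (2 * n) (3 * n) 0 (n - 1)) := by
    rw [pr_TBc p (sT _ _ (by omega) (by omega)), hE]
    have : 3 * n - 2 * n = n := by ring
    rw [this, sub_zero]; linarith
  have e6 : Pr (fun _ => p) S (LRc 0 (4 * n) 0 (n - 1)) = hh p (4 * n) (n - 1) := by
    rw [pr_LRc p (sL _ _ le_rfl le_rfl)]; simp
  have i1 := Pr_and_ge ok S (LRc 0 (2 * n) 0 (n - 1)) (LRc n (3 * n) 0 (n - 1))
  have i2 := Pr_and_ge ok S (fun F => LRc 0 (2 * n) 0 (n - 1) F ∧ LRc n (3 * n) 0 (n - 1) F)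
    (LRc (2 * n) (4 * n) 0 (n - 1))
  have i3 := Pr_and_ge ok S (fun F => (LRc 0 (2 * n) 0 (n - 1) F ∧ LRc n (3 * n) 0 (n - 1) F) ∧
    LRc (2 * n) (4 * n) 0 (n - 1) F) (TBc n (2 * n) 0 (n - 1))
  have i4 := Pr_and_ge ok S (fun F => ((LRc 0 (2 * n) 0 (n - 1) F ∧ LRc n (3 * n) 0 (n - 1) F) ∧
    LRc (2 * n) (4 * n) 0 (n - 1) F) ∧ TBc n (2 * n) 0 (n - 1) F) (TBc (2 * n) (3 * n) 0 (n - 1))
  have i5 : Pr (fun _ => p) S (fun F => (((LRc 0 (2 * n) 0 (n - 1) F ∧ LRc n (3 * n) 0 (n - 1) F) ∧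
    LRc (2 * n) (4 * n) 0 (n - 1) F) ∧ TBc n (2 * n) 0 (n - 1) F) ∧
      TBc (2 * n) (3 * n) 0 (n - 1) F) ≤ Pr (fun _ => p) S (LRc 0 (4 * n) 0 (n - 1)) := by
    apply Pr_mono ok
    rintro F _ ⟨⟨⟨⟨k1, k2⟩, k3⟩, k4⟩, k5⟩
    have g1 : LRc 0 (3 * n) 0 (n - 1) F := glue (by omega) (by omega) (by omega) (by omega) k1 k2 k4
    exact glue (by omega) (by omega) (by omega) (by omega) g1 k3 k5
  linarith

/-- The recursion for the failure probabilities. -/
theorem eps_double {p : ℝ} (h0 : 0 ≤ p) (h1 : p ≤ 1) {N : ℕ} (hN : 2 ≤ N) :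
    eps p (2 * N) ≤ 25 * (eps p N)^2 := by
  have hN' : (2:ℤ) ≤ N := by exact_mod_cast hN
  have hlong := long_cross h0 h1 hN
  set n : ℤ := (N:ℤ) with hn
  set S := LRE 0 (4 * n) 0 (2 * n - 1) with hS
  have ok := okq h0 h1
  have s1 : LRE 0 (4 * n) 0 (n - 1) ⊆ S := by
    rintro ⟨x, y, _ | _⟩ h
    · simp only [hS, mem_LRE_false] at h ⊢; omega
    · simp only [hS, mem_LRE_true] at h ⊢; omega
  have s2 : LRE 0 (4 * n) n (2 * n - 1) ⊆ S := by
    rintro ⟨x, y, _ | _⟩ h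
    · simp only [hS, mem_LRE_false] at h ⊢; omega
    · simp only [hS, mem_LRE_true] at h ⊢; omega
  have hd : Disjoint (LRE 0 (4 * n) 0 (n - 1)) (LRE 0 (4 * n) n (2 * n - 1)) := by
    rw [Finset.disjoint_left]
    rintro ⟨x, y, _ | _⟩ h h'
    · simp only [mem_LRE_false] at h h'; omega
    · simp only [mem_LRE_true] at h h'; omega
  have e1 : Pr (fun _ => p) S (LRc 0 (4 * n) 0 (n - 1)) = hh p (4 * n) (n - 1) := by
    rw [pr_LRc p s1]; simp
  have e2 : Pr (fun _ => p) S (LRc 0 (4 * n) n (2 * n - 1)) = hh p (4 * n) (n - 1) := by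
    rw [pr_LRc p s2]
    have : 2 * n - 1 - n = n - 1 := by ring
    rw [this]; simp
  have e3 : Pr (fun _ => p) S (LRc 0 (4 * n) 0 (2 * n - 1)) = hh p (4 * n) (2 * n - 1) := by
    rw [pr_LRc p (Finset.Subset.refl _)]; simp
  have i1 := Pr_indep (p := fun _ => p) s1 s2 hd (A := fun F => ¬ LRc 0 (4 * n) 0 (n - 1) F)
    (B := fun F => ¬ LRc 0 (4 * n) n (2 * n - 1) F)
    (fun F _ => not_congr (LRc_local (Finset.Subset.refl _)))
    (fun F _ => not_congr (LRc_local (Finset.Subset.refl _)))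
  have i2 : Pr (fun _ => p) S (fun F => ¬ LRc 0 (4 * n) 0 (2 * n - 1) F) ≤
      Pr (fun _ => p) S (fun F => ¬ LRc 0 (4 * n) 0 (n - 1) F ∧
        ¬ LRc 0 (4 * n) n (2 * n - 1) F) := by
    apply Pr_mono ok
    intro F _ h
    constructor
    · intro h'
      exact h (LRc_sub le_rfl (by omega) le_rfl le_rfl (by omega) h')
    · intro h'
      exact h (LRc_sub le_rfl (by omega) le_rfl (by omega) le_rfl h')
  rw [i1, Pr_not, Pr_not, Pr_not, e1, e2, e3] at i2
  have hnn : 0 ≤ 1 - hh p (4 * n) (n - 1) := by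
    have := hh_le_one h0 h1 (4 * n) (n - 1)
    linarith
  have i3 : (1 - hh p (4 * n) (n - 1)) * (1 - hh p (4 * n) (n - 1)) ≤
      (5 * eps p N) * (5 * eps p N) := mul_le_mul hlong hlong hnn (hnn.trans hlong)
  have e4 : eps p (2 * N) = 1 - hh p (4 * n) (2 * n - 1) := by
    unfold eps
    push_cast
    rw [← hn]
    congr 2
    ring
  rw [e4]
  nlinarith

theorem eps_nonneg {p : ℝ} (h0 : 0 ≤ p) (h1 : p ≤ 1) (N : ℕ) : 0 ≤ eps p N := by
  unfold eps
  have := hh_le_one h0 h1 (2 * N) (N - 1)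
  linarith

theorem eps_pow {p : ℝ} (h0 : 0 ≤ p) (h1 : p ≤ 1) {N : ℕ} (hN : 2 ≤ N)
    (he : eps p N ≤ 1/100) (j : ℕ) : 25 * eps p (2^j * N) ≤ (1/4)^(j + 1) := by
  induction j with
  | zero => simp; linarith
  | succ j ih =>
    have hN2 : 2 ≤ 2^j * N := le_trans hN (Nat.le_mul_of_pos_left _ (by positivity))
    have h := eps_double h0 h1 hN2
    have e : 2^(j+1) * N = 2 * (2^j * N) := by ring
    rw [e]
    have h2 := eps_nonneg h0 h1 (2^j * N)
    have h3 : (1/4 : ℝ)^(j + 1) ≤ 1/4 := by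
      rw [pow_succ]
      have : (1/4 : ℝ)^j ≤ 1 := pow_le_one₀ (by norm_num) (by norm_num)
      linarith
    have h4 : (25 * eps p (2^j * N)) * (25 * eps p (2^j * N)) ≤
        (1/4 : ℝ)^(j + 1) * (1/4) := mul_le_mul ih (ih.trans h3) (by positivity) (by positivity)
    rw [pow_succ (1/4 : ℝ) (j + 1)]
    nlinarith

/-- The crossing used at step `j` of the chain. -/
def Step (N : ℕ) (j : ℕ) (F : Finset Edg) : Prop :=
  if Even j then LRc 0 (2 * (2^j * N : ℕ)) 0 ((2^j * N : ℕ) - 1) F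
  else TBc 0 ((2^j * N : ℕ) - 1) 0 (2 * (2^j * N : ℕ)) F

theorem Step.mono {N j : ℕ} {F G : Finset Edg} (h : F ⊆ G) (hF : Step N j F) : Step N j G := by
  unfold Step at *
  split_ifs at * with hj
  · exact LRc.mono h hF
  · exact TBc.mono h hF

/-- Far end of the crossing at step `j`. -/
def FarPt (N : ℕ) (j : ℕ) (v : Vtx) : Prop :=
  inR 0 (2 * (2^j * N : ℕ)) 0 (2 * (2^j * N : ℕ)) v ∧
    (v.1 = 2 * (2^j * N : ℕ) ∨ v.2 = 2 * (2^j * N : ℕ))

/-- All the crossings of the chain are connected together. -/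
theorem chain_conn {N : ℕ} (hN : 2 ≤ N) {F : Finset Edg} {z : Vtx}
    (hz : ∀ u v : Vtx, inR (-N) N (-N) N u →
      (v.1 = -(2 * N : ℕ) ∨ v.1 = (2 * N : ℕ) ∨ v.2 = -(2 * N : ℕ) ∨ v.2 = (2 * N : ℕ)) →
      Reach (↑F ∩ ↑(boxE (2 * N))) u v → Reach (↑F ∩ ↑(boxE (2 * N))) u z) (J : ℕ)
    (h : ∀ j ≤ J, Step N j F) :
    ∃ a v : Vtx, FarPt N J v ∧ Reach (↑F ∩ ↑(boxE (2 * (2^J * N)))) z a ∧
      (if Even J then (a.1 = 0 ∧ v.1 = 2 * (2^J * N : ℕ) ∧
        Reach (↑F ∩ ↑(RE 0 (2 * (2^J * N : ℕ)) 0 ((2^J * N : ℕ) - 1))) a v)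
      else (a.2 = 0 ∧ v.2 = 2 * (2^J * N : ℕ) ∧
        Reach (↑F ∩ ↑(RE 0 ((2^J * N : ℕ) - 1) 0 (2 * (2^J * N : ℕ)))) a v)) := by
  have hN' : (2:ℤ) ≤ N := by exact_mod_cast hN
  induction J with
  | zero =>
    have h0 := h 0 le_rfl
    unfold Step at h0
    simp only [Even.zero, if_true, pow_zero, one_mul] at h0
    obtain ⟨y, y', hy, hy', hr⟩ := h0
    have hr' : Reach ((↑F : Set Edg) ∩ ↑(RE 0 (2 * (N:ℤ)) 0 (N - 1))) (0, y) (2 * (N:ℤ), y') :=
      hr.mono (Set.inter_subset_inter_right _ (by exact_mod_cast LRE_subset_RE))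
    have hsub : (↑F : Set Edg) ∩ ↑(RE 0 (2 * (N:ℤ)) 0 (N - 1)) ⊆ ↑F ∩ ↑(boxE (2 * N)) := by
      apply Set.inter_subset_inter_right
      have : RE 0 (2 * (N:ℤ)) 0 (N - 1) ⊆ boxE (2 * N) := by
        unfold boxE
        push_cast
        exact RE_subset (by omega) (by omega) (by omega) (by omega)
      exact_mod_cast this
    have hr'' := hr'.mono hsub
    have hzz := hz (0, y) (2 * (N:ℤ), y') (by unfold inR; simp only; omega)
      (by right; left; push_cast; ring) hr''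
    refine ⟨(0, y), (2 * (N:ℤ), y'), ?_, ?_, ?_⟩
    · refine ⟨?_, Or.inl ?_⟩
      · unfold inR
        simp only [pow_zero, one_mul]
        omega
      · simp only [pow_zero, one_mul]
    · simpa only [pow_zero, one_mul] using hzz.symm
    · simp only [Even.zero, if_true, pow_zero, one_mul]
      exact ⟨trivial, trivial, hr'⟩
  | succ J ih =>
    obtain ⟨a, v, hv, hza, hst⟩ := ih (fun j hj => h j (by omega))
    have hJ := h (J + 1) le_rfl
    unfold Step at hJ
    set M : ℕ := 2^J * N with hM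
    have hM2 : 2 ≤ M := le_trans hN (Nat.le_mul_of_pos_left _ (by positivity))
    have hM' : (2:ℤ) ≤ M := by exact_mod_cast hM2
    have e1 : 2^(J+1) * N = 2 * M := by rw [hM]; ring
    rw [e1] at hJ
    rw [e1]
    have hbox : boxE (2 * M) ⊆ boxE (2 * (2 * M)) := boxE_mono (by omega)
    by_cases hev : Even J
    · have hodd : ¬ Even (J + 1) := by
        rw [Nat.even_add_one]; exact not_not.mpr hev
      rw [if_neg hodd] at hJ
      rw [if_pos hev] at hst
      obtain ⟨ha1, hv1, hav⟩ := hst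
      obtain ⟨x, x', hx, hx', hr⟩ := hJ
      push_cast at hx hx' hr
      have hr' : Reach ((↑F : Set Edg) ∩ ↑(RE 0 (2 * (M:ℤ) - 1) 0 (2 * (2 * (M:ℤ))))) (x, 0)
          (x', 2 * (2 * (M:ℤ))) :=
        hr.mono (Set.inter_subset_inter_right _ (by exact_mod_cast TBE_subset_RE))
      have m : Reach ((↑F : Set Edg) ∩ ↑(RE 0 (2 * (M:ℤ)) 0 (2 * (2 * (M:ℤ))))) a (x, 0) :=
        cross_meet (F := ↑F) (A := 0) (B := 2 * (M:ℤ)) (C := 0) (D := 2 * (2 * (M:ℤ))) (a := 0)
          (b := 2 * (M:ℤ) - 1) (c := 0) (d := (M:ℤ) - 1) le_rfl (by omega) (by omega) le_rfl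
          (by omega) (by omega) hav ha1.le (by omega) hr' le_rfl (by simp only; omega)
      refine ⟨(x, 0), (x', 2 * (2 * (M:ℤ))), ?_, ?_, ?_⟩
      · refine ⟨?_, Or.inr ?_⟩
        · rw [e1]
          unfold inR
          push_cast
          omega
        · rw [e1]
          push_cast
          ring
      · refine (hza.mono (Set.inter_subset_inter_right _ (by exact_mod_cast hbox))).trans
          (m.mono (Set.inter_subset_inter_right _ ?_))
        have : RE 0 (2 * (M:ℤ)) 0 (2 * (2 * (M:ℤ))) ⊆ boxE (2 * (2 * M)) := by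
          unfold boxE
          push_cast
          exact RE_subset (by omega) (by omega) (by omega) (by omega)
        exact_mod_cast this
      · rw [if_neg hodd]
        refine ⟨rfl, by push_cast; ring, ?_⟩
        push_cast
        exact hr'
    · have heven : Even (J + 1) := by
        rw [Nat.even_add_one]; exact hev
      rw [if_pos heven] at hJ
      rw [if_neg hev] at hst
      obtain ⟨ha1, hv1, hav⟩ := hst
      obtain ⟨x, x', hx, hx', hr⟩ := hJ
      push_cast at hx hx' hr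
      have hr' : Reach ((↑F : Set Edg) ∩ ↑(RE 0 (2 * (2 * (M:ℤ))) 0 (2 * (M:ℤ) - 1))) (0, x)
          (2 * (2 * (M:ℤ)), x') :=
        hr.mono (Set.inter_subset_inter_right _ (by exact_mod_cast LRE_subset_RE))
      have m : Reach ((↑F : Set Edg) ∩ ↑(RE 0 (2 * (2 * (M:ℤ))) 0 (2 * (M:ℤ)))) (0, x) a :=
        cross_meet (F := ↑F) (A := 0) (B := 2 * (2 * (M:ℤ))) (C := 0) (D := 2 * (M:ℤ)) (a := 0)
          (b := (M:ℤ) - 1) (c := 0) (d := 2 * (M:ℤ) - 1) le_rfl (by omega) (by omega) le_rfl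
          (by omega) (by omega) hr' le_rfl (by simp only; omega) hav ha1.le (by omega)
      refine ⟨(0, x), (2 * (2 * (M:ℤ)), x'), ?_, ?_, ?_⟩
      · refine ⟨?_, Or.inl ?_⟩
        · rw [e1]
          unfold inR
          push_cast
          omega
        · rw [e1]
          push_cast
          ring
      · refine (hza.mono (Set.inter_subset_inter_right _ (by exact_mod_cast hbox))).trans
          (m.symm.mono (Set.inter_subset_inter_right _ ?_))
        have : RE 0 (2 * (2 * (M:ℤ))) 0 (2 * (M:ℤ)) ⊆ boxE (2 * (2 * M)) := by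
          unfold boxE
          push_cast
          exact RE_subset (by omega) (by omega) (by omega) (by omega)
        exact_mod_cast this
      · rw [if_pos heven]
        refine ⟨rfl, by push_cast; ring, ?_⟩
        push_cast
        exact hr'

end H974
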