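import Pool.Agent.H974R2.Diff

/-!
Integration of the differential inequality.
-/

set_option maxHeartbeats 400000

namespace H974

open Finset

theorem SS_pos {q : ℝ} (h0 : 0 ≤ q) (h1 : q ≤ 1) (n : ℕ) : 1 ≤ SS q n := by
  unfold SS
  have : arm q 0 ≤ ∑ r ∈ Finset.range (n + 1), arm q r :=
    Finset.single_le_sum (f := fun r => arm q r) (fun r _ => arm_nonneg h0 h1 r)
      (Finset.mem_range.mpr (Nat.succ_pos n))
  rwa [arm_zero] at this

theorem SS_mono_param {p q : ℝ} (h0 : 0 ≤ p) (hpq : p ≤ q) (h1 : q ≤ 1) (n : ℕ) :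
    SS p n ≤ SS q n := Finset.sum_le_sum (fun r _ => arm_mono_param h0 hpq h1 r)

theorem SS_mono {q : ℝ} (h0 : 0 ≤ q) (h1 : q ≤ 1) {n m : ℕ} (h : n ≤ m) : SS q n ≤ SS q m := by
  unfold SS
  apply Finset.sum_le_sum_of_subset_of_nonneg
  · intro r hr
    rw [Finset.mem_range] at hr ⊢
    omega
  · intro r _ _
    exact arm_nonneg h0 h1 r

theorem SS_double {q : ℝ} (h0 : 0 ≤ q) (h1 : q ≤ 1) (n : ℕ) : SS q (2 * n) ≤ 2 * SS q n := by
  unfold SS
  have e1 : 2 * n + 1 = (n + 1) + n := by ring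
  rw [e1, Finset.sum_range_add]
  have : ∑ x ∈ Finset.range n, arm q (n + 1 + x) ≤ ∑ r ∈ Finset.range (n + 1), arm q r := by
    calc ∑ x ∈ Finset.range n, arm q (n + 1 + x) ≤ ∑ x ∈ Finset.range n, arm q x :=
          Finset.sum_le_sum (fun x _ => arm_anti h0 h1 (by omega))
      _ ≤ _ := by
          apply Finset.sum_le_sum_of_subset_of_nonneg
          · intro r hr
            rw [Finset.mem_range] at hr ⊢
            omega
          · intro r _ _
            exact arm_nonneg h0 h1 r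
  linarith

theorem dh_nonneg {q : ℝ} (h0 : 0 ≤ q) (h1 : q ≤ 1) (w h : ℤ) : 0 ≤ dh q w h := by
  unfold dh
  apply Finset.sum_nonneg
  intro e _
  apply Ex_nonneg (okq h0 h1)
  intro F _
  have : ind (LRc 0 w 0 h F) ≤ ind (LRc 0 w 0 h (insert e F)) :=
    ind_mono (fun h => h.mono (Finset.subset_insert _ _))
  linarith

theorem cross_bound {p : ℝ} (hp : 1/2 ≤ p) (hp1 : p ≤ 1) {w H : ℕ} (hw : 0 < w) {c0 : ℝ}
    (hc0 : 0 < c0) (hc : c0 ≤ hh (1/2) w H) :
    1 - hh p w H ≤ 1 / c0 * Real.exp (-((((w:ℝ) + 1) * ((H:ℝ) + 1) /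
      (4 * (SS p w * SS p (H + 1)))) * (p - 1/2))) := by
  set lam : ℝ := ((w:ℝ) + 1) * ((H:ℝ) + 1) / (4 * (SS p w * SS p (H + 1))) with hlam
  have hS1 := SS_pos (by linarith) hp1 w
  have hS2 := SS_pos (by linarith) hp1 (H + 1)
  have hden : 0 < 4 * (SS p w * SS p (H + 1)) := by positivity
  have hpos : ∀ q, 1/2 ≤ q → q ≤ p → 0 < hh q w H := fun q h1 h2 =>
    lt_of_lt_of_le hc0 (hc.trans (hh_mono_param (by norm_num) h1 (by linarith) _ _))
  have hderiv : ∀ q, 1/2 ≤ q → q ≤ p → lam * (hh q w H * (1 - hh q w H)) ≤ dh q w H := by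
    intro q h1 h2
    have hq0 : 0 ≤ q := by linarith
    have hq1 : q ≤ 1 := by linarith
    have d := diff_ineq hq0 hq1 (w := w) (H := H) hw
    have dn := dh_nonneg hq0 hq1 (w:ℤ) (H:ℤ)
    have a1 : SS q w ≤ SS p w := SS_mono_param hq0 h2 hp1 w
    have a2 : SS (1 - q) (H + 1) ≤ SS p (H + 1) := SS_mono_param (by linarith) (by linarith) hp1 _
    have a3 : 1 ≤ SS (1 - q) (H + 1) := SS_pos (by linarith) (by linarith) _
    have a4 : 1 ≤ SS q w := SS_pos hq0 hq1 _
    have a5 : SS q w * SS (1 - q) (H + 1) ≤ SS p w * SS p (H + 1) :=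
      mul_le_mul a1 a2 (by linarith) (by linarith)
    have a6 : q * (1 - q) ≤ 1/4 := by nlinarith [sq_nonneg (q - 1/2)]
    have a7 : q * (1 - q) * dh q w H ≤ 1/4 * dh q w H := mul_le_mul_of_nonneg_right a6 dn
    have a8 : 0 ≤ q * (1 - q) * dh q w H := mul_nonneg (mul_nonneg hq0 (by linarith)) dn
    have a9 : 16 * (SS q w * SS (1 - q) (H + 1)) * (q * (1 - q) * dh q w H) ≤
        16 * (SS p w * SS p (H + 1)) * (1/4 * dh q w H) := by
      apply mul_le_mul _ a7 a8 (by positivity)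
      linarith
    have a10 : ((w:ℝ) + 1) * ((H:ℝ) + 1) * (hh q w H * (1 - hh q w H)) ≤
        (4 * (SS p w * SS p (H + 1))) * dh q w H := by linarith
    rw [hlam, div_mul_eq_mul_div, div_le_iff₀ hden]
    linarith
  set φ : ℝ → ℝ := fun q => (1 - hh q w H) / hh q w H * Real.exp (lam * q) with hφ
  have hd : ∀ q, 1/2 ≤ q → q ≤ p → HasDerivAt φ
      (((-dh q w H) * hh q w H - (1 - hh q w H) * dh q w H) / (hh q w H)^2 * Real.exp (lam * q) +
        (1 - hh q w H) / hh q w H * (Real.exp (lam * q) * lam)) q := by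
    intro q h1 h2
    have e1 := hh_hasDerivAt q (w:ℤ) (H:ℤ)
    have e2 : HasDerivAt (fun q => 1 - hh q (w:ℤ) (H:ℤ)) (-dh q w H) q :=
      e1.const_sub 1
    have e3 := e2.div e1 (hpos q h1 h2).ne'
    have e4 : HasDerivAt (fun q => Real.exp (lam * q)) (Real.exp (lam * q) * lam) q := by
      have := ((hasDerivAt_id q).const_mul lam).exp
      simpa using this
    exact e3.mul e4
  have hanti : AntitoneOn φ (Set.Icc (1/2) p) := by
    apply antitoneOn_of_deriv_nonpos (convex_Icc _ _)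
    · intro q hq
      exact (hd q hq.1 hq.2).continuousAt.continuousWithinAt
    · intro q hq
      rw [interior_Icc] at hq
      exact (hd q hq.1.le hq.2.le).differentiableAt.differentiableWithinAt
    · intro q hq
      rw [interior_Icc] at hq
      rw [(hd q hq.1.le hq.2.le).deriv]
      have k1 := hderiv q hq.1.le hq.2.le
      have k2 := hpos q hq.1.le hq.2.le
      have k3 := Real.exp_pos (lam * q)
      have k4 : ((-dh q w H) * hh q w H - (1 - hh q w H) * dh q w H) / (hh q w H)^2 *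
          Real.exp (lam * q) + (1 - hh q w H) / hh q w H * (Real.exp (lam * q) * lam)
          = Real.exp (lam * q) / (hh q w H)^2 *
            (lam * (hh q w H * (1 - hh q w H)) - dh q w H) := by
        field_simp
        ring
      rw [k4]
      apply mul_nonpos_of_nonneg_of_nonpos
      · positivity
      · linarith
  have hfin := hanti (Set.left_mem_Icc.mpr hp) (Set.right_mem_Icc.mpr hp) hp
  simp only [hφ] at hfin
  have hP := hpos p hp le_rfl
  have hPle := hh_le_one (q := p) (by linarith) hp1 (w:ℤ) (H:ℤ)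
  have hH := hpos (1/2) le_rfl hp
  have b1 : (1 - hh (1/2) w H) / hh (1/2) w H ≤ 1 / c0 := by
    apply div_le_div₀ (by norm_num) (by linarith) hc0 hc
  have b2 : 1 - hh p w H ≤ (1 - hh p w H) / hh p w H := by
    rw [le_div_iff₀ hP]
    nlinarith
  have b3 : (1 - hh p w H) / hh p w H ≤ 1 / c0 * Real.exp (lam * (1/2)) / Real.exp (lam * p) := by
    rw [le_div_iff₀ (Real.exp_pos _)]
    refine hfin.trans ?_
    exact mul_le_mul_of_nonneg_right b1 (Real.exp_pos _).le
  have b4 : 1 / c0 * Real.exp (lam * (1/2)) / Real.exp (lam * p)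
      = 1 / c0 * Real.exp (-(lam * (p - 1/2))) := by
    rw [mul_div_assoc, ← Real.exp_sub]
    congr 2
    ring
  rw [b4] at b3
  linarith

end H974
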