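import Pool.Agent.H974R2.Hyb

/-!
Near-critical stability of the one-arm probability below the critical point.
-/

set_option maxHeartbeats 400000

namespace H974

open Finset

attribute [local irreducible] hbr boxE kap rho aK

/-- The stability window. -/
def Win (p : ℝ) (K : ℕ) : Prop :=
  2 * 10^7 / kap^4 * ((64 * rho K : ℕ) : ℝ) * aK K * (1/2 - p) ≤ 1

theorem Win.up {p : ℝ} (hp : p ≤ 1/2) {K : ℕ} (h : Win p K) :
    5 * 10^6 / kap^4 * ((64 * rho K : ℕ) : ℝ) * aK K * ((1 - p) - 1/2) ≤ 1 := by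
  unfold Win at h
  have haK := aK_pos K
  have hk := kap_pos
  have h1 : 0 ≤ ((64 * rho K : ℕ) : ℝ) := Nat.cast_nonneg _
  have h2 : 0 ≤ 1 / kap^4 * ((64 * rho K : ℕ) : ℝ) * aK K * (1/2 - p) := by
    have : 0 ≤ 1/2 - p := by linarith
    positivity
  have e1 : 5 * 10^6 / kap^4 * ((64 * rho K : ℕ) : ℝ) * aK K * ((1 - p) - 1/2) =
      5 * 10^6 * (1 / kap^4 * ((64 * rho K : ℕ) : ℝ) * aK K * (1/2 - p)) := by ring
  have e2 : 2 * 10^7 / kap^4 * ((64 * rho K : ℕ) : ℝ) * aK K * (1/2 - p) =
      2 * 10^7 * (1 / kap^4 * ((64 * rho K : ℕ) : ℝ) * aK K * (1/2 - p)) := by ring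
  rw [e1]
  rw [e2] at h
  linarith

/-- Upper bound for the one-arm probabilities above the critical point. -/
theorem arm_up {p : ℝ} (hp : 1/4 ≤ p) (hp1 : p ≤ 1/2) {K : ℕ} (h : Win p K) {r : ℕ} (hr : 0 < r)
    (hrm : r ≤ 16 * rho K) :
    Real.sqrt r * arm (1 - p) r ≤ 28 / kap * Real.sqrt ((64 * rho K : ℕ) : ℝ) * aK K := by
  have h1 := A_up (q := 1 - p) (by linarith) (by linarith) (h.up hp1)
  have ok : Ok (hbr (1 - p) (16 * rho K)) := hbr_ok (by linarith) (by linarith) _
  have h2 := armP_ratio' ok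
    (fun e => (hbr_bd (a := 1/2) (b := 1) le_rfl (by norm_num) (by linarith) (by linarith)
      (16 * rho K) e).1) (r := r) (n := 64 * rho K) hr (by omega)
  rw [armP_hbr hrm] at h2
  have hk := kap_pos
  calc Real.sqrt r * arm (1 - p) r
      ≤ 7 / kap * Real.sqrt ((64 * rho K : ℕ) : ℝ) *
        armP (hbr (1 - p) (16 * rho K)) (64 * rho K) := h2
    _ ≤ 7 / kap * Real.sqrt ((64 * rho K : ℕ) : ℝ) * (4 * aK K) :=
        mul_le_mul_of_nonneg_left h1 (by positivity)
    _ = _ := by ring

/-- The corresponding bound at the critical point. -/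
theorem arm_crit {K : ℕ} {r : ℕ} (hr : 0 < r) (hrm : r ≤ 64 * rho K) :
    Real.sqrt r * arm (1/2) r ≤ 7 / kap * Real.sqrt ((64 * rho K : ℕ) : ℝ) * aK K := by
  have h2 := armP_ratio' okhalf (fun e => le_rfl) (r := r) (n := 64 * rho K) hr hrm
  have e0 : armP (fun _ => 1/2) (64 * rho K) = aK K := by unfold aK; rfl
  rw [e0] at h2
  exact h2

theorem dA_down {p q : ℝ} (hp : 1/4 ≤ p) (hpq : p ≤ q) (hq : q ≤ 1/2) {K : ℕ} (h : Win p K) :
    dA q (16 * rho K) (64 * rho K) ≤
      10^7 / kap^4 * ((64 * rho K : ℕ) : ℝ) * aK K * aK K := by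
  set P := hbr q (16 * rho K) with hP
  set n := ((64 * rho K : ℕ) : ℝ) with hn
  have hk := kap_pos
  have hk1 := kap_le
  have hb : ∀ e, q ≤ P e ∧ P e ≤ 1/2 := fun e => hbr_bd hq le_rfl le_rfl hq _ e
  have ok : Ok P := hbr_ok (by linarith) (by linarith) _
  have haK := aK_pos K
  have hn0 : 0 ≤ n := Nat.cast_nonneg _
  have hrK := rho_pos K
  have hsn : Real.sqrt n * Real.sqrt n = n := Real.mul_self_sqrt hn0
  have hAle : armP P (64 * rho K) ≤ aK K := by
    have := armP_mono_param ok okhalf (fun e => (hb e).2) (64 * rho K)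
    have e0 : armP (fun _ => 1/2) (64 * rho K) = aK K := by unfold aK; rfl
    rw [e0] at this
    exact this
  have hX : ∀ j < K, armP P (11 * rho j) * barmP P (37 * rho j) (64 * rho K) ≤
      18 / kap^2 * aK K := by
    intro j hj
    have hr := rho_lt hj
    have hr5 := rho_pos j
    have h0 := glue_mid okhalf (fun e => le_rfl) (ρ := rho j) (n := 64 * rho K) (by omega)
      (by omega)
    have e0 : armP (fun _ => 1/2) (64 * rho K) = aK K := by unfold aK; rfl
    rw [e0] at h0
    have h1 := armP_mono_param ok okhalf (fun e => (hb e).2) (11 * rho j)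
    have h2 := barmP_mono_param ok okhalf (fun e => (hb e).2) (37 * rho j) (64 * rho K)
    have h3 := mul_le_mul h1 h2 (barmP_nonneg ok _ _) (armP_nonneg okhalf _)
    refine h3.trans ?_
    rw [div_mul_eq_mul_div, le_div_iff₀ (by positivity)]
    linarith
  have hY : ∀ j < K, Real.sqrt (rho j) * Real.sqrt (arm (1/2) (rho j) * arm (1 - p) (rho j)) ≤
      14 / kap * Real.sqrt n * aK K := by
    intro j hj
    have hr := rho_lt hj
    have hr5 := rho_pos j
    have h1 := arm_crit (K := K) (r := rho j) (by omega) (by omega)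
    have h2 := arm_up hp (hpq.trans hq) h (r := rho j) (by omega) (by omega)
    have h3 := sqrt_prod_le (arm_nonneg (by norm_num) (by norm_num) _)
      (arm_nonneg (by linarith) (by linarith) _) h1 h2
    refine h3.trans (le_of_eq ?_)
    rw [← hn]
    have e1 : 7 / kap * Real.sqrt n * aK K * (28 / kap * Real.sqrt n * aK K) =
        (14 / kap * Real.sqrt n * aK K)^2 := by ring
    rw [e1, Real.sqrt_sq (by positivity)]
  have hZ : ∀ e ∈ boxE 80, Pr P ((boxE (64 * rho K)).erase e) (PivA (64 * rho K) e) ≤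
      4 * aK K := by
    intro e he
    have h0 := piv_le ok (n := 64 * rho K) (boxE_mono (n := 80) (m := 64 * rho K) (by omega) he)
    have h2 : 1/4 ≤ P e := by linarith [(hb e).1]
    have h3 : 0 ≤ Pr P ((boxE (64 * rho K)).erase e) (PivA (64 * rho K) e) := Pr_nonneg ok _ _
    nlinarith
  have hmain := piv_sum (P := P) (q1 := 1/2) (q2 := 1 - p)
    (fun e => ⟨by linarith [(hb e).1], by linarith [(hb e).2]⟩) (Or.inl (fun e => (hb e).2))
    (fun e => (hb e).2) (fun e => by linarith [(hb e).1]) (by norm_num) (by linarith)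
    (K := K) (X := 18 / kap^2 * aK K) (Y := 14 / kap * Real.sqrt n * aK K)
    (Z := 4 * aK K) (by positivity) (by positivity) (by positivity) hX hY hZ
  unfold dA
  rw [← hP]
  refine hmain.trans ?_
  rw [← hn]
  have e2 : 35937 / kap * (18 / kap^2 * aK K * (14 / kap * Real.sqrt n * aK K) * Real.sqrt n) =
      9056124 / kap^4 * n * aK K * aK K := by
    have : 35937 / kap * (18 / kap^2 * aK K * (14 / kap * Real.sqrt n * aK K) * Real.sqrt n) =
      35937 / kap * (18 / kap^2) * (14 / kap) * (Real.sqrt n * Real.sqrt n) * aK K * aK K := by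
      ring
    rw [this, hsn]
    field_simp
    ring
  rw [e2]
  have h8 : 4 ≤ n * aK K := naK_ge K
  have h5 : 4 * aK K ≤ n * aK K * aK K := mul_le_mul_of_nonneg_right h8 haK.le
  have hW0 : 0 ≤ n * aK K * aK K := by positivity
  have hk4 : 1 ≤ 1 / kap^4 := by
    rw [le_div_iff₀ (by positivity), one_mul]
    exact pow_le_one₀ hk.le hk1
  have h10 : 51842 * (4 * aK K) ≤ 943876 / kap^4 * n * aK K * aK K := by
    calc 51842 * (4 * aK K) ≤ 943876 * (1 * (n * aK K * aK K)) := by linarith
      _ ≤ 943876 * (1 / kap^4 * (n * aK K * aK K)) := by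
          apply mul_le_mul_of_nonneg_left _ (by norm_num)
          exact mul_le_mul_of_nonneg_right hk4 hW0
      _ = _ := by ring
  have e3 : 10^7 / kap^4 * n * aK K * aK K =
      943876 / kap^4 * n * aK K * aK K + 9056124 / kap^4 * n * aK K * aK K := by ring
  rw [e3]
  linarith

/-- Lower bound for the one-arm probability below the critical point. -/
theorem A_down {p : ℝ} (hp : 1/4 ≤ p) (hp1 : p ≤ 1/2) {K : ℕ} (h : Win p K) :
    aK K / 2 ≤ arm p (16 * rho K) := by
  have haK := aK_pos K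
  have hk := kap_pos
  set C := 10^7 / kap^4 * ((64 * rho K : ℕ) : ℝ) * aK K * aK K with hC
  have hder : ∀ x, p ≤ x → x ≤ 1/2 → HasDerivAt (fun x => C * x -
      armP (hbr x (16 * rho K)) (64 * rho K)) (C * 1 - dA x (16 * rho K) (64 * rho K)) x := by
    intro x _ _
    exact ((hasDerivAt_id x).const_mul _).sub (A_hasDerivAt x (by omega))
  have hmono := mono_of_hasDerivAt hp1 hder (by
    intro x h1 h2
    have h3 := dA_down hp h1 h2 h
    rw [← hC] at h3
    linarith)
  rw [hbr_half] at hmono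
  have e0 : armP (fun _ => 1/2) (64 * rho K) = aK K := by unfold aK; rfl
  rw [e0] at hmono
  have h5 : armP (hbr p (16 * rho K)) (64 * rho K) ≤ arm p (16 * rho K) := by
    rw [← armP_hbr (q := p) (m := 16 * rho K) (r := 16 * rho K) le_rfl]
    exact armP_anti (hbr_ok (by linarith) (by linarith) _) (by omega)
  have h6 : C * (1/2 - p) ≤ aK K / 2 := by
    unfold Win at h
    have h7 := mul_le_mul_of_nonneg_right h haK.le
    have e3 : 2 * 10^7 / kap^4 * ((64 * rho K : ℕ) : ℝ) * aK K * (1/2 - p) * aK K =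
        2 * (C * (1/2 - p)) := by rw [hC]; ring
    rw [e3] at h7
    linarith
  linarith

end H974
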