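import Pool.Agent.H974R2.Basic

/-!
The inequality of O'Donnell, Saks, Schramm and Servedio for decision trees.
-/

namespace H974

open Finset

variable {E : Type*} [DecidableEq E]

/-- Decision trees: `node e T1 T0` looks at `e` and continues with `T1` if `e` is present and
with `T0` otherwise. -/
inductive DT (E : Type*) where
  | leaf : DT E
  | node : E → DT E → DT E → DT E

/-- The set of revealed elements. -/
def DT.rev : DT E → Finset E → Finset E
  | DT.leaf, _ => ∅
  | DT.node e T1 T0, F => insert e (if e ∈ F then T1.rev F else T0.rev F)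

/-- The tree looks at elements of `S` only, and at each at most once. -/
def DT.Valid : DT E → Finset E → Prop
  | DT.leaf, _ => True
  | DT.node e T1 T0, S => e ∈ S ∧ T1.Valid (S.erase e) ∧ T0.Valid (S.erase e)

theorem DT.rev_subset : ∀ (T : DT E) (S : Finset E), T.Valid S → ∀ F, T.rev F ⊆ S
  | DT.leaf, S, _, F => by simp [DT.rev]
  | DT.node e T1 T0, S, h, F => by
    obtain ⟨he, h1, h0⟩ := h
    have i1 := DT.rev_subset T1 _ h1 F
    have i0 := DT.rev_subset T0 _ h0 F
    unfold DT.rev
    apply Finset.insert_subset he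
    split_ifs
    · exact i1.trans (Finset.erase_subset _ _)
    · exact i0.trans (Finset.erase_subset _ _)

theorem DT.rev_congr : ∀ (T : DT E) (S : Finset E), T.Valid S → ∀ F F', F ∩ S = F' ∩ S →
    T.rev F = T.rev F'
  | DT.leaf, S, _, F, F', _ => by simp [DT.rev]
  | DT.node e T1 T0, S, h, F, F', hF => by
    obtain ⟨he, h1, h0⟩ := h
    have hsub : F ∩ S.erase e = F' ∩ S.erase e := by
      ext x
      have := Finset.ext_iff.mp hF x
      simp only [Finset.mem_inter, Finset.mem_erase] at this ⊢
      tauto
    have i1 := DT.rev_congr T1 _ h1 F F' hsub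
    have i0 := DT.rev_congr T0 _ h0 F F' hsub
    have hm : e ∈ F ↔ e ∈ F' := by
      have := Finset.ext_iff.mp hF e
      simp only [Finset.mem_inter] at this
      tauto
    unfold DT.rev
    rw [i1, i0]
    by_cases hc : e ∈ F
    · rw [if_pos hc, if_pos (hm.mp hc)]
    · rw [if_neg hc, if_neg (fun h => hc (hm.mpr h))]

/-- The hybrid configuration. -/
def hyb (T : DT E) (F F' : Finset E) : Finset E := (F ∩ T.rev F) ∪ (F' \ T.rev F)

theorem hyb_subset {T : DT E} {S F F' : Finset E} (h1 : F ⊆ S) (h2 : F' ⊆ S) :
    hyb T F F' ⊆ S := by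
  unfold hyb
  exact Finset.union_subset (Finset.inter_subset_left.trans h1) (Finset.sdiff_subset.trans h2)

theorem hyb_node_open {e : E} {T1 T0 : DT E} {S' F1 F' : Finset E} (he : e ∉ S')
    (hT1 : T1.Valid S') :
    hyb (DT.node e T1 T0) (insert e F1) F' = insert e (hyb T1 F1 (F'.erase e)) := by
  have hr : T1.rev (insert e F1) = T1.rev F1 := by
    apply DT.rev_congr T1 S' hT1
    rw [Finset.insert_inter_of_notMem he]
  have hR : e ∉ T1.rev F1 := fun h => he (DT.rev_subset T1 S' hT1 F1 h)
  unfold hyb
  simp only [DT.rev, Finset.mem_insert_self, if_true, hr]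
  ext x
  simp only [Finset.mem_union, Finset.mem_inter, Finset.mem_insert, Finset.mem_sdiff,
    Finset.mem_erase]
  by_cases hx : x = e
  · subst hx; simp
  · simp [hx]

theorem hyb_node_closed {e : E} {T1 T0 : DT E} {S' F1 F' : Finset E} (he : e ∉ S')
    (hT0 : T0.Valid S') (heF : e ∉ F1) :
    hyb (DT.node e T1 T0) F1 F' = hyb T0 F1 (F'.erase e) := by
  have hR : e ∉ T0.rev F1 := fun h => he (DT.rev_subset T0 S' hT0 F1 h)
  unfold hyb
  simp only [DT.rev, if_neg heF]
  ext x
  simp only [Finset.mem_union, Finset.mem_inter, Finset.mem_insert, Finset.mem_sdiff,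
    Finset.mem_erase]
  by_cases hx : x = e
  · subst hx; simp [heF]
  · simp [hx]

theorem hyb_law {p : E → ℝ} : ∀ (T : DT E) (S : Finset E), T.Valid S → ∀ φ : Finset E → ℝ,
    Ex p S (fun F => Ex p S (fun F' => φ (hyb T F F'))) = Ex p S φ
  | DT.leaf, S, _, φ => by
    have : ∀ F F', hyb (DT.leaf : DT E) F F' = F' := by
      intro F F'; simp [hyb, DT.rev]
    simp only [this]
    rw [Ex_const]
  | DT.node e T1 T0, S, h, φ => by
    obtain ⟨he, h1, h0⟩ := h
    have i1 := hyb_law (p := p) T1 _ h1 (fun G => φ (insert e G))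
    have i0 := hyb_law (p := p) T0 _ h0 φ
    have hS : S = insert e (S.erase e) := (Finset.insert_erase he).symm
    generalize hS' : S.erase e = S' at *
    have heS' : e ∉ S' := by rw [← hS']; simp
    rw [hS, Ex_insert p heS', Ex_insert p heS']
    congr 1
    · congr 1
      rw [← i1]
      apply Ex_congr
      intro F1 hF1
      rw [Ex_insert p heS']
      have e1 : Ex p S' (fun F => φ (hyb (DT.node e T1 T0) (insert e F1) (insert e F)))
          = Ex p S' (fun F => φ (insert e (hyb T1 F1 F))) := by
        apply Ex_congr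
        intro F hF
        rw [hyb_node_open heS' h1, Finset.erase_insert (fun h => heS' (hF h))]
      have e2 : Ex p S' (fun F => φ (hyb (DT.node e T1 T0) (insert e F1) F))
          = Ex p S' (fun F => φ (insert e (hyb T1 F1 F))) := by
        apply Ex_congr
        intro F hF
        rw [hyb_node_open heS' h1, Finset.erase_eq_of_notMem (fun h => heS' (hF h))]
      rw [e1, e2]
      ring
    · congr 1
      rw [← i0]
      apply Ex_congr
      intro F1 hF1
      have hF1e : e ∉ F1 := fun h => heS' (hF1 h)
      rw [Ex_insert p heS']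
      have e1 : Ex p S' (fun F => φ (hyb (DT.node e T1 T0) F1 (insert e F)))
          = Ex p S' (fun F => φ (hyb T0 F1 F)) := by
        apply Ex_congr
        intro F hF
        rw [hyb_node_closed heS' h0 hF1e, Finset.erase_insert (fun h => heS' (hF h))]
      have e2 : Ex p S' (fun F => φ (hyb (DT.node e T1 T0) F1 F))
          = Ex p S' (fun F => φ (hyb T0 F1 F)) := by
        apply Ex_congr
        intro F hF
        rw [hyb_node_closed heS' h0 hF1e, Finset.erase_eq_of_notMem (fun h => heS' (hF h))]
      rw [e1, e2]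
      ring

/-- The influence of `e` on `g`. -/
noncomputable def Inf (p : E → ℝ) (S : Finset E) (g : Finset E → ℝ) (e : E) : ℝ :=
  2 * (p e * (1 - p e)) * Ex p (S.erase e) (fun F => |g (insert e F) - g F|)

theorem Inf_nonneg {p : E → ℝ} (hp : Ok p) (S : Finset E) (g : Finset E → ℝ) (e : E) :
    0 ≤ Inf p S g e := by
  unfold Inf
  apply mul_nonneg
  · have := hp e
    exact mul_nonneg (by norm_num) (mul_nonneg this.1 (by linarith [this.2]))
  · exact Ex_nonneg hp (fun F _ => abs_nonneg _)

theorem Inf_insert {p : E → ℝ} {S' : Finset E} {e e' : E} (he : e ∉ S') (he' : e' ∈ S')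
    (g : Finset E → ℝ) :
    Inf p (insert e S') g e' = p e * Inf p S' (fun F => g (insert e F)) e'
      + (1 - p e) * Inf p S' g e' := by
  unfold Inf
  have hne : e ≠ e' := fun h => he (h ▸ he')
  rw [Finset.erase_insert_of_ne hne, Ex_insert p (by simp [he])]
  have : Ex p (S'.erase e') (fun F => |g (insert e' (insert e F)) - g (insert e F)|)
      = Ex p (S'.erase e') (fun F => |g (insert e (insert e' F)) - g (insert e F)|) := by
    apply Ex_congr
    intro F _
    rw [Finset.insert_comm]
  rw [this]
  ring

theorem Pr_rev_insert {p : E → ℝ} {S' : Finset E} {e e' : E} (he : e ∉ S') (he' : e' ∈ S')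
    {T1 T0 : DT E} (h1 : T1.Valid S') :
    Pr p (insert e S') (fun F => e' ∈ (DT.node e T1 T0).rev F)
      = p e * Pr p S' (fun F => e' ∈ T1.rev F) + (1 - p e) * Pr p S' (fun F => e' ∈ T0.rev F) := by
  have hne : e' ≠ e := fun h => he (h ▸ he')
  unfold Pr
  rw [Ex_insert p he]
  congr 1
  · congr 1
    apply Ex_congr
    intro F hF
    apply ind_congr
    simp only [DT.rev, Finset.mem_insert_self, if_true, Finset.mem_insert, hne, false_or]
    rw [DT.rev_congr T1 S' h1 (insert e F) F (Finset.insert_inter_of_notMem he)]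
  · congr 1
    apply Ex_congr
    intro F hF
    apply ind_congr
    have : e ∉ F := fun h => he (hF h)
    simp [DT.rev, this, hne]

theorem osss_aux {p : E → ℝ} (hp : Ok p) : ∀ (T : DT E) (S : Finset E), T.Valid S →
    ∀ g : Finset E → ℝ,
    Ex p S (fun F => Ex p S (fun F' => |g (hyb T F F') - g F'|))
      ≤ ∑ e ∈ S, Pr p S (fun F => e ∈ T.rev F) * Inf p S g e
  | DT.leaf, S, _, g => by
    have : ∀ F F', hyb (DT.leaf : DT E) F F' = F' := by
      intro F F'; simp [hyb, DT.rev]
    simp only [this, sub_self, abs_zero]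
    rw [Ex_const, Ex_const]
    apply Finset.sum_nonneg
    intro e _
    exact mul_nonneg (Pr_nonneg hp _ _) (Inf_nonneg hp _ _ _)
  | DT.node e T1 T0, S, h, g => by
    obtain ⟨he, h1, h0⟩ := h
    have i11 := osss_aux hp T1 _ h1 (fun G => g (insert e G))
    have i10 := osss_aux hp T1 _ h1 g
    have i01 := osss_aux hp T0 _ h0 (fun G => g (insert e G))
    have i00 := osss_aux hp T0 _ h0 g
    have hS : S = insert e (S.erase e) := (Finset.insert_erase he).symm
    generalize hS' : S.erase e = S' at *
    have heS' : e ∉ S' := by rw [← hS']; simp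
    have hlaw1 := hyb_law (p := p) T1 S' h1 (fun G => |g (insert e G) - g G|)
    have hlaw0 := hyb_law (p := p) T0 S' h0 (fun G => |g (insert e G) - g G|)
    set I := Ex p S' (fun G => |g (insert e G) - g G|) with hI
    obtain ⟨q0, q1⟩ := hp e
    -- expand the left-hand side
    have hL : Ex p S (fun F => Ex p S (fun F' => |g (hyb (DT.node e T1 T0) F F') - g F'|))
        = p e * (p e * Ex p S' (fun F => Ex p S' (fun F' =>
              |g (insert e (hyb T1 F F')) - g (insert e F')|))
            + (1 - p e) * Ex p S' (fun F => Ex p S' (fun F' =>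
              |g (insert e (hyb T1 F F')) - g F'|)))
          + (1 - p e) * (p e * Ex p S' (fun F => Ex p S' (fun F' =>
              |g (hyb T0 F F') - g (insert e F')|))
            + (1 - p e) * Ex p S' (fun F => Ex p S' (fun F' =>
              |g (hyb T0 F F') - g F'|))) := by
      rw [hS, Ex_insert p heS']
      congr 1
      · congr 1
        rw [← Ex_mul_left, ← Ex_mul_left, ← Ex_add]
        apply Ex_congr
        intro F1 hF1
        rw [Ex_insert p heS']
        congr 1
        · congr 1
          apply Ex_congr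
          intro F hF
          rw [hyb_node_open heS' h1, Finset.erase_insert (fun h => heS' (hF h))]
        · congr 1
          apply Ex_congr
          intro F hF
          rw [hyb_node_open heS' h1, Finset.erase_eq_of_notMem (fun h => heS' (hF h))]
      · congr 1
        rw [← Ex_mul_left, ← Ex_mul_left, ← Ex_add]
        apply Ex_congr
        intro F1 hF1
        have hF1e : e ∉ F1 := fun h => heS' (hF1 h)
        rw [Ex_insert p heS']
        congr 1
        · congr 1
          apply Ex_congr
          intro F hF
          rw [hyb_node_closed heS' h0 hF1e, Finset.erase_insert (fun h => heS' (hF h))]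
        · congr 1
          apply Ex_congr
          intro F hF
          rw [hyb_node_closed heS' h0 hF1e, Finset.erase_eq_of_notMem (fun h => heS' (hF h))]
    -- triangle inequalities
    have t10 : Ex p S' (fun F => Ex p S' (fun F' => |g (insert e (hyb T1 F F')) - g F'|))
        ≤ I + Ex p S' (fun F => Ex p S' (fun F' => |g (hyb T1 F F') - g F'|)) := by
      rw [← hlaw1, ← Ex_add]
      apply Ex_mono hp
      intro F _
      rw [← Ex_add]
      apply Ex_mono hp
      intro F' _
      exact abs_sub_le _ _ _
    have t01 : Ex p S' (fun F => Ex p S' (fun F' => |g (hyb T0 F F') - g (insert e F')|))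
        ≤ I + Ex p S' (fun F => Ex p S' (fun F' =>
          |g (insert e (hyb T0 F F')) - g (insert e F')|)) := by
      rw [← hlaw0, ← Ex_add]
      apply Ex_mono hp
      intro F _
      rw [← Ex_add]
      apply Ex_mono hp
      intro F' _
      have := abs_sub_le (g (hyb T0 F F')) (g (insert e (hyb T0 F F'))) (g (insert e F'))
      rw [abs_sub_comm (g (hyb T0 F F')) (g (insert e (hyb T0 F F')))] at this
      exact this
    rw [hL]
    -- right-hand side
    have hR : ∑ e' ∈ S, Pr p S (fun F => e' ∈ (DT.node e T1 T0).rev F) * Inf p S g e'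
        = 2 * (p e * (1 - p e)) * I
          + ∑ e' ∈ S', (p e * Pr p S' (fun F => e' ∈ T1.rev F)
              + (1 - p e) * Pr p S' (fun F => e' ∈ T0.rev F))
            * (p e * Inf p S' (fun F => g (insert e F)) e' + (1 - p e) * Inf p S' g e') := by
      rw [hS, Finset.sum_insert heS']
      congr 1
      · have : Pr p (insert e S') (fun F => e ∈ (DT.node e T1 T0).rev F) = 1 := by
          apply Pr_true
          intro F _
          simp [DT.rev]
        rw [this, one_mul]
        unfold Inf
        rw [Finset.erase_insert heS']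
      · apply Finset.sum_congr rfl
        intro e' he'
        rw [Pr_rev_insert heS' he' h1, Inf_insert heS' he']
    rw [hR]
    have hexp : ∑ e' ∈ S', (p e * Pr p S' (fun F => e' ∈ T1.rev F)
              + (1 - p e) * Pr p S' (fun F => e' ∈ T0.rev F))
            * (p e * Inf p S' (fun F => g (insert e F)) e' + (1 - p e) * Inf p S' g e')
        = p e * p e * (∑ e' ∈ S', Pr p S' (fun F => e' ∈ T1.rev F)
              * Inf p S' (fun F => g (insert e F)) e')
          + p e * (1 - p e) * (∑ e' ∈ S', Pr p S' (fun F => e' ∈ T1.rev F) * Inf p S' g e')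
          + (1 - p e) * p e * (∑ e' ∈ S', Pr p S' (fun F => e' ∈ T0.rev F)
              * Inf p S' (fun F => g (insert e F)) e')
          + (1 - p e) * (1 - p e) *
              (∑ e' ∈ S', Pr p S' (fun F => e' ∈ T0.rev F) * Inf p S' g e') := by
      simp only [Finset.mul_sum]
      rw [← Finset.sum_add_distrib, ← Finset.sum_add_distrib, ← Finset.sum_add_distrib]
      apply Finset.sum_congr rfl
      intro e' _
      ring
    rw [hexp]
    have q1' : 0 ≤ 1 - p e := by linarith
    have k11 := mul_le_mul_of_nonneg_left i11 (mul_nonneg q0 q0)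
    have k10 := mul_le_mul_of_nonneg_left (t10.trans (add_le_add_right i10 I))
      (mul_nonneg q0 q1')
    have k01 := mul_le_mul_of_nonneg_left (t01.trans (add_le_add_right i01 I))
      (mul_nonneg q1' q0)
    have k00 := mul_le_mul_of_nonneg_left i00 (mul_nonneg q1' q1')
    linarith [k11, k10, k01, k00]

/-- The inequality for events determined by a decision tree. -/
theorem osss {p : E → ℝ} (hp : Ok p) (T : DT E) (S : Finset E) (hT : T.Valid S)
    (A : Finset E → Prop)
    (hdet : ∀ F F', F ⊆ S → F' ⊆ S → F ∩ T.rev F = F' ∩ T.rev F → (A F ↔ A F')) :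
    2 * (Pr p S A * (1 - Pr p S A))
      ≤ ∑ e ∈ S, Pr p S (fun F => e ∈ T.rev F) * Inf p S (fun F => ind (A F)) e := by
  refine le_trans (le_of_eq ?_) (osss_aux hp T S hT (fun F => ind (A F)))
  have : ∀ F, F ⊆ S → ∀ F', F' ⊆ S →
      |ind (A (hyb T F F')) - ind (A F')| = ind (A F) + ind (A F') - 2 * ind (A F) * ind (A F') := by
    intro F hF F' hF'
    have h1 : A (hyb T F F') ↔ A F := by
      refine (hdet F (hyb T F F') hF (hyb_subset hF hF') ?_).symm
      unfold hyb
      ext x
      simp only [Finset.mem_inter, Finset.mem_union, Finset.mem_sdiff]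
      tauto
    rw [ind_congr h1]
    by_cases ha : A F <;> by_cases hb : A F' <;> simp [ind, ha, hb]
    norm_num
  have h2 : Ex p S (fun F => Ex p S (fun F' => |ind (A (hyb T F F')) - ind (A F')|))
      = Ex p S (fun F => Ex p S (fun F' =>
        ind (A F) + ind (A F') - 2 * ind (A F) * ind (A F'))) := by
    apply Ex_congr
    intro F hF
    apply Ex_congr
    intro F' hF'
    exact this F hF F' hF'
  rw [h2]
  have h3 : ∀ F, Ex p S (fun F' => ind (A F) + ind (A F') - 2 * ind (A F) * ind (A F'))
      = ind (A F) + Pr p S A - 2 * ind (A F) * Pr p S A := by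
    intro F
    rw [Ex_sub, Ex_add, Ex_const, Ex_mul_left]
    rfl
  simp only [h3]
  have h4 : ∀ F, ind (A F) + Pr p S A - 2 * ind (A F) * Pr p S A
      = (1 - 2 * Pr p S A) * ind (A F) + Pr p S A := by intro F; ring
  simp only [h4]
  rw [Ex_add, Ex_const, Ex_mul_left]
  show _ = (1 - 2 * Pr p S A) * Pr p S A + Pr p S A
  ring

end H974
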