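import Pool.Agent.H974R2.Plan4
import Pool.Agent.H974R2.Count
import Pool.Agent.H974R2.Block

/-!
The four-arm bound in a box.
-/

set_option maxHeartbeats 400000

namespace H974

open Finset

theorem not_blk_of_reach {F : Finset Edg} {R1 R2 : ℤ} (h2 : R1 < R2) {u v : Vtx}
    (hu : inR (-R1) R1 (-R1) R1 u) (h : Reach (↑F : Set Edg) u v)
    (hv : v.1 ≤ -R2 ∨ R2 ≤ v.1 ∨ v.2 ≤ -R2 ∨ R2 ≤ v.2) : ¬ Blk R1 R2 F := by
  unfold inR at hu
  obtain ⟨w, k1, k2, k3⟩ := first_exit (a := -R2) (b := R2) (c := -R2) (d := R2)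
    (by unfold inR; omega) h hv
  rintro ⟨hb1, hb2⟩
  rcases k2 with k2 | k2 | k2 | k2
  · apply hb1
    right
    obtain ⟨y1, y2, m1, m2, m3, -⟩ := sub_LR (a := -R2) (b := -R1) (c := -R2) (d := R2) (by omega)
      (by rintro x y ⟨-, h⟩ _ _; simp only [mem_coe, mem_RE_true] at h; omega)
      (by rintro x y ⟨-, h⟩ _ _; simp only [mem_coe, mem_RE_false] at h; omega)
      k3.symm k2.le (by omega)
    exact ⟨y1, y2, m1, m2, m3.mono (by rintro e ⟨⟨h4, -⟩, h5⟩; exact ⟨h4, h5⟩)⟩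
  · apply hb1
    left
    obtain ⟨y1, y2, m1, m2, m3, -⟩ := sub_LR (a := R1) (b := R2) (c := -R2) (d := R2) (by omega)
      (by rintro x y ⟨-, h⟩ _ _; simp only [mem_coe, mem_RE_true] at h; omega)
      (by rintro x y ⟨-, h⟩ _ _; simp only [mem_coe, mem_RE_false] at h; omega)
      k3 (by omega) k2.ge
    exact ⟨y1, y2, m1, m2, m3.mono (by rintro e ⟨⟨h4, -⟩, h5⟩; exact ⟨h4, h5⟩)⟩
  · apply hb2
    right
    obtain ⟨y1, y2, m1, m2, m3, -⟩ := sub_TB (a := -R2) (b := R2) (c := -R2) (d := -R1) (by omega)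
      (by rintro x y ⟨-, h⟩ _ _; simp only [mem_coe, mem_RE_false] at h; omega)
      (by rintro x y ⟨-, h⟩ _ _; simp only [mem_coe, mem_RE_true] at h; omega)
      k3.symm k2.le (by omega)
    exact ⟨y1, y2, m1, m2, m3.mono (by rintro e ⟨⟨h4, -⟩, h5⟩; exact ⟨h4, h5⟩)⟩
  · apply hb2
    left
    obtain ⟨y1, y2, m1, m2, m3, -⟩ := sub_TB (a := -R2) (b := R2) (c := R1) (d := R2) (by omega)
      (by rintro x y ⟨-, h⟩ _ _; simp only [mem_coe, mem_RE_false] at h; omega)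
      (by rintro x y ⟨-, h⟩ _ _; simp only [mem_coe, mem_RE_true] at h; omega)
      k3 (by omega) k2.ge
    exact ⟨y1, y2, m1, m2, m3.mono (by rintro e ⟨⟨h4, -⟩, h5⟩; exact ⟨h4, h5⟩)⟩

/-- A box is connected to distance three times its radius. -/
def Cr (c1 c2 : ℤ) (m : ℕ) (F : Set Edg) : Prop :=
  ∃ x y : Vtx, inR (c1 - m) (c1 + m) (c2 - m) (c2 + m) x ∧
    (y.1 ≤ c1 - 3 * m ∨ c1 + 3 * m ≤ y.1 ∨ y.2 ≤ c2 - 3 * m ∨ c2 + 3 * m ≤ y.2) ∧ Reach F x y

theorem pr_Cr {m : ℕ} (hm : 5 ≤ m) (c1 c2 : ℤ) (S : Finset Edg) :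
    Pr (fun _ => (1/2 : ℝ)) S (fun F => Cr c1 c2 m ↑F) ≤ 1 - kap := by
  have ok := okq (q := 1/2) (by norm_num) (by norm_num)
  have hm' : (5:ℤ) ≤ m := by exact_mod_cast hm
  have e1 : Pr (fun _ => (1/2 : ℝ)) S (fun F => Cr c1 c2 m ↑F) ≤
      Pr (fun _ => (1/2 : ℝ)) S (fun F => ¬ Blk m (3 * m : ℕ) ((trl (-c1) (-c2)).mp F)) := by
    apply Pr_mono ok
    rintro F _ ⟨⟨x1, x2⟩, ⟨y1, y2⟩, hx, hy, hr⟩
    have h1 := (trl (-c1) (-c2)).reach hr
    rw [trl_ψ, trl_ψ, ← LSym.coe_mp] at h1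
    unfold inR at hx
    simp only at hx hy
    exact not_blk_of_reach (R1 := m) (R2 := ((3 * m : ℕ) : ℤ)) (by push_cast; omega)
      (by unfold inR; simp only; omega) h1 (by push_cast; omega)
  have e2 : Pr (fun _ => (1/2 : ℝ)) S (fun F => ¬ Blk m (3 * m : ℕ) ((trl (-c1) (-c2)).mp F)) ≤
      Pr (fun _ => (1/2 : ℝ)) (annE m (3 * m)) (fun F => ¬ Blk m (3 * m : ℕ) F) := by
    refine Pr_shift_le (q := 1/2) (by norm_num) (by norm_num) (trl (-c1) (-c2)) S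
      (B := annE m (3 * m)) (A := fun F => ¬ Blk m (3 * m : ℕ) F) ?_ ?_
    · intro F G hFG hF hG
      apply hF
      refine ⟨fun h => hG.1 (h.imp (LRc.mono hFG) (LRc.mono hFG)),
        fun h => hG.2 (h.imp (TBc.mono hFG) (TBc.mono hFG))⟩
    · intro F
      exact not_congr (Blk_local (by omega) (Finset.Subset.refl _) F)
  rw [Pr_not (annE m (3 * m))] at e2
  have e3 := pr_Blk hm (Finset.Subset.refl (annE m (3 * m)))
  unfold kap
  linarith

/-- The box around `c` used for the local event. -/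
noncomputable def Lam (c1 c2 : ℤ) (r : ℕ) : Finset Edg :=
  RE (c1 - 4 * r) (c1 + 4 * r) (c2 - 4 * r) (c2 + 4 * r)

/-- The core of the box around `c`. -/
noncomputable def Cor (c1 c2 : ℤ) (r : ℕ) : Finset Edg :=
  RE (c1 - r) (c1 + r) (c2 - r) (c2 + r)

theorem Cor_sub (c1 c2 : ℤ) (r : ℕ) : Cor c1 c2 r ⊆ Lam c1 c2 r :=
  RE_subset (by omega) (by omega) (by omega) (by omega)

/-- Boundary vertices of the box. -/
def BL (c1 c2 : ℤ) (r : ℕ) : Set Vtx := bdR (c1 - 4 * r) (c1 + 4 * r) (c2 - 4 * r) (c2 + 4 * r)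

/-- Faces outside the box. -/
def OL (c1 c2 : ℤ) (r : ℕ) : Set Vtx := outF (c1 - 4 * r) (c1 + 4 * r) (c2 - 4 * r) (c2 + 4 * r)

theorem card_Cor (c1 c2 : ℤ) {r : ℕ} (hr : 1 ≤ r) : ((Cor c1 c2 r).card : ℝ) ≤ 18 * (r:ℝ)^2 := by
  have h1 : (Cor c1 c2 r).card ≤ (2 * r + 1) * ((2 * r + 1) * 2) := by
    unfold Cor RE
    refine (Finset.card_filter_le _ _).trans ?_
    rw [Finset.card_product, Finset.card_product, Int.card_Icc, Int.card_Icc]
    have e1 : (c1 + (r:ℤ) + 1 - (c1 - r)).toNat = 2 * r + 1 := by omega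
    have e2 : (c2 + (r:ℤ) + 1 - (c2 - r)).toNat = 2 * r + 1 := by omega
    rw [e1, e2]
    simp
  have h2 : ((Cor c1 c2 r).card : ℝ) ≤ (2 * r + 1) * ((2 * r + 1) * 2) := by exact_mod_cast h1
  have h3 : (1:ℝ) ≤ r := by exact_mod_cast hr
  nlinarith

theorem reach_GR {F : Set Edg} {u v : Vtx} : Reach F u v ↔ GR src tgt F u v := Iff.rfl

theorem dreach_GR {F : Set Edg} {u v : Vtx} : DReach F u v ↔ GR dsrc dtgt F u v := Iff.rfl

theorem pr_HR_primal {P : Edg → ℝ} (hP : Ok P) {q : ℝ} (hq : ∀ e, P e ≤ q) (hq1 : q ≤ 1)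
    (S : Finset Edg) (c1 c2 : ℤ) {r : ℕ} {e : Edg} (he : e ∈ Cor c1 c2 r) :
    Pr P S (fun F => HR src tgt (BL c1 c2 r) e (↑F : Set Edg)) ≤ 2 * arm q r := by
  have hq0 : 0 ≤ q := (hP e).1.trans (hq e)
  have h1 : Pr P S (fun F => HR src tgt (BL c1 c2 r) e (↑F : Set Edg)) ≤
      Pr (fun _ => q) S (fun F => HR src tgt (BL c1 c2 r) e (↑F : Set Edg)) :=
    Pr_mono_param hP (okq hq0 hq1) hq (fun F G h _ hF => hF.mono (by exact_mod_cast h))
  refine h1.trans ?_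
  have h2 : Pr (fun _ => q) S (fun F => HR src tgt (BL c1 c2 r) e (↑F : Set Edg)) ≤
      Pr (fun _ => q) S (fun F => (∃ u : Vtx, (u.1 ≤ (src e).1 - r ∨ (src e).1 + r ≤ u.1 ∨
        u.2 ≤ (src e).2 - r ∨ (src e).2 + r ≤ u.2) ∧ Reach (↑F) (src e) u) ∨
        (∃ u : Vtx, (u.1 ≤ (tgt e).1 - r ∨ (tgt e).1 + r ≤ u.1 ∨
        u.2 ≤ (tgt e).2 - r ∨ (tgt e).2 + r ≤ u.2) ∧ Reach (↑F) (tgt e) u)) := by
    apply Pr_mono (okq hq0 hq1)
    rintro F _ ⟨b, hb, h⟩
    unfold BL bdR inR at hb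
    simp only [Set.mem_setOf_eq] at hb
    obtain ⟨x, y, _ | _⟩ := e
    · unfold Cor at he
      rw [mem_RE_false] at he
      rcases h with h | h
      · exact Or.inl ⟨b, by simp only [src_mk]; omega, h⟩
      · exact Or.inr ⟨b, by simp only [tgt_false]; omega, h⟩
    · unfold Cor at he
      rw [mem_RE_true] at he
      rcases h with h | h
      · exact Or.inl ⟨b, by simp only [src_mk]; omega, h⟩
      · exact Or.inr ⟨b, by simp only [tgt_true]; omega, h⟩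
  refine h2.trans ((Pr_or_le (okq hq0 hq1) _ _ _).trans ?_)
  have k1 := arm_bound hq0 hq1 S (src e) r
  have k2 := arm_bound hq0 hq1 S (tgt e) r
  linarith

theorem pr_HR_dual {P : Edg → ℝ} (hP : Ok P) {q : ℝ} (hq : ∀ e, P e ≤ q) (hq1 : q ≤ 1)
    (S : Finset Edg) (c1 c2 : ℤ) {r : ℕ} {e : Edg} (he : e ∈ Cor c1 c2 r) :
    Pr P S (fun F => HR dsrc dtgt (OL c1 c2 r) e (↑F : Set Edg)) ≤ 2 * arm q r := by
  have hq0 : 0 ≤ q := (hP e).1.trans (hq e)
  have h1 : Pr P S (fun F => HR dsrc dtgt (OL c1 c2 r) e (↑F : Set Edg)) ≤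
      Pr (fun _ => q) S (fun F => HR dsrc dtgt (OL c1 c2 r) e (↑F : Set Edg)) :=
    Pr_mono_param hP (okq hq0 hq1) hq (fun F G h _ hF => hF.mono (by exact_mod_cast h))
  refine h1.trans ?_
  have h2 : Pr (fun _ => q) S (fun F => HR dsrc dtgt (OL c1 c2 r) e (↑F : Set Edg)) ≤
      Pr (fun _ => q) S (fun F => (∃ u : Vtx, (u.1 ≤ (dsrc e).1 - r ∨ (dsrc e).1 + r ≤ u.1 ∨
        u.2 ≤ (dsrc e).2 - r ∨ (dsrc e).2 + r ≤ u.2) ∧ Reach (↑(dmp F)) (dsrc e) u) ∨
        (∃ u : Vtx, (u.1 ≤ (dtgt e).1 - r ∨ (dtgt e).1 + r ≤ u.1 ∨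
        u.2 ≤ (dtgt e).2 - r ∨ (dtgt e).2 + r ≤ u.2) ∧ Reach (↑(dmp F)) (dtgt e) u)) := by
    apply Pr_mono (okq hq0 hq1)
    rintro F _ ⟨b, hb, h⟩
    unfold OL outF at hb
    simp only [Set.mem_setOf_eq] at hb
    obtain ⟨x, y, _ | _⟩ := e
    · unfold Cor at he
      rw [mem_RE_false] at he
      rcases h with h | h
      · refine Or.inl ⟨b, by simp only [dsrc_false]; omega, ?_⟩
        rw [coe_dmp, reach_dl]; exact h
      · refine Or.inr ⟨b, by simp only [dtgt_mk]; omega, ?_⟩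
        rw [coe_dmp, reach_dl]; exact h
    · unfold Cor at he
      rw [mem_RE_true] at he
      rcases h with h | h
      · refine Or.inl ⟨b, by simp only [dsrc_true]; omega, ?_⟩
        rw [coe_dmp, reach_dl]; exact h
      · refine Or.inr ⟨b, by simp only [dtgt_mk]; omega, ?_⟩
        rw [coe_dmp, reach_dl]; exact h
  refine h2.trans ((Pr_or_le (okq hq0 hq1) _ _ _).trans ?_)
  have k1 := arm_bound hq0 hq1 (dmp S) (dsrc e) r
  have k2 := arm_bound hq0 hq1 (dmp S) (dtgt e) r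
  rw [pr_dmp] at k1 k2
  linarith

theorem ok_compl {P : Edg → ℝ} (hP : Ok P) : Ok (fun e => 1 - P e) :=
  fun e => ⟨by linarith [(hP e).2], by linarith [(hP e).1]⟩

theorem sdiff_erase_eq {L F : Finset Edg} {e : Edg} : (L \ F).erase e = (L.erase e) \ F := by
  ext x; simp only [Finset.mem_erase, Finset.mem_sdiff]; tauto

theorem pr_GG_primal {P : Edg → ℝ} (hP : Ok P) {q1 q2 : ℝ} (h1 : ∀ e, P e ≤ q1)
    (h2 : ∀ e, 1 - P e ≤ q2) (hq1 : q1 ≤ 1) (hq2 : q2 ≤ 1) (c1 c2 : ℤ) {r : ℕ} {e : Edg}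
    (he : e ∈ Cor c1 c2 r) :
    Pr P ((Lam c1 c2 r).erase e) (GG src tgt dsrc dtgt (BL c1 c2 r) (OL c1 c2 r)
      (Lam c1 c2 r) e) ≤ 4 * (arm q1 r * arm q2 r) := by
  set L := Lam c1 c2 r with hL
  have s1 := Pr_harris_decr hP (S := L.erase e)
    (A := fun F => HR src tgt (BL c1 c2 r) e (↑(F.erase e) : Set Edg))
    (B := fun F => HR dsrc dtgt (OL c1 c2 r) e (↑((L \ F).erase e) : Set Edg))
    (fun F G h _ hF => hF.mono (by exact_mod_cast Finset.erase_subset_erase _ h))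
    (by
      intro F G h _ hF hG
      apply hF
      exact hG.mono (by
        exact_mod_cast Finset.erase_subset_erase _ (Finset.sdiff_subset_sdiff
          (Finset.Subset.refl L) h)))
  have s2 : Pr P (L.erase e) (fun F => HR src tgt (BL c1 c2 r) e (↑(F.erase e) : Set Edg)) ≤
      2 * arm q1 r := by
    refine le_trans (Pr_mono hP ?_) (pr_HR_primal hP h1 hq1 (L.erase e) c1 c2 he)
    intro F _ h
    exact h.mono (by exact_mod_cast Finset.erase_subset _ _)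
  have s3 : Pr P (L.erase e) (fun F => HR dsrc dtgt (OL c1 c2 r) e
      (↑((L \ F).erase e) : Set Edg)) ≤ 2 * arm q2 r := by
    have := pr_HR_dual (ok_compl hP) h2 hq2 (L.erase e) c1 c2 he
    rw [Pr_compl] at this
    refine le_trans (le_of_eq ?_) this
    apply Pr_congr
    intro F _
    rw [sdiff_erase_eq]
  have ha1 : 0 ≤ arm q1 r := arm_nonneg ((hP e).1.trans (h1 e)) hq1 r
  calc Pr P (L.erase e) (GG src tgt dsrc dtgt (BL c1 c2 r) (OL c1 c2 r) L e)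
      ≤ _ := s1
    _ ≤ (2 * arm q1 r) * (2 * arm q2 r) :=
        mul_le_mul s2 s3 (Pr_nonneg hP _ _) (by positivity)
    _ = 4 * (arm q1 r * arm q2 r) := by ring

theorem pr_GG_dual {P : Edg → ℝ} (hP : Ok P) {q1 q2 : ℝ} (h1 : ∀ e, 1 - P e ≤ q1)
    (h2 : ∀ e, P e ≤ q2) (hq1 : q1 ≤ 1) (hq2 : q2 ≤ 1) (c1 c2 : ℤ) {r : ℕ} {e : Edg}
    (he : e ∈ Cor c1 c2 r) :
    Pr P ((Lam c1 c2 r).erase e) (GG dsrc dtgt src tgt (OL c1 c2 r) (BL c1 c2 r)
      (Lam c1 c2 r) e) ≤ 4 * (arm q1 r * arm q2 r) := by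
  set L := Lam c1 c2 r with hL
  have s1 := Pr_harris_decr hP (S := L.erase e)
    (A := fun F => HR dsrc dtgt (OL c1 c2 r) e (↑(F.erase e) : Set Edg))
    (B := fun F => HR src tgt (BL c1 c2 r) e (↑((L \ F).erase e) : Set Edg))
    (fun F G h _ hF => hF.mono (by exact_mod_cast Finset.erase_subset_erase _ h))
    (by
      intro F G h _ hF hG
      apply hF
      exact hG.mono (by
        exact_mod_cast Finset.erase_subset_erase _ (Finset.sdiff_subset_sdiff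
          (Finset.Subset.refl L) h)))
  have s2 : Pr P (L.erase e) (fun F => HR dsrc dtgt (OL c1 c2 r) e (↑(F.erase e) : Set Edg)) ≤
      2 * arm q2 r := by
    refine le_trans (Pr_mono hP ?_) (pr_HR_dual hP h2 hq2 (L.erase e) c1 c2 he)
    intro F _ h
    exact h.mono (by exact_mod_cast Finset.erase_subset _ _)
  have s3 : Pr P (L.erase e) (fun F => HR src tgt (BL c1 c2 r) e
      (↑((L \ F).erase e) : Set Edg)) ≤ 2 * arm q1 r := by
    have := pr_HR_primal (ok_compl hP) h1 hq1 (L.erase e) c1 c2 he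
    rw [Pr_compl] at this
    refine le_trans (le_of_eq ?_) this
    apply Pr_congr
    intro F _
    rw [sdiff_erase_eq]
  have ha1 : 0 ≤ arm q2 r := arm_nonneg ((hP e).1.trans (h2 e)) hq2 r
  calc Pr P (L.erase e) (GG dsrc dtgt src tgt (OL c1 c2 r) (BL c1 c2 r) L e)
      ≤ _ := s1
    _ ≤ (2 * arm q2 r) * (2 * arm q1 r) :=
        mul_le_mul s2 s3 (Pr_nonneg hP _ _) (by positivity)
    _ = 4 * (arm q1 r * arm q2 r) := by ring

theorem final_sqrt {X A : ℝ} {r N : ℕ} (hA : 0 ≤ A) (hr : 1 ≤ r)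
    (hN : (N : ℝ) ≤ 18 * (r:ℝ)^2)
    (h : X^2 ≤ 15 * (N * (4 * A)) / (1 - (1 - kap))^2) :
    X ≤ 33 / kap * r * Real.sqrt A := by
  have hk := kap_pos
  have h1 : (1 - (1 - kap)) = kap := by ring
  rw [h1] at h
  have hs : Real.sqrt A * Real.sqrt A = A := Real.mul_self_sqrt hA
  have hs0 := Real.sqrt_nonneg A
  have hr1 : (1:ℝ) ≤ r := by exact_mod_cast hr
  have h2 : 15 * (N * (4 * A)) / kap^2 ≤ (33 / kap * r * Real.sqrt A)^2 := by
    have h3 : (33 / kap * r * Real.sqrt A)^2 = 1089 * (r:ℝ)^2 * A / kap^2 := by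
      calc (33 / kap * r * Real.sqrt A)^2 = 1089 * (r:ℝ)^2 * (Real.sqrt A * Real.sqrt A) / kap^2 :=
            by field_simp; ring
        _ = _ := by rw [hs]
    rw [h3]
    apply div_le_div_of_nonneg_right _ (by positivity)
    have h4 : (N:ℝ) * A ≤ 18 * (r:ℝ)^2 * A := mul_le_mul_of_nonneg_right hN hA
    have h5 : 0 ≤ (r:ℝ)^2 * A := by positivity
    nlinarith
  have h6 : X ≤ |X| := le_abs_self X
  exact h6.trans (abs_le_of_sq_le_sq (h.trans h2) (by positivity))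

/-- The four-arm bound. -/
theorem four_arm {P : Edg → ℝ} (hP : ∀ e, 1/4 ≤ P e ∧ P e ≤ 3/4)
    (hside : (∀ e, P e ≤ 1/2) ∨ (∀ e, 1/2 ≤ P e)) {q1 q2 : ℝ} (h1 : ∀ e, P e ≤ q1)
    (h2 : ∀ e, 1 - P e ≤ q2) (hq1 : q1 ≤ 1) (hq2 : q2 ≤ 1) {r : ℕ} (hr : 5 ≤ r) (c1 c2 : ℤ) :
    ∑ e ∈ Cor c1 c2 r, Pr P ((Lam c1 c2 r).erase e) (F4 src tgt (BL c1 c2 r) e) ≤
      33 / kap * r * Real.sqrt (arm q1 r * arm q2 r) := by
  have ok : Ok P := fun e => ⟨by linarith [(hP e).1], by linarith [(hP e).2]⟩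
  have hP' : ∀ e, 1/4 ≤ 1 - P e ∧ 1 - P e ≤ 3/4 :=
    fun e => ⟨by linarith [(hP e).2], by linarith [(hP e).1]⟩
  have hq10 : 0 ≤ q1 := (ok (0, 0, true)).1.trans (h1 _)
  have hq20 : 0 ≤ q2 := by linarith [(hP' (0, 0, true)).1, h2 (0, 0, true)]
  have hA : 0 ≤ arm q1 r * arm q2 r :=
    mul_nonneg (arm_nonneg hq10 hq1 r) (arm_nonneg hq20 hq2 r)
  have hk := kap_pos
  have hr' : (5:ℤ) ≤ r := by exact_mod_cast hr
  set L := Lam c1 c2 r with hL
  have hcore : Cor c1 c2 r ⊆ L := Cor_sub c1 c2 r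
  -- planarity
  have hplan : ∀ e ∈ Cor c1 c2 r, ∀ F, F ⊆ L.erase e → F4 src tgt (BL c1 c2 r) e F →
      (∃ g ∈ OL c1 c2 r, DReach (↑((L \ F).erase e)) (dsrc e) g) ∧
      (∃ g ∈ OL c1 c2 r, DReach (↑((L \ F).erase e)) (dtgt e) g) ∧
      ¬ DReach (↑((L \ F).erase e)) (dsrc e) (dtgt e) := by
    intro e he F hF ⟨⟨w, hw, hrw⟩, ⟨w', hw', hrw'⟩, huv⟩
    have heF : e ∉ (↑F : Set Edg) := fun h => (Finset.notMem_erase e L) (hF h)
    have hFL : (↑F : Set Edg) ⊆ ↑(RE (c1 - 4 * r) (c1 + 4 * r) (c2 - 4 * r) (c2 + 4 * r)) := by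
      intro x hx
      exact Finset.mem_coe.mpr (Finset.mem_of_mem_erase (hF (Finset.mem_coe.mp hx)))
    have heL := hcore he
    have hset : (↑((L \ F).erase e) : Set Edg) =
        (↑(RE (c1 - 4 * r) (c1 + 4 * r) (c2 - 4 * r) (c2 + 4 * r)) \ ↑F) \ {e} := by
      rw [Finset.coe_erase, Finset.coe_sdiff]
      rfl
    rw [hset]
    exact ⟨dual_arm hFL heL heF ⟨w, hw, hrw⟩ ⟨w', hw', hrw'⟩ huv (Or.inl ⟨rfl, rfl⟩),
      dual_arm hFL heL heF ⟨w, hw, hrw⟩ ⟨w', hw', hrw'⟩ huv (Or.inr ⟨rfl, rfl⟩),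
      dual_sep hFL heL heF ⟨w, hw, hrw⟩ ⟨w', hw', hrw'⟩⟩
  rcases hside with hside | hside
  · -- primal version
    set K : Finset Vtx := Finset.Icc (c1 - r) (c1 + r) ×ˢ Finset.Icc (c2 - r) (c2 + r) with hK
    have hKe : ∀ e ∈ Cor c1 c2 r, src e ∈ K ∧ tgt e ∈ K := by
      rintro ⟨x, y, _ | _⟩ he
      · unfold Cor at he
        rw [mem_RE_false] at he
        simp only [hK, src_mk, tgt_false, Finset.mem_product, Finset.mem_Icc]
        omega
      · unfold Cor at he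
        rw [mem_RE_true] at he
        simp only [hK, src_mk, tgt_true, Finset.mem_product, Finset.mem_Icc]
        omega
    have hlam : Pr P L (fun G => ∃ x ∈ K, RB src tgt (BL c1 c2 r) (↑G : Set Edg) x) ≤
        1 - kap := by
      refine le_trans ?_ (pr_Cr hr c1 c2 L)
      refine le_trans (Pr_mono_param ok (okq (by norm_num) (by norm_num)) hside ?_)
        (Pr_mono (okq (by norm_num) (by norm_num)) ?_)
      · rintro F G h _ ⟨x, hx, b, hb, hr⟩
        exact ⟨x, hx, b, hb, hr.mono (by exact_mod_cast h)⟩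
      · rintro F _ ⟨x, hx, b, hb, hr⟩
        simp only [hK, Finset.mem_product, Finset.mem_Icc] at hx
        unfold BL bdR inR at hb
        simp only [Set.mem_setOf_eq] at hb
        refine ⟨x, b, by unfold inR; omega, by omega, hr⟩
    have hab := abs4 (s := src) (t := tgt) (s' := dsrc) (t' := dtgt) (B := BL c1 c2 r)
      (B' := OL c1 c2 r) hP hcore hKe (by linarith) hlam
      (fun e he => pr_GG_primal ok h1 h2 hq1 hq2 c1 c2 he)
    refine le_trans (Finset.sum_le_sum ?_) (final_sqrt hA (by omega)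
      (card_Cor c1 c2 (by omega)) hab)
    intro e he
    apply Pr_mono ok
    intro F hF hF4
    refine ⟨hF4, ?_, ?_⟩
    · obtain ⟨⟨w, hw, hrw⟩, _, _⟩ := hF4
      have heF : e ∉ F := fun h => (Finset.notMem_erase e L) (hF h)
      rw [Finset.erase_eq_of_notMem heF]
      exact ⟨w, hw, Or.inl hrw⟩
    · obtain ⟨⟨g, hg, hrg⟩, _, _⟩ := hplan e he F hF hF4
      exact ⟨g, hg, Or.inl hrg⟩
  · -- dual version
    set K : Finset Vtx := Finset.Icc (c1 - r - 1) (c1 + r) ×ˢ Finset.Icc (c2 - r - 1) (c2 + r)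
      with hK
    have hKe : ∀ e ∈ Cor c1 c2 r, dsrc e ∈ K ∧ dtgt e ∈ K := by
      rintro ⟨x, y, _ | _⟩ he
      · unfold Cor at he
        rw [mem_RE_false] at he
        simp only [hK, dtgt_mk, dsrc_false, Finset.mem_product, Finset.mem_Icc]
        omega
      · unfold Cor at he
        rw [mem_RE_true] at he
        simp only [hK, dtgt_mk, dsrc_true, Finset.mem_product, Finset.mem_Icc]
        omega
    have okc := ok_compl ok
    have hlam : Pr (fun e => 1 - P e) L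
        (fun G => ∃ x ∈ K, RB dsrc dtgt (OL c1 c2 r) (↑G : Set Edg) x) ≤ 1 - kap := by
      refine le_trans ?_ (pr_Cr (m := r + 1) (by omega) c1 c2 (dmp L))
      rw [pr_dmp]
      refine le_trans (Pr_mono_param okc (okq (q := 1/2) (by norm_num) (by norm_num))
        (fun e => by linarith [hside e]) ?_)
        (Pr_mono (okq (by norm_num) (by norm_num)) ?_)
      · rintro F G h _ ⟨x, hx, b, hb, hr⟩
        exact ⟨x, hx, b, hb, hr.mono (by exact_mod_cast h)⟩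
      · rintro F _ ⟨x, hx, b, hb, hr⟩
        simp only [hK, Finset.mem_product, Finset.mem_Icc] at hx
        unfold OL outF at hb
        simp only [Set.mem_setOf_eq] at hb
        refine ⟨x, b, by unfold inR; push_cast; omega, by push_cast; omega, ?_⟩
        rw [coe_dmp, reach_dl]; exact hr
    have hab := abs4 (s := dsrc) (t := dtgt) (s' := src) (t' := tgt) (B := OL c1 c2 r)
      (B' := BL c1 c2 r) (p := fun e => 1 - P e) hP' hcore hKe (by linarith) hlam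
      (fun e he => pr_GG_dual okc (q1 := q1) (q2 := q2) (fun e => by linarith [h1 e]) h2 hq1 hq2
        c1 c2 he)
    refine le_trans (Finset.sum_le_sum ?_) (final_sqrt hA (by omega)
      (card_Cor c1 c2 (by omega)) hab)
    intro e he
    rw [Pr_compl P]
    apply Pr_mono ok
    intro F hF hF4
    obtain ⟨⟨g, hg, hrg⟩, ⟨g', hg', hrg'⟩, hsep⟩ := hplan e he F hF hF4
    have heF : e ∉ F := fun h => (Finset.notMem_erase e L) (hF h)
    have hset : (L.erase e) \ F = (L \ F).erase e := sdiff_erase_eq.symm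
    have hF2 : (L \ ((L.erase e) \ F)).erase e = F := by
      ext x
      simp only [Finset.mem_erase, Finset.mem_sdiff, not_and, not_not]
      constructor
      · rintro ⟨h3, h4, h5⟩
        exact h5 ⟨h3, h4⟩
      · intro h3
        have := hF h3
        rw [Finset.mem_erase] at this
        exact ⟨this.1, this.2, fun _ => h3⟩
    refine ⟨?_, ?_, ?_⟩
    · rw [hset]
      exact ⟨⟨g, hg, hrg⟩, ⟨g', hg', hrg'⟩, hsep⟩
    · rw [hset, Finset.erase_idem]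
      exact ⟨g, hg, Or.inl hrg⟩
    · rw [hF2]
      obtain ⟨⟨w, hw, hrw⟩, _, _⟩ := hF4
      exact ⟨w, hw, Or.inl hrw⟩

end H974
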