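import Pool.Agent.H974R2.Piv

/-!
Gluing estimates for inhomogeneous parameters.
-/

set_option maxHeartbeats 400000

namespace H974

open Finset

theorem Ex_congr_param {E : Type*} [DecidableEq E] {p q : E → ℝ} {S : Finset E}
    (h : ∀ e ∈ S, p e = q e) (f : Finset E → ℝ) : Ex p S f = Ex q S f := by
  unfold Ex
  apply Finset.sum_congr rfl
  intro F hF
  rw [Finset.mem_powerset] at hF
  have h1 : ∏ e ∈ F, p e = ∏ e ∈ F, q e := Finset.prod_congr rfl (fun e he => h e (hF he))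
  have h2 : ∏ e ∈ S \ F, (1 - p e) = ∏ e ∈ S \ F, (1 - q e) :=
    Finset.prod_congr rfl (fun e he => by rw [h e (Finset.mem_sdiff.mp he).1])
  rw [h1, h2]

theorem Pr_congr_param {E : Type*} [DecidableEq E] {p q : E → ℝ} {S : Finset E}
    (h : ∀ e ∈ S, p e = q e) (A : Finset E → Prop) : Pr p S A = Pr q S A :=
  Ex_congr_param h _

theorem armP_nonneg {P : Edg → ℝ} (ok : Ok P) (n : ℕ) : 0 ≤ armP P n := Pr_nonneg ok _ _
theorem armP_le_one {P : Edg → ℝ} (ok : Ok P) (n : ℕ) : armP P n ≤ 1 := Pr_le_one ok _ _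
theorem barmP_nonneg {P : Edg → ℝ} (ok : Ok P) (r n : ℕ) : 0 ≤ barmP P r n := Pr_nonneg ok _ _
theorem barmP_le_one {P : Edg → ℝ} (ok : Ok P) (r n : ℕ) : barmP P r n ≤ 1 := Pr_le_one ok _ _

theorem armP_mono_param {P Q : Edg → ℝ} (hP : Ok P) (hQ : Ok Q) (h : ∀ e, P e ≤ Q e) (n : ℕ) :
    armP P n ≤ armP Q n := Pr_mono_param hP hQ h (Arm_incr _ _)

theorem barmP_mono_param {P Q : Edg → ℝ} (hP : Ok P) (hQ : Ok Q) (h : ∀ e, P e ≤ Q e)
    (r n : ℕ) : barmP P r n ≤ barmP Q r n :=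
  Pr_mono_param hP hQ h (fun _ _ h _ hF => hF.mono h)

theorem pr_ArmP (P : Edg → ℝ) {n : ℕ} {S : Finset Edg} (hS : boxE n ⊆ S) :
    Pr P S (Arm n) = armP P n := by
  unfold armP
  exact Pr_local hS (fun F _ => Arm_local (Finset.Subset.refl _))

theorem pr_BArmP (P : Edg → ℝ) {r n : ℕ} {S : Finset Edg} (hS : boxE n ⊆ S) :
    Pr P S (BArm r n) = barmP P r n := by
  unfold barmP
  exact Pr_local hS (fun F _ => BArm_local (Finset.Subset.refl _))

theorem Arm_anti {n m : ℕ} (h : n ≤ m) {F : Finset Edg} (hF : Arm m F) : Arm n F := by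
  obtain ⟨v, hv, hr⟩ := hF
  have h' : (n:ℤ) ≤ m := by exact_mod_cast h
  obtain ⟨w, k1, k2, k3⟩ := first_exit (G := ↑F ∩ ↑(boxE m)) (a := -n) (b := n) (c := -n) (d := n)
    (u := (0, 0)) (v := v) (by unfold inR; simp) hr (by unfold onB at hv; omega)
  refine ⟨w, ⟨k1, k2⟩, k3.mono ?_⟩
  rintro e ⟨⟨k4, -⟩, k5⟩
  exact ⟨k4, k5⟩

theorem armP_anti {P : Edg → ℝ} (ok : Ok P) {n m : ℕ} (h : n ≤ m) : armP P m ≤ armP P n := by
  rw [← pr_ArmP P (boxE_mono h)]
  unfold armP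
  exact Pr_mono ok (fun F _ hF => Arm_anti h hF)

theorem okhalf : Ok (fun _ : Edg => (1/2 : ℝ)) := okq (by norm_num) (by norm_num)

theorem pr_CircP {P : Edg → ℝ} (ok : Ok P) (hh : ∀ e, 1/2 ≤ P e) {r : ℕ} (hr : 0 < r)
    {S : Finset Edg} (hS : boxE (3 * r) ⊆ S) :
    kap ≤ Pr P S (Circ r ((3 * r : ℕ) : ℤ)) := by
  have hr' : (0:ℤ) < r := by exact_mod_cast hr
  have e3 : kap ≤ Pr (fun _ => (1/2 : ℝ)) S (Circ r ((3 * r : ℕ) : ℤ)) := by
    refine le_trans ?_ (pr_Circ (by norm_num) (by norm_num) (R1 := r) (R2 := ((3 * r : ℕ) : ℤ))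
      (by positivity) (by push_cast; omega) hS)
    have k := rsw_p (p := 1/2) le_rfl (by norm_num) (n := r) (w := 2 * ((3 * r : ℕ) : ℤ))
      (h := ((3 * r : ℕ) : ℤ) - r) hr'
      (by push_cast; omega) (by push_cast; omega) (by push_cast; omega)
    calc kap = ((1/2 : ℝ)^47)^4 := by unfold kap; norm_num
      _ ≤ _ := pow_le_pow_left₀ (by positivity) k 4
  exact e3.trans (Pr_mono_param okhalf ok hh (fun F G h _ hF => hF.mono h))

theorem arm_glueP {P : Edg → ℝ} (ok : Ok P) (hh : ∀ e, 1/2 ≤ P e) {r n : ℕ} (hr : 0 < r)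
    (hrn : 3 * r ≤ n) : kap * (armP P (3 * r) * barmP P r n) ≤ armP P n := by
  have hsub : boxE (3 * r) ⊆ boxE n := boxE_mono hrn
  have e1 := pr_ArmP P hsub
  have e2 := pr_BArmP P (r := r) (Finset.Subset.refl (boxE n))
  have e3 := pr_CircP ok hh hr hsub
  have i1 := Pr_harris ok (Arm_incr (boxE n) (3 * r))
    (B := Circ r ((3 * r : ℕ) : ℤ)) (fun F G h _ hF => hF.mono h)
  have i2 := Pr_harris ok (S := boxE n)
    (A := fun F => Arm (3 * r) F ∧ Circ r ((3 * r : ℕ) : ℤ) F)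
    (B := BArm r n) (fun F G h _ hF => ⟨hF.1.mono h, hF.2.mono h⟩) (fun F G h _ hF => hF.mono h)
  have i3 : Pr P (boxE n)
      (fun F => (Arm (3 * r) F ∧ Circ r ((3 * r : ℕ) : ℤ) F) ∧ BArm r n F) ≤ armP P n := by
    unfold armP
    apply Pr_mono ok
    rintro F _ ⟨⟨k1, k2⟩, k3⟩
    exact arm_of_glue (by omega) hrn k1 k2 k3
  rw [e1] at i1
  rw [e2] at i2
  have hb : 0 ≤ barmP P r n := barmP_nonneg ok _ _
  have ha : 0 ≤ armP P (3 * r) := armP_nonneg ok _
  calc kap * (armP P (3 * r) * barmP P r n)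
      = (armP P (3 * r) * kap) * barmP P r n := by ring
    _ ≤ (armP P (3 * r) * Pr P (boxE n) (Circ r ((3 * r : ℕ) : ℤ))) * barmP P r n :=
        mul_le_mul_of_nonneg_right (mul_le_mul_of_nonneg_left e3 ha) hb
    _ ≤ _ := mul_le_mul_of_nonneg_right i1 hb
    _ ≤ _ := i2
    _ ≤ _ := i3

theorem barmP_low {P : Edg → ℝ} (ok : Ok P) (hh : ∀ e, 1/2 ≤ P e) {r n : ℕ} (hn : 0 < n)
    (hrn : r ≤ n) : (2 * (r:ℝ) + 1) ≤ 16 * n * (barmP P r n)^2 := by
  have h1 := barm_lower hn hrn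
  have h2 : barm (1/2) r n ≤ barmP P r n := barmP_mono_param okhalf ok hh r n
  have h3 : (barm (1/2) r n)^2 ≤ (barmP P r n)^2 :=
    pow_le_pow_left₀ (barm_nonneg (by norm_num) (by norm_num) _ _) h2 2
  exact h1.trans (mul_le_mul_of_nonneg_left h3 (by positivity))

theorem armP_11 {P : Edg → ℝ} (ok : Ok P) (hh : ∀ e, 1/2 ≤ P e) {ρ : ℕ} (hρ : 0 < ρ) :
    kap * armP P (11 * ρ) ≤ 18 * armP P (111 * ρ) := by
  have h1 := arm_glueP ok hh (r := 3 * ρ) (n := 111 * ρ) (by omega) (by omega)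
  have h2 := barmP_low ok hh (r := 3 * ρ) (n := 111 * ρ) (by omega) (by omega)
  have h3 : armP P (11 * ρ) ≤ armP P (3 * (3 * ρ)) := armP_anti ok (by omega)
  have hb := barmP_nonneg ok (3 * ρ) (111 * ρ)
  have hρ' : (1:ℝ) ≤ ρ := by exact_mod_cast hρ
  push_cast at h2
  have h4 : 1/18 ≤ barmP P (3 * ρ) (111 * ρ) := by
    by_contra hcon
    push Not at hcon
    have h5 : (barmP P (3 * ρ) (111 * ρ))^2 ≤ (1/18)^2 := pow_le_pow_left₀ hb hcon.le 2
    have h6 : 16 * (111 * (ρ:ℝ)) * (barmP P (3 * ρ) (111 * ρ))^2 ≤ 16 * (111 * (ρ:ℝ)) * (1/18)^2 :=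
      mul_le_mul_of_nonneg_left h5 (by positivity)
    nlinarith
  have ha := armP_nonneg ok (11 * ρ)
  have ha3 := armP_nonneg ok (3 * (3 * ρ))
  have h7 : armP P (11 * ρ) * (1/18) ≤ armP P (3 * (3 * ρ)) * barmP P (3 * ρ) (111 * ρ) :=
    mul_le_mul h3 h4 (by norm_num) ha3
  have h8 := mul_le_mul_of_nonneg_left h7 kap_pos.le
  linarith

/-- The product of the inner and the outer arm probabilities. -/
theorem glue_mid {P : Edg → ℝ} (ok : Ok P) (hh : ∀ e, 1/2 ≤ P e) {ρ n : ℕ} (hρ : 0 < ρ)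
    (hn : 111 * ρ ≤ n) :
    kap^2 * (armP P (11 * ρ) * barmP P (37 * ρ) n) ≤ 18 * armP P n := by
  have h1 := armP_11 ok hh hρ
  have h2 := arm_glueP ok hh (r := 37 * ρ) (n := n) (by omega) (by omega)
  have e : 3 * (37 * ρ) = 111 * ρ := by ring
  rw [e] at h2
  have hb := barmP_nonneg ok (37 * ρ) n
  have h3 := mul_le_mul_of_nonneg_right h1 hb
  have h4 := mul_le_mul_of_nonneg_left h3 kap_pos.le
  calc kap^2 * (armP P (11 * ρ) * barmP P (37 * ρ) n)
      = kap * (kap * armP P (11 * ρ) * barmP P (37 * ρ) n) := by ring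
    _ ≤ kap * (18 * armP P (111 * ρ) * barmP P (37 * ρ) n) := h4
    _ = 18 * (kap * (armP P (111 * ρ) * barmP P (37 * ρ) n)) := by ring
    _ ≤ 18 * armP P n := by linarith

/-- Comparison of one-arm probabilities. -/
theorem armP_ratio {P : Edg → ℝ} (ok : Ok P) (hh : ∀ e, 1/2 ≤ P e) {r n : ℕ} (hr : 0 < r)
    (hrn : r ≤ n) : kap^2 * r * (armP P r)^2 ≤ 48 * n * (armP P n)^2 := by
  have hn : 0 < n := by omega
  have hn1 : (1:ℝ) ≤ n := by exact_mod_cast hn
  have hk2 : kap^2 ≤ 1 := pow_le_one₀ kap_pos.le kap_le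
  have hk0 : 0 ≤ kap^2 := sq_nonneg _
  by_cases h3 : r < 3
  · have h4 := arm_half_sq (p := 1/2) le_rfl (by norm_num) hn
    have h4' : arm (1/2) n ≤ armP P n := armP_mono_param okhalf ok hh n
    have h4'' : (arm (1/2) n)^2 ≤ (armP P n)^2 :=
      pow_le_pow_left₀ (arm_nonneg (by norm_num) (by norm_num) _) h4' 2
    have h5 : (armP P r)^2 ≤ 1 := pow_le_one₀ (armP_nonneg ok _) (armP_le_one ok _)
    have h6 : (r:ℝ) ≤ 2 := by
      have : r ≤ 2 := by omega
      exact_mod_cast this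
    have h7 : 0 ≤ (armP P r)^2 := sq_nonneg _
    have h8 : kap^2 * r ≤ 2 := by
      have := mul_le_mul hk2 h6 (Nat.cast_nonneg r) (by norm_num : (0:ℝ) ≤ 1)
      linarith
    have h9 : 0 ≤ kap^2 * r := by positivity
    calc kap^2 * r * (armP P r)^2 ≤ 2 * 1 := mul_le_mul h8 h5 h7 (by norm_num)
      _ ≤ 2 * (16 * n * (arm (1/2) n)^2) := by linarith
      _ ≤ 2 * (16 * n * (armP P n)^2) := by
        apply mul_le_mul_of_nonneg_left _ (by norm_num)
        exact mul_le_mul_of_nonneg_left h4'' (by positivity)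
      _ ≤ 48 * n * (armP P n)^2 := by nlinarith [sq_nonneg (armP P n)]
  · push Not at h3
    set s := r / 3 with hs
    have hs1 : 0 < s := by omega
    have hs2 : 3 * s ≤ r := by omega
    have hs3 : r ≤ 3 * (2 * s + 1) := by omega
    have g := arm_glueP ok hh hs1 (hs2.trans hrn)
    have hb := barmP_low ok hh hn (show s ≤ n by omega)
    have ha : armP P r ≤ armP P (3 * s) := armP_anti ok hs2
    have ha2 : (armP P r)^2 ≤ (armP P (3 * s))^2 := pow_le_pow_left₀ (armP_nonneg ok _) ha 2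
    have g2 : (kap * (armP P (3 * s) * barmP P s n))^2 ≤ (armP P n)^2 :=
      pow_le_pow_left₀ (mul_nonneg kap_pos.le (mul_nonneg (armP_nonneg ok _)
        (barmP_nonneg ok _ _))) g 2
    have hr3 : (r:ℝ) ≤ 3 * (2 * s + 1) := by exact_mod_cast hs3
    have hA : 0 ≤ (armP P (3 * s))^2 := sq_nonneg _
    calc kap^2 * r * (armP P r)^2
        ≤ kap^2 * (3 * (2 * s + 1)) * (armP P (3 * s))^2 := by
          apply mul_le_mul _ ha2 (sq_nonneg _) (by positivity)
          exact mul_le_mul_of_nonneg_left hr3 hk0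
      _ = 3 * kap^2 * (armP P (3 * s))^2 * (2 * s + 1) := by ring
      _ ≤ 3 * kap^2 * (armP P (3 * s))^2 * (16 * n * (barmP P s n)^2) :=
          mul_le_mul_of_nonneg_left hb (by positivity)
      _ = 48 * n * (kap * (armP P (3 * s) * barmP P s n))^2 := by ring
      _ ≤ 48 * n * (armP P n)^2 := mul_le_mul_of_nonneg_left g2 (by positivity)

/-- The same comparison after taking square roots. -/
theorem armP_ratio' {P : Edg → ℝ} (ok : Ok P) (hh : ∀ e, 1/2 ≤ P e) {r n : ℕ} (hr : 0 < r)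
    (hrn : r ≤ n) : Real.sqrt r * armP P r ≤ 7 / kap * Real.sqrt n * armP P n := by
  have h1 := armP_ratio ok hh hr hrn
  have hk := kap_pos
  have hs2 : Real.sqrt r * Real.sqrt r = r := Real.mul_self_sqrt (by positivity)
  have hs3 : Real.sqrt n * Real.sqrt n = n := Real.mul_self_sqrt (by positivity)
  have ha := armP_nonneg ok n
  have hnn : 0 ≤ (n:ℝ) * (armP P n)^2 := by positivity
  have h2 : (kap * (Real.sqrt r * armP P r))^2 ≤ (7 * (Real.sqrt n * armP P n))^2 := by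
    calc (kap * (Real.sqrt r * armP P r))^2
        = kap^2 * (Real.sqrt r * Real.sqrt r) * (armP P r)^2 := by ring
      _ = kap^2 * r * (armP P r)^2 := by rw [hs2]
      _ ≤ 48 * n * (armP P n)^2 := h1
      _ ≤ 49 * n * (armP P n)^2 := by linarith
      _ = 49 * (Real.sqrt n * Real.sqrt n) * (armP P n)^2 := by rw [hs3]
      _ = (7 * (Real.sqrt n * armP P n))^2 := by ring
  have h3 : kap * (Real.sqrt r * armP P r) ≤ 7 * (Real.sqrt n * armP P n) :=
    (le_abs_self _).trans (abs_le_of_sq_le_sq h2 (by positivity))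
  rw [div_mul_eq_mul_div, div_mul_eq_mul_div, le_div_iff₀ hk]
  linarith

end H974
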