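import Mathlib

/-!
Bond percolation on the square lattice.
-/

namespace H974

open MeasureTheory

/-- The square lattice: two points of `ℤ²` are adjacent when they differ by one in exactly one
coordinate. -/
def sqLattice : SimpleGraph (ℤ × ℤ) where
  Adj u v := |u.1 - v.1| + |u.2 - v.2| = 1
  symm := ⟨fun u v h => by rw [abs_sub_comm v.1, abs_sub_comm v.2]; exact h⟩
  loopless := ⟨fun u h => by simp at h⟩

/-- The law of a configuration: every edge of the square lattice is open (`true`) with
probability `p`, independently of the other edges. -/
noncomputable def bondLaw (p : unitInterval) : Measure (sqLattice.edgeSet → Bool) :=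
  Measure.infinitePi (fun _ => ProbabilityTheory.bernoulliMeasure true false p)

/-- The graph formed by the open edges. -/
def openGraph (ω : sqLattice.edgeSet → Bool) : SimpleGraph (ℤ × ℤ) :=
  SimpleGraph.fromEdgeSet {e | ∃ h : e ∈ sqLattice.edgeSet, ω ⟨e, h⟩ = true}

/-- The open cluster of the origin. -/
def cluster0 (ω : sqLattice.edgeSet → Bool) : Set (ℤ × ℤ) :=
  {v | (openGraph ω).Reachable (0, 0) v}

/-- The percolation probability: the probability that the cluster of the origin is infinite. -/
noncomputable def theta (p : unitInterval) : ℝ :=
  (bondLaw p).real {ω | (cluster0 ω).Infinite}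

/-- The critical probability of bond percolation on the square lattice. -/
noncomputable def pcrit : unitInterval := sSup {p | theta p = 0}

end H974
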