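import Pool.Agent.H974R2.FourArm

/-!
Pivotal edges for one-arm events.
-/

set_option maxHeartbeats 400000

namespace H974

open Finset

/-- A path from outside a rectangle into it reaches its boundary from outside. -/
theorem first_entry {G : Set Edg} {a b c d : ℤ} {w v : Vtx} (hw : ¬ inR a b c d w ∨
    (w.1 = a ∨ w.1 = b ∨ w.2 = c ∨ w.2 = d)) (h : Reach G w v) (hv : inR a b c d v) :
    ∃ u, inR a b c d u ∧ (u.1 = a ∨ u.1 = b ∨ u.2 = c ∨ u.2 = d) ∧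
      Reach (G \ ↑(RE a b c d)) w u := by
  by_cases hin : inR a b c d w
  · rcases hw with hw | hw
    · exact absurd hin hw
    · exact ⟨w, hin, hw, Reach.refl _ _⟩
  · have key : ∀ v, Reach G w v → (∃ u, inR a b c d u ∧
        (u.1 = a ∨ u.1 = b ∨ u.2 = c ∨ u.2 = d) ∧ Reach (G \ ↑(RE a b c d)) w u) ∨
        (¬ inR a b c d v ∧ Reach (G \ ↑(RE a b c d)) w v) := by
      intro v hv
      induction hv with
      | refl => exact Or.inr ⟨hin, Reach.refl _ _⟩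
      | @tail v' v'' _ hs ih =>
        rcases ih with ih | ⟨ih1, ih2⟩
        · exact Or.inl ih
        · obtain ⟨⟨x0, y0, bo⟩, heG, hcase⟩ := hs
          have hmem : ((x0, y0, bo) : Edg) ∉ RE a b c d := by
            intro hm
            apply ih1
            unfold inR
            cases bo
            · rw [mem_RE_false] at hm
              simp only [src_mk, tgt_false] at hcase
              rcases hcase with ⟨h3, h4⟩ | ⟨h3, h4⟩
              · rw [← h3]; simp only; omega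
              · rw [← h4]; simp only; omega
            · rw [mem_RE_true] at hm
              simp only [src_mk, tgt_true] at hcase
              rcases hcase with ⟨h3, h4⟩ | ⟨h3, h4⟩
              · rw [← h3]; simp only; omega
              · rw [← h4]; simp only; omega
          have hadj : Adj (G \ ↑(RE a b c d)) v' v'' := ⟨_, ⟨heG, hmem⟩, hcase⟩
          have hr := ih2.trans hadj.reach
          by_cases hin'' : inR a b c d v''
          · left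
            refine ⟨v'', hin'', ?_, hr⟩
            unfold inR at ih1 hin''
            cases bo
            · simp only [src_mk, tgt_false] at hcase
              rcases hcase with ⟨h3, h4⟩ | ⟨h3, h4⟩
              · rw [← h3] at ih1; rw [← h4] at hin'' ⊢; simp only at ih1 hin'' ⊢; omega
              · rw [← h4] at ih1; rw [← h3] at hin'' ⊢; simp only at ih1 hin'' ⊢; omega
            · simp only [src_mk, tgt_true] at hcase
              rcases hcase with ⟨h3, h4⟩ | ⟨h3, h4⟩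
              · rw [← h3] at ih1; rw [← h4] at hin'' ⊢; simp only at ih1 hin'' ⊢; omega
              · rw [← h4] at ih1; rw [← h3] at hin'' ⊢; simp only at ih1 hin'' ⊢; omega
          · exact Or.inr ⟨hin'', hr⟩
    rcases key v h with h1 | ⟨h1, _⟩
    · exact h1
    · exact absurd hv h1

/-- Connection between the boundaries of two boxes outside the smaller one. -/
def XArm (r n : ℕ) (F : Finset Edg) : Prop :=
  ∃ u v, onB r u ∧ onB n v ∧ Reach (↑F ∩ ↑(boxE n \ boxE r)) u v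

theorem XArm.mono {r n : ℕ} {F G : Finset Edg} (h : F ⊆ G) (hF : XArm r n F) : XArm r n G := by
  obtain ⟨u, v, h0, h1, h2⟩ := hF
  exact ⟨u, v, h0, h1, h2.mono (Set.inter_subset_inter_left _ (by exact_mod_cast h))⟩

theorem XArm_local {r n : ℕ} {F S : Finset Edg} (hS : boxE n \ boxE r ⊆ S) :
    XArm r n F ↔ XArm r n (F ∩ S) := by
  unfold XArm
  rw [coe_inter_eq hS]

/-- The edge `e` is pivotal for the one-arm event. -/
def PivA (n : ℕ) (e : Edg) (F : Finset Edg) : Prop := Arm n (insert e F) ∧ ¬ Arm n F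

theorem piv_split {n r1 r2 ρ : ℕ} {c1 c2 : ℤ} {e : Edg} (he : e ∈ Cor c1 c2 ρ)
    (h0 : 0 ≤ c1 - 4 * ρ ∨ c1 + 4 * ρ ≤ 0 ∨ 0 ≤ c2 - 4 * ρ ∨ c2 + 4 * ρ ≤ 0)
    (hd : Disjoint (Lam c1 c2 ρ) (boxE r1)) (hr1 : r1 ≤ n) (hr2 : r2 ≤ n)
    (hL : -(r2:ℤ) ≤ c1 - 4 * ρ ∧ c1 + 4 * ρ ≤ r2 ∧ -(r2:ℤ) ≤ c2 - 4 * ρ ∧ c2 + 4 * ρ ≤ r2)
    {F : Finset Edg} (hF : F ⊆ (boxE n).erase e) (hp : PivA n e F) :
    Arm r1 F ∧ (XArm r2 n F ∧ F4 src tgt (BL c1 c2 ρ) e (F ∩ (Lam c1 c2 ρ).erase e)) := by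
  obtain ⟨⟨w, hw, hr⟩, hno⟩ := hp
  have hr1' : (r1:ℤ) ≤ n := by exact_mod_cast hr1
  have hr2' : (r2:ℤ) ≤ n := by exact_mod_cast hr2
  have heL : e ∈ Lam c1 c2 ρ := Cor_sub c1 c2 ρ he
  have hLsub : Lam c1 c2 ρ ⊆ boxE r2 := RE_subset hL.1 hL.2.1 hL.2.2.1 hL.2.2.2
  have her2 : e ∈ boxE r2 := hLsub heL
  have hen : e ∈ boxE n := boxE_mono hr2 her2
  have her1 : e ∉ boxE r1 := fun h => Finset.disjoint_left.mp hd heL h
  have heF : e ∉ F := fun h => (Finset.notMem_erase e _) (hF h)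
  refine ⟨?_, ?_, ?_⟩
  · obtain ⟨z, k1, k2, k3⟩ := first_exit (a := -r1) (b := r1) (c := -r1) (d := r1)
      (by unfold inR; simp) hr (by unfold onB at hw; omega)
    refine ⟨z, ⟨k1, k2⟩, k3.mono ?_⟩
    rintro g ⟨⟨k4, -⟩, k5⟩
    refine ⟨?_, k5⟩
    rcases Finset.mem_insert.mp (Finset.mem_coe.mp k4) with k6 | k6
    · exact absurd (k6 ▸ k5) her1
    · exact k6
  · obtain ⟨z, k1, k2, k3⟩ := first_entry (a := -r2) (b := r2) (c := -r2) (d := r2)
      (w := w) (v := (0, 0)) (by unfold onB inR at hw; unfold inR; omega) hr.symm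
      (by unfold inR; simp)
    refine ⟨z, w, ⟨k1, k2⟩, hw, k3.symm.mono ?_⟩
    rintro g ⟨⟨k4, k5⟩, k6⟩
    have hgr2 : g ∉ boxE r2 := fun h => k6 (Finset.mem_coe.mpr h)
    refine ⟨?_, ?_⟩
    · rcases Finset.mem_insert.mp (Finset.mem_coe.mp k4) with k7 | k7
      · exact absurd (k7 ▸ her2) hgr2
      · exact k7
    · rw [Finset.mem_coe, Finset.mem_sdiff]
      exact ⟨k5, hgr2⟩
  · have hset : (↑(insert e F) : Set Edg) ∩ ↑(boxE n) = insert e ((↑F : Set Edg) ∩ ↑(boxE n)) := by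
      ext g
      simp only [Finset.coe_insert, Set.mem_inter_iff, Set.mem_insert_iff]
      constructor
      · rintro ⟨h1 | h1, h2⟩
        · exact Or.inl h1
        · exact Or.inr ⟨h1, h2⟩
      · rintro (h1 | ⟨h1, h2⟩)
        · rw [h1]; exact ⟨Or.inl rfl, hen⟩
        · exact ⟨Or.inr h1, h2⟩
    rw [hset] at hr
    have hne : ∀ v, onB n v → ¬ Reach ((↑F : Set Edg) ∩ ↑(boxE n)) (0, 0) v :=
      fun v hv h => hno ⟨v, hv, h⟩
    have hwout : w.1 ≤ c1 - 4 * ρ ∨ c1 + 4 * ρ ≤ w.1 ∨ w.2 ≤ c2 - 4 * ρ ∨ c2 + 4 * ρ ≤ w.2 := by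
      unfold onB at hw; omega
    have hsin : inR (c1 - 4 * ρ) (c1 + 4 * ρ) (c2 - 4 * ρ) (c2 + 4 * ρ) (src e) ∧
        inR (c1 - 4 * ρ) (c1 + 4 * ρ) (c2 - 4 * ρ) (c2 + 4 * ρ) (tgt e) := by
      unfold Cor at he
      unfold inR
      obtain ⟨x, y, _ | _⟩ := e
      · rw [mem_RE_false] at he; simp only [src_mk, tgt_false]; omega
      · rw [mem_RE_true] at he; simp only [src_mk, tgt_true]; omega
    have hloc : ∀ u : Vtx, inR (c1 - 4 * ρ) (c1 + 4 * ρ) (c2 - 4 * ρ) (c2 + 4 * ρ) u →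
        ∀ v : Vtx, (v.1 ≤ c1 - 4 * ρ ∨ c1 + 4 * ρ ≤ v.1 ∨ v.2 ≤ c2 - 4 * ρ ∨ c2 + 4 * ρ ≤ v.2) →
        Reach ((↑F : Set Edg) ∩ ↑(boxE n)) u v →
        RB src tgt (BL c1 c2 ρ) (↑(F ∩ (Lam c1 c2 ρ).erase e) : Set Edg) u := by
      intro u hu v hv huv
      obtain ⟨z, k1, k2, k3⟩ := first_exit hu huv hv
      refine ⟨z, ⟨k1, k2⟩, k3.mono ?_⟩
      rintro g ⟨⟨k4, -⟩, k5⟩
      rw [Finset.mem_coe, Finset.mem_inter, Finset.mem_erase]
      exact ⟨k4, fun h => heF (h ▸ k4), k5⟩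
    have hsubl : (↑(F ∩ (Lam c1 c2 ρ).erase e) : Set Edg) ⊆ (↑F : Set Edg) ∩ ↑(boxE n) := by
      intro g hg
      rw [Finset.mem_coe, Finset.mem_inter, Finset.mem_erase] at hg
      exact ⟨hg.1, boxE_mono hr2 (hLsub hg.2.2)⟩
    have hz : ((0, 0) : Vtx).1 ≤ c1 - 4 * ρ ∨ c1 + 4 * ρ ≤ ((0, 0) : Vtx).1 ∨
        ((0, 0) : Vtx).2 ≤ c2 - 4 * ρ ∨ c2 + 4 * ρ ≤ ((0, 0) : Vtx).2 := h0
    rcases GR_insert.mp (reach_GR.mp hr) with h1 | ⟨h1, h2⟩ | ⟨h1, h2⟩
    · exact absurd (reach_GR.mpr h1) (hne w hw)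
    · have h1' : Reach ((↑F : Set Edg) ∩ ↑(boxE n)) (0, 0) (src e) := h1
      have h2' : Reach ((↑F : Set Edg) ∩ ↑(boxE n)) (tgt e) w := h2
      refine ⟨hloc _ hsin.1 _ hz h1'.symm, hloc _ hsin.2 _ hwout h2', ?_⟩
      intro h3
      exact hne w hw (h1'.trans (((reach_GR.mpr h3).mono hsubl).trans h2'))
    · have h1' : Reach ((↑F : Set Edg) ∩ ↑(boxE n)) (0, 0) (tgt e) := h1
      have h2' : Reach ((↑F : Set Edg) ∩ ↑(boxE n)) (src e) w := h2
      refine ⟨hloc _ hsin.1 _ hwout h2', hloc _ hsin.2 _ hz h1'.symm, ?_⟩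
      intro h3
      exact hne w hw (h1'.trans (((reach_GR.mpr h3).symm.mono hsubl).trans h2'))

/-- One-arm probability for a general parameter. -/
noncomputable def armP (P : Edg → ℝ) (n : ℕ) : ℝ := Pr P (boxE n) (Arm n)

/-- Box-to-boundary probability for a general parameter. -/
noncomputable def barmP (P : Edg → ℝ) (r n : ℕ) : ℝ := Pr P (boxE n) (BArm r n)

theorem BArm_of_XArm {r n : ℕ} {F : Finset Edg} (h : XArm r n F) : BArm r n F := by
  obtain ⟨u, v, h0, h1, h2⟩ := h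
  refine ⟨u, v, h0.1, h1, h2.mono (Set.inter_subset_inter_right _ ?_)⟩
  exact_mod_cast Finset.sdiff_subset

theorem piv_bound {P : Edg → ℝ} (hP : Ok P) {n r1 r2 ρ : ℕ} {c1 c2 : ℤ} {e : Edg}
    (he : e ∈ Cor c1 c2 ρ)
    (h0 : 0 ≤ c1 - 4 * ρ ∨ c1 + 4 * ρ ≤ 0 ∨ 0 ≤ c2 - 4 * ρ ∨ c2 + 4 * ρ ≤ 0)
    (hd : Disjoint (Lam c1 c2 ρ) (boxE r1)) (hr12 : r1 ≤ r2) (hr2 : r2 ≤ n)
    (hL : -(r2:ℤ) ≤ c1 - 4 * ρ ∧ c1 + 4 * ρ ≤ r2 ∧ -(r2:ℤ) ≤ c2 - 4 * ρ ∧ c2 + 4 * ρ ≤ r2) :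
    Pr P ((boxE n).erase e) (PivA n e) ≤
      (armP P r1 * barmP P r2 n) * Pr P ((Lam c1 c2 ρ).erase e) (F4 src tgt (BL c1 c2 ρ) e) := by
  set U := (boxE n).erase e with hU
  have heL : e ∈ Lam c1 c2 ρ := Cor_sub c1 c2 ρ he
  have hLsub : Lam c1 c2 ρ ⊆ boxE r2 := RE_subset hL.1 hL.2.1 hL.2.2.1 hL.2.2.2
  have her2 : e ∈ boxE r2 := hLsub heL
  have her1 : e ∉ boxE r1 := fun h => Finset.disjoint_left.mp hd heL h
  have s1 : boxE r1 ⊆ U := by
    intro g hg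
    rw [hU, Finset.mem_erase]
    exact ⟨fun h => her1 (h ▸ hg), boxE_mono (hr12.trans hr2) hg⟩
  have s2 : boxE n \ boxE r2 ⊆ U := by
    intro g hg
    rw [Finset.mem_sdiff] at hg
    rw [hU, Finset.mem_erase]
    exact ⟨fun h => hg.2 (h ▸ her2), hg.1⟩
  have s3 : (Lam c1 c2 ρ).erase e ⊆ U := by
    intro g hg
    rw [Finset.mem_erase] at hg
    rw [hU, Finset.mem_erase]
    exact ⟨hg.1, boxE_mono hr2 (hLsub hg.2)⟩
  have t1 : Pr P U (PivA n e) ≤ Pr P U (fun F => Arm r1 F ∧ (XArm r2 n F ∧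
      F4 src tgt (BL c1 c2 ρ) e (F ∩ (Lam c1 c2 ρ).erase e))) := by
    apply Pr_mono hP
    intro F hF hp
    exact piv_split he h0 hd (hr12.trans hr2) hr2 hL hF hp
  have d1 : Disjoint (boxE r1) ((boxE n \ boxE r2) ∪ (Lam c1 c2 ρ).erase e) := by
    rw [Finset.disjoint_union_right]
    refine ⟨?_, ?_⟩
    · rw [Finset.disjoint_left]
      intro g hg hg'
      rw [Finset.mem_sdiff] at hg'
      exact hg'.2 (boxE_mono hr12 hg)
    · exact (Finset.disjoint_of_subset_left (Finset.erase_subset _ _) hd).symm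
  have d2 : Disjoint (boxE n \ boxE r2) ((Lam c1 c2 ρ).erase e) := by
    rw [Finset.disjoint_left]
    intro g hg hg'
    rw [Finset.mem_sdiff] at hg
    exact hg.2 (hLsub (Finset.mem_of_mem_erase hg'))
  have i1 := Pr_indep (p := P) s1 (Finset.union_subset s2 s3) d1 (A := Arm r1)
    (B := fun F => XArm r2 n F ∧ F4 src tgt (BL c1 c2 ρ) e (F ∩ (Lam c1 c2 ρ).erase e))
    (fun F _ => Arm_local (Finset.Subset.refl _))
    (by
      intro F _
      have e1 : F ∩ (boxE n \ boxE r2 ∪ (Lam c1 c2 ρ).erase e) ∩ (Lam c1 c2 ρ).erase e =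
          F ∩ (Lam c1 c2 ρ).erase e := by
        ext x; simp only [Finset.mem_inter, Finset.mem_union]; tauto
      rw [XArm_local (F := F) (S := boxE n \ boxE r2 ∪ (Lam c1 c2 ρ).erase e)
        Finset.subset_union_left, e1])
  have i2 := Pr_indep (p := P) s2 s3 d2 (A := XArm r2 n)
    (B := fun F => F4 src tgt (BL c1 c2 ρ) e (F ∩ (Lam c1 c2 ρ).erase e))
    (fun F _ => XArm_local (Finset.Subset.refl _))
    (by
      intro F _
      rw [Finset.inter_assoc, Finset.inter_self])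
  rw [i1, i2] at t1
  have u1 : Pr P U (Arm r1) = armP P r1 := by
    unfold armP
    exact Pr_local s1 (fun F _ => Arm_local (Finset.Subset.refl _))
  have u2 : Pr P U (XArm r2 n) ≤ barmP P r2 n := by
    unfold barmP
    refine le_trans (Pr_mono_set hP (Finset.erase_subset _ _) (T := boxE n)
      (fun F G h _ hF => hF.mono h)) ?_
    exact Pr_mono hP (fun F _ h => BArm_of_XArm h)
  have u3 : Pr P U (fun F => F4 src tgt (BL c1 c2 ρ) e (F ∩ (Lam c1 c2 ρ).erase e)) =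
      Pr P ((Lam c1 c2 ρ).erase e) (F4 src tgt (BL c1 c2 ρ) e) := by
    rw [Pr_local s3 (fun F _ => by rw [Finset.inter_assoc, Finset.inter_self])]
    apply Pr_congr
    intro F hF
    rw [Finset.inter_eq_left.mpr hF]
  rw [u1, u3] at t1
  refine t1.trans ?_
  have n1 : 0 ≤ armP P r1 := Pr_nonneg hP _ _
  have n3 : 0 ≤ Pr P ((Lam c1 c2 ρ).erase e) (F4 src tgt (BL c1 c2 ρ) e) := Pr_nonneg hP _ _
  calc armP P r1 * (Pr P U (XArm r2 n) * Pr P ((Lam c1 c2 ρ).erase e)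
        (F4 src tgt (BL c1 c2 ρ) e))
      ≤ armP P r1 * (barmP P r2 n * Pr P ((Lam c1 c2 ρ).erase e)
        (F4 src tgt (BL c1 c2 ρ) e)) :=
        mul_le_mul_of_nonneg_left (mul_le_mul_of_nonneg_right u2 n3) n1
    _ = _ := by ring

/-- The centre of the covering box. -/
def cen (ρ : ℕ) (e : Edg) : ℤ × ℤ :=
  (2 * ρ * (e.1 / (2 * ρ)) + ρ, 2 * ρ * (e.2.1 / (2 * ρ)) + ρ)

theorem cen_mem {ρ : ℕ} (hρ : 0 < ρ) (e : Edg) : e ∈ Cor (cen ρ e).1 (cen ρ e).2 ρ := by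
  obtain ⟨x, y, bo⟩ := e
  have h2 : (0:ℤ) < 2 * ρ := by positivity
  have k1 := Int.mul_ediv_add_emod x (2 * ρ)
  have k2 := Int.emod_nonneg x h2.ne'
  have k3 := Int.emod_lt_of_pos x h2
  have l1 := Int.mul_ediv_add_emod y (2 * ρ)
  have l2 := Int.emod_nonneg y h2.ne'
  have l3 := Int.emod_lt_of_pos y h2
  unfold Cor cen
  simp only
  cases bo
  · rw [mem_RE_false]; omega
  · rw [mem_RE_true]; omega

/-- The sum over an annulus. -/
theorem ann_sum {P : Edg → ℝ} (hP : ∀ e, 1/4 ≤ P e ∧ P e ≤ 3/4)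
    (hside : (∀ e, P e ≤ 1/2) ∨ (∀ e, 1/2 ≤ P e)) {q1 q2 : ℝ} (h1 : ∀ e, P e ≤ q1)
    (h2 : ∀ e, 1 - P e ≤ q2) (hq1 : q1 ≤ 1) (hq2 : q2 ≤ 1) {ρ n : ℕ} (hρ : 5 ≤ ρ)
    (hn : 37 * ρ ≤ n) :
    ∑ e ∈ boxE (32 * ρ) \ boxE (16 * ρ), Pr P ((boxE n).erase e) (PivA n e) ≤
      1089 * ((armP P (11 * ρ) * barmP P (37 * ρ) n) *
        (33 / kap * ρ * Real.sqrt (arm q1 ρ * arm q2 ρ))) := by
  classical
  have ok : Ok P := fun e => ⟨by linarith [(hP e).1], by linarith [(hP e).2]⟩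
  set A := boxE (32 * ρ) \ boxE (16 * ρ) with hA
  set X := armP P (11 * ρ) * barmP P (37 * ρ) n with hX
  have hX0 : 0 ≤ X := mul_nonneg (Pr_nonneg ok _ _) (Pr_nonneg ok _ _)
  set J : Finset (ℤ × ℤ) := (Finset.Icc (-16) 16 ×ˢ Finset.Icc (-16) 16).image
    (fun ij : ℤ × ℤ => (2 * (ρ:ℤ) * ij.1 + ρ, 2 * (ρ:ℤ) * ij.2 + ρ)) with hJ
  have hJcard : (J.card : ℝ) ≤ 1089 := by
    have : J.card ≤ 1089 := by
      rw [hJ]
      refine Finset.card_image_le.trans ?_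
      rw [Finset.card_product, Int.card_Icc]
      decide
    exact_mod_cast this
  have hρ' : (5:ℤ) ≤ ρ := by exact_mod_cast hρ
  have hmap : ∀ e ∈ A, cen ρ e ∈ J := by
    rintro ⟨x, y, bo⟩ he
    have hb : (-(32 * (ρ:ℤ)) ≤ x ∧ x ≤ 32 * ρ) ∧ (-(32 * (ρ:ℤ)) ≤ y ∧ y ≤ 32 * ρ) := by
      rw [hA, Finset.mem_sdiff] at he
      have h3 := he.1
      unfold boxE at h3
      cases bo
      · rw [mem_RE_false] at h3; push_cast at h3; omega
      · rw [mem_RE_true] at h3; push_cast at h3; omega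
    have h2 : (0:ℤ) < 2 * ρ := by omega
    rw [hJ, Finset.mem_image]
    refine ⟨(x / (2 * ρ), y / (2 * ρ)), ?_, rfl⟩
    rw [Finset.mem_product, Finset.mem_Icc, Finset.mem_Icc]
    refine ⟨⟨?_, ?_⟩, ?_, ?_⟩
    · rw [Int.le_ediv_iff_mul_le h2]; linarith
    · have : x / (2 * ρ) < 17 := by
        rw [Int.ediv_lt_iff_lt_mul h2]; omega
      omega
    · rw [Int.le_ediv_iff_mul_le h2]; linarith
    · have : y / (2 * ρ) < 17 := by
        rw [Int.ediv_lt_iff_lt_mul h2]; omega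
      omega
  rw [← Finset.sum_fiberwise_of_maps_to hmap]
  have hterm : ∀ c ∈ J, ∑ e ∈ A.filter (fun e => cen ρ e = c),
      Pr P ((boxE n).erase e) (PivA n e) ≤
      X * (33 / kap * ρ * Real.sqrt (arm q1 ρ * arm q2 ρ)) := by
    intro c _
    have hf := four_arm hP hside h1 h2 hq1 hq2 hρ c.1 c.2
    have hle : ∀ e ∈ A.filter (fun e => cen ρ e = c), Pr P ((boxE n).erase e) (PivA n e) ≤
        X * Pr P ((Lam c.1 c.2 ρ).erase e) (F4 src tgt (BL c.1 c.2 ρ) e) := by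
      intro e he
      rw [Finset.mem_filter] at he
      obtain ⟨heA, hec⟩ := he
      have heC : e ∈ Cor c.1 c.2 ρ := by
        rw [← hec]; exact cen_mem (by omega) e
      have hpos : (e ∈ boxE (32 * ρ)) ∧ (e ∉ boxE (16 * ρ)) := by
        rw [hA, Finset.mem_sdiff] at heA; exact heA
      have hgeo : (0 ≤ c.1 - 4 * ρ ∨ c.1 + 4 * ρ ≤ 0 ∨ 0 ≤ c.2 - 4 * ρ ∨ c.2 + 4 * ρ ≤ 0) ∧
          (11 * (ρ:ℤ) < c.1 - 4 * ρ ∨ c.1 + 4 * ρ < -(11 * (ρ:ℤ)) ∨
            11 * (ρ:ℤ) < c.2 - 4 * ρ ∨ c.2 + 4 * ρ < -(11 * (ρ:ℤ))) ∧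
          (-(37 * (ρ:ℤ)) ≤ c.1 - 4 * ρ ∧ c.1 + 4 * ρ ≤ 37 * ρ ∧
            -(37 * (ρ:ℤ)) ≤ c.2 - 4 * ρ ∧ c.2 + 4 * ρ ≤ 37 * ρ) := by
        have hc1 : c.1 = 2 * ρ * (e.1 / (2 * ρ)) + ρ := by rw [← hec]; rfl
        have hc2 : c.2 = 2 * ρ * (e.2.1 / (2 * ρ)) + ρ := by rw [← hec]; rfl
        have h2 : (0:ℤ) < 2 * ρ := by omega
        have k1 := Int.mul_ediv_add_emod e.1 (2 * ρ)
        have k2 := Int.emod_nonneg e.1 h2.ne'
        have k3 := Int.emod_lt_of_pos e.1 h2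
        have l1 := Int.mul_ediv_add_emod e.2.1 (2 * ρ)
        have l2 := Int.emod_nonneg e.2.1 h2.ne'
        have l3 := Int.emod_lt_of_pos e.2.1 h2
        obtain ⟨x, y, bo⟩ := e
        unfold boxE at hpos
        simp only at hc1 hc2 k1 k2 k3 l1 l2 l3
        cases bo
        · rw [mem_RE_false, mem_RE_false] at hpos
          push_cast at hpos
          omega
        · rw [mem_RE_true, mem_RE_true] at hpos
          push_cast at hpos
          omega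
      have hdis : Disjoint (Lam c.1 c.2 ρ) (boxE (11 * ρ)) := by
        rw [Finset.disjoint_left]
        unfold Lam boxE
        rintro ⟨x, y, _ | _⟩ g1 g2
        · rw [mem_RE_false] at g1 g2
          push_cast at g1 g2
          omega
        · rw [mem_RE_true] at g1 g2
          push_cast at g1 g2
          omega
      exact piv_bound ok heC hgeo.1 hdis (by omega) hn (by push_cast; exact hgeo.2.2)
    have hsub : A.filter (fun e => cen ρ e = c) ⊆ Cor c.1 c.2 ρ := by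
      intro e he
      rw [Finset.mem_filter] at he
      rw [← he.2]; exact cen_mem (by omega) e
    calc ∑ e ∈ A.filter (fun e => cen ρ e = c), Pr P ((boxE n).erase e) (PivA n e)
        ≤ ∑ e ∈ A.filter (fun e => cen ρ e = c),
          X * Pr P ((Lam c.1 c.2 ρ).erase e) (F4 src tgt (BL c.1 c.2 ρ) e) :=
          Finset.sum_le_sum hle
      _ ≤ ∑ e ∈ Cor c.1 c.2 ρ,
          X * Pr P ((Lam c.1 c.2 ρ).erase e) (F4 src tgt (BL c.1 c.2 ρ) e) :=
          Finset.sum_le_sum_of_subset_of_nonneg hsub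
            (fun e _ _ => mul_nonneg hX0 (Pr_nonneg ok _ _))
      _ = X * ∑ e ∈ Cor c.1 c.2 ρ,
          Pr P ((Lam c.1 c.2 ρ).erase e) (F4 src tgt (BL c.1 c.2 ρ) e) := by
          rw [Finset.mul_sum]
      _ ≤ _ := mul_le_mul_of_nonneg_left hf hX0
  have hY0 : 0 ≤ X * (33 / kap * ρ * Real.sqrt (arm q1 ρ * arm q2 ρ)) := by
    have := kap_pos
    positivity
  calc ∑ c ∈ J, ∑ e ∈ A.filter (fun e => cen ρ e = c), Pr P ((boxE n).erase e) (PivA n e)
      ≤ ∑ _c ∈ J, X * (33 / kap * ρ * Real.sqrt (arm q1 ρ * arm q2 ρ)) :=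
        Finset.sum_le_sum hterm
    _ = J.card * (X * (33 / kap * ρ * Real.sqrt (arm q1 ρ * arm q2 ρ))) := by
        rw [Finset.sum_const, nsmul_eq_mul]
    _ ≤ _ := mul_le_mul_of_nonneg_right hJcard hY0

end H974
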