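import Pool.Agent.H974R2.Down

/-!
Near-critical stability of crossing probabilities below the critical point.
-/

set_option maxHeartbeats 400000

namespace H974

open Finset

theorem closed_dual {w H : ℤ} (hw : 0 ≤ w) (hH : 0 ≤ H) {F : Finset Edg}
    (h2 : ¬ LRc 0 w 0 H F) : ∃ x x', (0 ≤ x ∧ x < w) ∧ (0 ≤ x' ∧ x' < w) ∧
      DReach ((↑F : Set Edg)ᶜ ∩ ↑(LRE 0 w 0 H)) (x, 0 - 1) (x', H) := by
  set W : Vtx → Prop := fun v => ∃ y, (0 ≤ y ∧ y ≤ H) ∧ Reach (↑F ∩ ↑(LRE 0 w 0 H)) (0, y) v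
    with hW
  have hL : ∀ y, 0 ≤ y → y ≤ H → W (0, y) := fun y h3 h4 => ⟨y, ⟨h3, h4⟩, Reach.refl _ _⟩
  have hR : ∀ y, 0 ≤ y → y ≤ H → ¬ W (w, y) := by
    rintro y h3 h4 ⟨y0, h5, h6⟩
    exact h2 ⟨y0, y, h5, ⟨h3, h4⟩, h6⟩
  obtain ⟨x, x', hx, hx', hr⟩ := dual_crossing hw hH W hL hR
  refine ⟨x, x', hx, hx', ?_⟩
  refine DReach.mono ?_ hr
  rintro e ⟨he1, he2⟩
  refine ⟨?_, he2⟩
  intro heF
  apply he1
  constructor
  · rintro ⟨y, h3, h4⟩
    exact ⟨y, h3, h4.trans (Adj.reach ⟨e, ⟨heF, he2⟩, Or.inl ⟨rfl, rfl⟩⟩)⟩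
  · rintro ⟨y, h3, h4⟩
    exact ⟨y, h3, h4.trans (Adj.reach ⟨e, ⟨heF, he2⟩, Or.inr ⟨rfl, rfl⟩⟩)⟩

theorem piv_GG {w H : ℤ} (hw : 0 < w) (hH : 0 ≤ H) {e : Edg} (he : e ∈ LRE 0 w 0 H)
    {F : Finset Edg} (hF : F ⊆ (LRE 0 w 0 H).erase e) (h1 : LRc 0 w 0 H (insert e F))
    (h2 : ¬ LRc 0 w 0 H F) :
    GG src tgt dsrc dtgt {v : Vtx | v.1 = 0} {v : Vtx | v.2 = 0 - 1} (LRE 0 w 0 H) e F := by
  have heF : e ∉ F := fun h => (Finset.notMem_erase e _) (hF h)
  have hFS : F ⊆ LRE 0 w 0 H := hF.trans (Finset.erase_subset _ _)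
  have hFe : F.erase e = F := Finset.erase_eq_of_notMem heF
  obtain ⟨x, x', hx, hx', hd⟩ := closed_dual hw.le hH h2
  obtain ⟨y, y', hy, hy', hr⟩ := h1
  have hset : (↑(insert e F) : Set Edg) ∩ ↑(LRE 0 w 0 H) = insert e (↑F : Set Edg) := by
    ext g
    simp only [Finset.coe_insert, Set.mem_inter_iff, Set.mem_insert_iff, Finset.mem_coe]
    constructor
    · rintro ⟨h1, h2⟩
      exact h1
    · rintro (h1 | h1)
      · rw [h1]; exact ⟨Or.inl rfl, he⟩
      · exact ⟨Or.inr h1, hFS h1⟩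
  refine ⟨?_, ?_⟩
  · rw [hset] at hr
    rw [hFe]
    rcases GR_insert.mp (reach_GR.mp hr) with k1 | ⟨k1, k2⟩ | ⟨k1, k2⟩
    · exfalso
      apply h2
      refine ⟨y, y', hy, hy', (reach_GR.mpr k1).mono ?_⟩
      intro g hg
      exact ⟨hg, hFS hg⟩
    · exact ⟨(0, y), rfl, Or.inl k1.symm⟩
    · exact ⟨(0, y), rfl, Or.inr k1.symm⟩
  · have hset2 : (↑F : Set Edg)ᶜ ∩ ↑(LRE 0 w 0 H) =
        insert e (↑((LRE 0 w 0 H \ F).erase e) : Set Edg) := by
      ext g
      simp only [Set.mem_inter_iff, Set.mem_compl_iff, Finset.mem_coe, Set.mem_insert_iff,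
        Finset.mem_erase, Finset.mem_sdiff]
      constructor
      · rintro ⟨h1, h2⟩
        by_cases hge : g = e
        · exact Or.inl hge
        · exact Or.inr ⟨hge, h2, h1⟩
      · rintro (h1 | h1)
        · rw [h1]; exact ⟨heF, he⟩
        · exact ⟨h1.2.2, h1.2.1⟩
    rw [hset2] at hd
    have hd' : GR dsrc dtgt (insert e (↑((LRE 0 w 0 H \ F).erase e) : Set Edg)) (x, 0 - 1)
        (x', H) := hd
    rcases GR_insert.mp hd' with k1 | ⟨k1, k2⟩ | ⟨k1, k2⟩
    · exfalso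
      have k3 : DReach ((↑(insert e F) : Set Edg)ᶜ ∩ ↑(LRE 0 w 0 H)) (x, 0 - 1) (x', H) := by
        refine DReach.mono ?_ (show DReach _ _ _ from k1)
        intro g hg
        rw [Finset.mem_coe, Finset.mem_erase, Finset.mem_sdiff] at hg
        refine ⟨?_, hg.2.1⟩
        intro hgi
        rcases Finset.mem_insert.mp (Finset.mem_coe.mp hgi) with h | h
        · exact hg.1 h
        · exact hg.2.2 h
      exact no_both hH hy' hx hr k3
    · exact ⟨(x, 0 - 1), rfl, Or.inl k1.symm⟩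
    · exact ⟨(x, 0 - 1), rfl, Or.inr k1.symm⟩

theorem pr_GG_LR {q : ℝ} (h0 : 0 ≤ q) (h1 : q ≤ 1) (w H : ℤ) {e : Edg}
    (he : e ∈ LRE 0 w 0 H) :
    Pr (fun _ => q) ((LRE 0 w 0 H).erase e)
      (GG src tgt dsrc dtgt {v : Vtx | v.1 = 0} {v : Vtx | v.2 = 0 - 1} (LRE 0 w 0 H) e) ≤
      (2 * arm q e.1.natAbs) * (2 * arm (1 - q) e.2.1.natAbs) := by
  set S := LRE 0 w 0 H with hS
  have ok := okq h0 h1
  have h0' : 0 ≤ 1 - q := by linarith
  have h1' : 1 - q ≤ 1 := by linarith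
  have s1 := Pr_harris_decr ok (S := S.erase e)
    (A := fun F => HR src tgt {v : Vtx | v.1 = 0} e (↑(F.erase e) : Set Edg))
    (B := fun F => HR dsrc dtgt {v : Vtx | v.2 = 0 - 1} e (↑((S \ F).erase e) : Set Edg))
    (fun F G h _ hF => hF.mono (by exact_mod_cast Finset.erase_subset_erase _ h))
    (by
      intro F G h _ hF hG
      apply hF
      exact hG.mono (by
        exact_mod_cast Finset.erase_subset_erase _ (Finset.sdiff_subset_sdiff
          (Finset.Subset.refl S) h)))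
  have s2 : Pr (fun _ => q) (S.erase e)
      (fun F => HR src tgt {v : Vtx | v.1 = 0} e (↑(F.erase e) : Set Edg)) ≤
      2 * arm q e.1.natAbs := by
    have k1 := arm_bound h0 h1 (S.erase e) (src e) e.1.natAbs
    have k2 := arm_bound h0 h1 (S.erase e) (tgt e) e.1.natAbs
    have k3 := add_le_add k1 k2
    rw [← two_mul] at k3
    refine le_trans ?_ k3
    refine le_trans ?_ (Pr_or_le ok (S.erase e) _ _)
    apply Pr_mono ok
    rintro F _ ⟨b, hb, h⟩
    have hb' : b.1 = 0 := hb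
    obtain ⟨x, y, _ | _⟩ := e
    · rw [hS, mem_LRE_false] at he
      rcases h with h | h
      · exact Or.inl ⟨b, by simp only [src_mk]; omega,
          (reach_GR.mpr h).mono (by exact_mod_cast Finset.erase_subset _ _)⟩
      · exact Or.inr ⟨b, by simp only [tgt_false]; omega,
          (reach_GR.mpr h).mono (by exact_mod_cast Finset.erase_subset _ _)⟩
    · rw [hS, mem_LRE_true] at he
      rcases h with h | h
      · exact Or.inl ⟨b, by simp only [src_mk]; omega,
          (reach_GR.mpr h).mono (by exact_mod_cast Finset.erase_subset _ _)⟩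
      · exact Or.inr ⟨b, by simp only [tgt_true]; omega,
          (reach_GR.mpr h).mono (by exact_mod_cast Finset.erase_subset _ _)⟩
  have s3 : Pr (fun _ => q) (S.erase e) (fun F => HR dsrc dtgt {v : Vtx | v.2 = 0 - 1} e
      (↑((S \ F).erase e) : Set Edg)) ≤ 2 * arm (1 - q) e.2.1.natAbs := by
    have e1 : Pr (fun _ => q) (S.erase e) (fun F => HR dsrc dtgt {v : Vtx | v.2 = 0 - 1} e
        (↑((S \ F).erase e) : Set Edg)) = Pr (fun _ => 1 - q) (S.erase e)
        (fun F => HR dsrc dtgt {v : Vtx | v.2 = 0 - 1} e (↑F : Set Edg)) := by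
      rw [Pr_compl (fun _ : Edg => q)]
      apply Pr_congr
      intro F _
      rw [sdiff_erase_eq]
    rw [e1]
    have k1 := arm_bound h0' h1' (dmp (S.erase e)) (dsrc e) e.2.1.natAbs
    have k2 := arm_bound h0' h1' (dmp (S.erase e)) (dtgt e) e.2.1.natAbs
    rw [pr_dmp] at k1 k2
    have k3 := add_le_add k1 k2
    rw [← two_mul] at k3
    refine le_trans ?_ k3
    refine le_trans ?_ (Pr_or_le (okq h0' h1') (S.erase e) _ _)
    apply Pr_mono (okq h0' h1')
    rintro F _ ⟨b, hb, h⟩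
    have hb' : b.2 = 0 - 1 := hb
    obtain ⟨x, y, _ | _⟩ := e
    · rw [hS, mem_LRE_false] at he
      rcases h with h | h
      · refine Or.inl ⟨b, by simp only [dsrc_false]; omega, ?_⟩
        rw [coe_dmp, reach_dl]; exact h
      · refine Or.inr ⟨b, by simp only [dtgt_mk]; omega, ?_⟩
        rw [coe_dmp, reach_dl]; exact h
    · rw [hS, mem_LRE_true] at he
      rcases h with h | h
      · refine Or.inl ⟨b, by simp only [dsrc_true]; omega, ?_⟩
        rw [coe_dmp, reach_dl]; exact h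
      · refine Or.inr ⟨b, by simp only [dtgt_mk]; omega, ?_⟩
        rw [coe_dmp, reach_dl]; exact h
  have hn := arm_nonneg h0 h1 e.1.natAbs
  exact le_trans s1 (mul_le_mul s2 s3 (Pr_nonneg ok _ _) (by positivity))

theorem sum_Icc_natAbs (f : ℕ → ℝ) (w : ℕ) :
    ∑ x ∈ Finset.Icc (0:ℤ) w, f x.natAbs = ∑ r ∈ Finset.range (w + 1), f r := by
  refine Finset.sum_nbij' (i := Int.natAbs) (j := fun n : ℕ => (n:ℤ)) ?_ ?_ ?_ ?_ ?_
  · intro a ha
    rw [Finset.mem_Icc] at ha
    rw [Finset.mem_range]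
    omega
  · intro a ha
    rw [Finset.mem_range] at ha
    rw [Finset.mem_Icc]
    omega
  · intro a ha
    rw [Finset.mem_Icc] at ha
    omega
  · intro a _
    simp
  · intro a _
    rfl

theorem sum_GG {q : ℝ} (h0 : 0 ≤ q) (h1 : q ≤ 1) (w H : ℕ) :
    ∑ e ∈ LRE 0 (w:ℤ) 0 (H:ℤ), (2 * arm q e.1.natAbs) * (2 * arm (1 - q) e.2.1.natAbs) ≤
      8 * (SS q w * SS (1 - q) H) := by
  have h0' : 0 ≤ 1 - q := by linarith
  have h1' : 1 - q ≤ 1 := by linarith
  have hsub : LRE 0 (w:ℤ) 0 (H:ℤ) ⊆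
      (Finset.Icc (0:ℤ) w ×ˢ (Finset.Icc (0:ℤ) H ×ˢ (Finset.univ : Finset Bool))) := by
    rintro ⟨x, y, _ | _⟩ h
    · rw [mem_LRE_false] at h
      simp only [Finset.mem_product, Finset.mem_Icc, Finset.mem_univ, and_true]
      omega
    · rw [mem_LRE_true] at h
      simp only [Finset.mem_product, Finset.mem_Icc, Finset.mem_univ, and_true]
      omega
  refine (Finset.sum_le_sum_of_subset_of_nonneg hsub ?_).trans (le_of_eq ?_)
  · intro e _ _
    have := arm_nonneg h0 h1 e.1.natAbs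
    have := arm_nonneg h0' h1' e.2.1.natAbs
    positivity
  · rw [Finset.sum_product]
    have e1 : ∀ x : ℤ, ∑ yb ∈ (Finset.Icc (0:ℤ) H ×ˢ (Finset.univ : Finset Bool)),
        (2 * arm q x.natAbs) * (2 * arm (1 - q) yb.1.natAbs) =
        8 * SS (1 - q) H * arm q x.natAbs := by
      intro x
      rw [Finset.sum_product]
      simp only [Finset.sum_const, Finset.card_univ, Fintype.card_bool, nsmul_eq_mul]
      unfold SS
      rw [← sum_Icc_natAbs, Finset.mul_sum, Finset.sum_mul]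
      apply Finset.sum_congr rfl
      intro y _
      push_cast
      ring
    calc ∑ x ∈ Finset.Icc (0:ℤ) w, ∑ yb ∈ (Finset.Icc (0:ℤ) H ×ˢ (Finset.univ : Finset Bool)),
        (2 * arm q x.natAbs) * (2 * arm (1 - q) yb.1.natAbs)
        = ∑ x ∈ Finset.Icc (0:ℤ) w, 8 * SS (1 - q) H * arm q x.natAbs :=
          Finset.sum_congr rfl (fun x _ => e1 x)
      _ = 8 * SS (1 - q) H * ∑ x ∈ Finset.Icc (0:ℤ) w, arm q x.natAbs := by
          rw [Finset.mul_sum]
      _ = 8 * (SS q w * SS (1 - q) H) := by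
          rw [sum_Icc_natAbs]
          unfold SS
          ring

/-- The static bound on the derivative of the crossing probability. -/
theorem dh_bound {q : ℝ} (h0 : 1/4 ≤ q) (h1 : q ≤ 3/4) {w H : ℕ} (hw : 0 < w) :
    (dh q w H)^2 ≤ 43 * (SS q w * SS (1 - q) H) := by
  have hw' : (0:ℤ) < w := by exact_mod_cast hw
  have ok : Ok (fun _ : Edg => q) := okq (by linarith) (by linarith)
  set S := LRE 0 (w:ℤ) 0 (H:ℤ) with hS
  have h := static_bound (s := src) (t := tgt) (s' := dsrc) (t' := dtgt)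
    (B := {v : Vtx | v.1 = 0}) (B' := {v : Vtx | v.2 = 0 - 1}) ok (Finset.Subset.refl S)
    (fun F => ind (LRc 0 w 0 H F))
  have e1 : ∑ e ∈ S, q * (1 - q) * Ex (fun _ => q) (S.erase e)
      (fun F => (ind (LRc 0 w 0 H (insert e F)) - ind (LRc 0 w 0 H F)) *
        ind (GG src tgt dsrc dtgt {v : Vtx | v.1 = 0} {v : Vtx | v.2 = 0 - 1} S e F)) =
      q * (1 - q) * dh q w H := by
    unfold dh
    rw [← hS, Finset.mul_sum]
    apply Finset.sum_congr rfl
    intro e he
    congr 1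
    apply Ex_congr
    intro F hF
    by_cases k1 : LRc 0 w 0 H (insert e F)
    · by_cases k2 : LRc 0 w 0 H F
      · rw [ind_of k1, ind_of k2]; ring
      · rw [ind_of (piv_GG hw' (by positivity) he hF k1 k2), mul_one]
    · have k2 : ¬ LRc 0 w 0 H F := fun h => k1 (h.mono (Finset.subset_insert _ _))
      rw [ind_not_of k1, ind_not_of k2]; ring
  have e2 : Ex (fun _ => q) S (fun F => (ind (LRc 0 w 0 H F))^2) ≤ 1 := by
    apply Ex_le_of_le ok
    intro F _
    have := ind_nonneg (LRc 0 w 0 H F)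
    have := ind_le_one (LRc 0 w 0 H F)
    nlinarith
  have e3 : ∑ e ∈ S, q * (1 - q) * Pr (fun _ => q) (S.erase e)
      (GG src tgt dsrc dtgt {v : Vtx | v.1 = 0} {v : Vtx | v.2 = 0 - 1} S e) ≤
      q * (1 - q) * (8 * (SS q w * SS (1 - q) H)) := by
    rw [← Finset.mul_sum]
    apply mul_le_mul_of_nonneg_left _ (by nlinarith)
    refine (Finset.sum_le_sum (fun e he => pr_GG_LR (by linarith) (by linarith) w H he)).trans ?_
    exact sum_GG (by linarith) (by linarith) w H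
  rw [e1] at h
  have hSS : 0 ≤ SS q w * SS (1 - q) H := by
    have := SS_pos (q := q) (by linarith) (by linarith) w
    have := SS_pos (q := 1 - q) (by linarith) (by linarith) H
    positivity
  have hn3 : 0 ≤ ∑ e ∈ S, q * (1 - q) * Pr (fun _ => q) (S.erase e)
      (GG src tgt dsrc dtgt {v : Vtx | v.1 = 0} {v : Vtx | v.2 = 0 - 1} S e) := by
    apply Finset.sum_nonneg
    intro e _
    have := Pr_nonneg ok (S.erase e)
      (GG src tgt dsrc dtgt {v : Vtx | v.1 = 0} {v : Vtx | v.2 = 0 - 1} S e)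
    have : 0 ≤ q * (1 - q) := by nlinarith
    positivity
  have h5 : (q * (1 - q) * dh q w H)^2 ≤ q * (1 - q) * (8 * (SS q w * SS (1 - q) H)) := by
    refine h.trans ?_
    refine (mul_le_mul_of_nonneg_right e2 hn3).trans ?_
    rw [one_mul]; exact e3
  have h6 : 3/16 ≤ q * (1 - q) := by nlinarith
  set v := q * (1 - q) with hv
  set D := SS q w * SS (1 - q) H with hD
  have h7 : v * (v * (dh q w H)^2) ≤ v * (8 * D) := by nlinarith
  have h8 : v * (dh q w H)^2 ≤ 8 * D := le_of_mul_le_mul_left h7 (by linarith)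
  have h9 : 0 ≤ (dh q w H)^2 := sq_nonneg _
  nlinarith

attribute [local irreducible] hbr boxE kap rho aK

theorem SS_crit_le {K w : ℕ} (hw : 0 < w) (hwm : w ≤ 16 * rho K) :
    SS (1/2) w ≤ 210 / kap^2 * (((64 * rho K : ℕ) : ℝ) * aK K) := by
  have hk := kap_pos
  have h1 := SS_le (p := 1/2) le_rfl (by norm_num) hw
  have h2 := arm_crit (K := K) hw (by omega)
  set n := ((64 * rho K : ℕ) : ℝ) with hn
  have haK := aK_pos K
  have hwn : (w:ℝ) ≤ n := by
    have : w ≤ 64 * rho K := by omega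
    rw [hn]
    exact Nat.cast_le.mpr this
  have hsw : Real.sqrt w ≤ Real.sqrt n := Real.sqrt_le_sqrt hwn
  have hw2 : Real.sqrt w * Real.sqrt w = w := Real.mul_self_sqrt (Nat.cast_nonneg _)
  have hn2 : Real.sqrt n * Real.sqrt n = n := Real.mul_self_sqrt (Nat.cast_nonneg _)
  have ha := arm_nonneg (q := 1/2) (by norm_num) (by norm_num) w
  calc SS (1/2) w ≤ 30 / kap * w * arm (1/2) w := h1
    _ = 30 / kap * (Real.sqrt w * (Real.sqrt w * arm (1/2) w)) := by
        rw [← mul_assoc (Real.sqrt w), hw2]; ring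
    _ ≤ 30 / kap * (Real.sqrt n * (7 / kap * Real.sqrt n * aK K)) := by
        apply mul_le_mul_of_nonneg_left _ (by positivity)
        exact mul_le_mul hsw h2 (by positivity) (Real.sqrt_nonneg _)
    _ = 210 / kap^2 * ((Real.sqrt n * Real.sqrt n) * aK K) := by
        field_simp; ring
    _ = _ := by rw [hn2]

theorem SS_up_le {p : ℝ} (hp : 1/4 ≤ p) (hp1 : p ≤ 1/2) {K : ℕ} (h : Win p K) {w : ℕ}
    (hw : 0 < w) (hwm : w ≤ 16 * rho K) :
    SS (1 - p) w ≤ 840 / kap^2 * (((64 * rho K : ℕ) : ℝ) * aK K) := by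
  have hk := kap_pos
  have h1 := SS_le (p := 1 - p) (by linarith) (by linarith) hw
  have h2 := arm_up hp hp1 h hw hwm
  set n := ((64 * rho K : ℕ) : ℝ) with hn
  have haK := aK_pos K
  have hwn : (w:ℝ) ≤ n := by
    have : w ≤ 64 * rho K := by omega
    rw [hn]
    exact Nat.cast_le.mpr this
  have hsw : Real.sqrt w ≤ Real.sqrt n := Real.sqrt_le_sqrt hwn
  have hw2 : Real.sqrt w * Real.sqrt w = w := Real.mul_self_sqrt (Nat.cast_nonneg _)
  have hn2 : Real.sqrt n * Real.sqrt n = n := Real.mul_self_sqrt (Nat.cast_nonneg _)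
  have ha := arm_nonneg (q := 1 - p) (by linarith) (by linarith) w
  calc SS (1 - p) w ≤ 30 / kap * w * arm (1 - p) w := h1
    _ = 30 / kap * (Real.sqrt w * (Real.sqrt w * arm (1 - p) w)) := by
        rw [← mul_assoc (Real.sqrt w), hw2]; ring
    _ ≤ 30 / kap * (Real.sqrt n * (28 / kap * Real.sqrt n * aK K)) := by
        apply mul_le_mul_of_nonneg_left _ (by positivity)
        exact mul_le_mul hsw h2 (by positivity) (Real.sqrt_nonneg _)
    _ = 840 / kap^2 * ((Real.sqrt n * Real.sqrt n) * aK K) := by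
        field_simp; ring
    _ = _ := by rw [hn2]

theorem dh_le {p q : ℝ} (hp : 1/4 ≤ p) (hpq : p ≤ q) (hq : q ≤ 1/2) {K : ℕ} (h : Win p K)
    {w H : ℕ} (hw : 0 < w) (hwm : w ≤ 16 * rho K) (hH : 0 < H) (hHm : H ≤ 16 * rho K) :
    dh q w H ≤ 3000 / kap^2 * (((64 * rho K : ℕ) : ℝ) * aK K) := by
  have hk := kap_pos
  have haK := aK_pos K
  have h1 := dh_bound (q := q) (by linarith) (by linarith) (w := w) (H := H) hw
  have h2 := SS_crit_le (K := K) hw hwm
  have h3 := SS_up_le hp (hpq.trans hq) h hH hHm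
  have h4 : SS q w ≤ SS (1/2) w := SS_mono_param (by linarith) hq (by norm_num) w
  have h5 : SS (1 - q) H ≤ SS (1 - p) H :=
    SS_mono_param (by linarith) (by linarith) (by linarith) H
  have hS2 := SS_pos (q := 1 - q) (by linarith) (by linarith) H
  have hS1 := SS_pos (q := q) (by linarith) (by linarith) w
  set X := ((64 * rho K : ℕ) : ℝ) * aK K with hX
  have hX0 : 0 ≤ X := by positivity
  have h6 : SS q w * SS (1 - q) H ≤ (210 / kap^2 * X) * (840 / kap^2 * X) :=
    mul_le_mul (h4.trans h2) (h5.trans h3) (by linarith) (by positivity)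
  have h7 : (dh q w H)^2 ≤ (3000 / kap^2 * X)^2 := by
    calc (dh q w H)^2 ≤ 43 * (SS q w * SS (1 - q) H) := h1
      _ ≤ 43 * ((210 / kap^2 * X) * (840 / kap^2 * X)) :=
          mul_le_mul_of_nonneg_left h6 (by norm_num)
      _ = 7585200 * (1 / kap^2 * X)^2 := by ring
      _ ≤ 9000000 * (1 / kap^2 * X)^2 := by nlinarith [sq_nonneg (1 / kap^2 * X)]
      _ = _ := by ring
  exact (le_abs_self _).trans (abs_le_of_sq_le_sq h7 (by positivity))

/-- Crossing probabilities stay bounded below in the near-critical window. -/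
theorem hh_down {p : ℝ} (hp : 1/4 ≤ p) (hp1 : p ≤ 1/2) {K : ℕ} (h : Win p K)
    {w H : ℕ} (hw : 0 < w) (hwm : w ≤ 16 * rho K) (hH : 0 < H) (hHm : H ≤ 16 * rho K) :
    hh (1/2) w H - (1/2)^48 ≤ hh p w H := by
  have hk := kap_pos
  have haK := aK_pos K
  set X := ((64 * rho K : ℕ) : ℝ) * aK K with hX
  have hX0 : 0 ≤ X := by positivity
  set C := 3000 / kap^2 * X with hC
  have hder : ∀ x, p ≤ x → x ≤ 1/2 → HasDerivAt (fun x => C * x - hh x w H)
      (C * 1 - dh x w H) x := by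
    intro x _ _
    exact ((hasDerivAt_id x).const_mul _).sub (hh_hasDerivAt x w H)
  have hmono := mono_of_hasDerivAt hp1 hder (by
    intro x h1 h2
    have h3 := dh_le hp h1 h2 h hw hwm hH hHm
    linarith)
  have h5 : C * (1/2 - p) ≤ (1/2)^48 := by
    unfold Win at h
    have e1 : 2 * 10^7 / kap^4 * ((64 * rho K : ℕ) : ℝ) * aK K * (1/2 - p) =
        2 * 10^7 / kap^4 * (X * (1/2 - p)) := by rw [hX]; ring
    rw [e1, div_mul_eq_mul_div, div_le_one (by positivity)] at h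
    have e2 : C * (1/2 - p) = 3000 / kap^2 * (X * (1/2 - p)) := by rw [hC]; ring
    rw [e2]
    have h6 : X * (1/2 - p) ≤ kap^4 := by
      have : 0 ≤ X * (1/2 - p) := mul_nonneg hX0 (by linarith)
      linarith
    have hk48 : 3000 * kap^2 ≤ (1/2)^48 := by
      unfold kap; norm_num
    calc 3000 / kap^2 * (X * (1/2 - p)) ≤ 3000 / kap^2 * kap^4 :=
          mul_le_mul_of_nonneg_left h6 (by positivity)
      _ = 3000 * kap^2 := by field_simp
      _ ≤ _ := hk48
  linarith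

/-- Crossing probabilities in the near-critical window. -/
theorem rsw_down {p : ℝ} (hp : 1/4 ≤ p) (hp1 : p ≤ 1/2) {K : ℕ} (h : Win p K)
    {r : ℕ} (hr : 0 < r) (hrm : 6 * r ≤ 16 * rho K) :
    (1/2 : ℝ)^48 ≤ hh p ((6 * r : ℕ) : ℤ) ((2 * r : ℕ) : ℤ) := by
  have h1 := hh_down hp hp1 h (w := 6 * r) (H := 2 * r) (by omega) hrm (by omega) (by omega)
  have h2 := rsw_p (p := 1/2) le_rfl (by norm_num) (n := r) (w := ((6 * r : ℕ) : ℤ))
    (h := ((2 * r : ℕ) : ℤ)) (by exact_mod_cast hr) (by push_cast; omega) (by push_cast; omega)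
    (by push_cast; omega)
  have e : (1/2 : ℝ)^47 = 2 * (1/2)^48 := by norm_num
  rw [e] at h2
  linarith

end H974
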